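import Pool.Agent.W263.MS.Tfae

/-! Exceptional sets of finite logarithmic measure. -/

set_option autoImplicit false

namespace Pool.Agent.W263.MS

open MeasureTheory Filter Topology Set Classical
open Pool.Agent.W263.BSD Pool.Agent.W263.EP Pool.Agent.W263.MN Pool.Agent.W263.LG
open Pool.Agent.H341R2 (NormSys)
open scoped ENNReal

/-- the filter of `x → ∞` outside of `E` -/
def offE (E : Set ℝ) : Filter ℝ := atTop ⊓ 𝓟 Eᶜ

/-- finite logarithmic measure -/
def FinLog (E : Set ℝ) : Prop := MeasurableSet E ∧ IntegrableOn (fun x : ℝ => 1 / x) (E ∩ Ioi 2)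

theorem FinLog.union {E E' : Set ℝ} (h : FinLog E) (h' : FinLog E') : FinLog (E ∪ E') := by
  refine ⟨h.1.union h'.1, ?_⟩
  rw [union_inter_distrib_right]
  exact h.2.union h'.2

theorem offE_mono {E E' : Set ℝ} (h : E ⊆ E') : offE E' ≤ offE E :=
  inf_le_inf_left _ (principal_mono.mpr (compl_subset_compl.mpr h))

theorem FinLog.neBot {E : Set ℝ} (h : FinLog E) : (offE E).NeBot := by
  unfold offE
  rw [← Filter.frequently_mem_iff_neBot]
  intro hcon
  obtain ⟨X, hX⟩ := eventually_atTop.mp hcon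
  set Y : ℝ := max X 2 with hY
  have hsub : Ioi Y ⊆ E ∩ Ioi 2 := by
    intro x hx
    have hx' : Y < x := hx
    refine ⟨?_, lt_of_le_of_lt (le_max_right _ _) hx'⟩
    by_contra hxE
    exact hX x ((le_max_left _ _).trans hx'.le) hxE
  have h1 : IntegrableOn (fun x : ℝ => x⁻¹) (Ioi Y) := by
    have := h.2.mono_set hsub
    refine this.congr_fun (fun x _ => ?_) measurableSet_Ioi
    simp
  exact not_integrableOn_Ioi_inv h1

theorem offE_le (E : Set ℝ) : offE E ≤ atTop := inf_le_left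

/-- a square integrable function tends to zero outside of a set of finite measure -/
theorem exc_of_sq {f : ℝ → ℝ} {a : ℝ} (hf : Measurable f)
    (h2 : IntegrableOn (fun u => f u ^ 2) (Ioi a)) :
    ∃ E : Set ℝ, MeasurableSet E ∧ E ⊆ Ioi a ∧ volume E < ⊤ ∧
      Tendsto f (atTop ⊓ 𝓟 Eᶜ) (𝓝 0) := by
  set A : ℕ → Set ℝ := fun n => {u | 1 / ((n : ℝ) + 1) < |f u|} ∩ Ioi a with hA
  have hAm : ∀ n, MeasurableSet (A n) := fun n =>
    (measurableSet_lt measurable_const hf.abs).inter measurableSet_Ioi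
  have hAf : ∀ n, volume (A n) < ⊤ := by
    intro n
    have h3 := h2.measure_norm_gt_lt_top (ε := (1 / ((n : ℝ) + 1)) ^ 2) (by positivity)
    have h4 : (volume.restrict (Ioi a)) {u | 1 / ((n : ℝ) + 1) < |f u|} < ⊤ := by
      refine lt_of_le_of_lt (measure_mono fun u hu => ?_) h3
      have hu' : 1 / ((n : ℝ) + 1) < |f u| := hu
      show (1 / ((n : ℝ) + 1)) ^ 2 < ‖f u ^ 2‖
      rw [norm_pow, Real.norm_eq_abs]
      exact pow_lt_pow_left₀ hu' (by positivity) (by norm_num)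
    rwa [Measure.restrict_apply (measurableSet_lt measurable_const hf.abs)] at h4
  have hex : ∀ n : ℕ, ∃ m : ℕ, volume (A n ∩ Ioi (m : ℝ)) < (1 / 2) ^ n := by
    intro n
    have h3 : Tendsto (fun m : ℕ => volume (A n ∩ Ioi (m : ℝ))) atTop
        (𝓝 (volume (⋂ m : ℕ, A n ∩ Ioi (m : ℝ)))) := by
      refine tendsto_measure_iInter_atTop
        (fun m => ((hAm n).inter measurableSet_Ioi).nullMeasurableSet) ?_ ?_
      · intro m m' hm
        have : (m : ℝ) ≤ m' := by exact_mod_cast hm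
        exact inter_subset_inter_right _ (Ioi_subset_Ioi this)
      · exact ⟨0, ((measure_mono inter_subset_left).trans_lt (hAf n)).ne⟩
    have h4 : (⋂ m : ℕ, A n ∩ Ioi (m : ℝ)) = ∅ := by
      rw [eq_empty_iff_forall_notMem]
      intro u hu
      rw [mem_iInter] at hu
      obtain ⟨m, hm⟩ := exists_nat_gt u
      have := (hu m).2
      exact absurd this (not_lt.mpr hm.le)
    rw [h4, measure_empty] at h3
    exact (h3.eventually (gt_mem_nhds (ENNReal.pow_pos (by norm_num) n))).exists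
  choose m hm using hex
  refine ⟨⋃ n, A n ∩ Ioi (m n : ℝ), MeasurableSet.iUnion fun n => (hAm n).inter measurableSet_Ioi,
    iUnion_subset fun n => inter_subset_left.trans inter_subset_right, ?_, ?_⟩
  · refine lt_of_le_of_lt (measure_iUnion_le _) ?_
    refine lt_of_le_of_lt (ENNReal.tsum_le_tsum fun n => (hm n).le) ?_
    rw [ENNReal.tsum_geometric]
    norm_num
  · rw [Metric.tendsto_nhds]
    intro ε hε
    obtain ⟨n, hn⟩ := exists_nat_one_div_lt hε
    rw [Filter.eventually_inf_principal]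
    filter_upwards [eventually_gt_atTop (max a (m n : ℝ))] with u hu huE
    rw [Real.dist_eq, sub_zero]
    by_contra hcon
    apply huE
    rw [mem_iUnion]
    exact ⟨n, ⟨lt_of_lt_of_le hn (not_lt.mp hcon), lt_of_le_of_lt (le_max_left _ _) hu⟩,
      lt_of_le_of_lt (le_max_right _ _) hu⟩

/-- the same in the variable `x = e^u` -/
theorem exc_log {f : ℝ → ℝ} (hf : Measurable f)
    (h3 : IntegrableOn (fun u => f u ^ 2) (Ioi (Real.log 2))) :
    ∃ E : Set ℝ, FinLog E ∧ Tendsto (fun x => f (Real.log x)) (offE E) (𝓝 0) := by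
  obtain ⟨E, hE, hsub, hvol, hlim⟩ := exc_of_sq hf h3
  have hm : MeasurableSet (Real.exp '' E) :=
    (Real.isOpenEmbedding_exp.measurableEmbedding.measurableSet_image).mpr hE
  refine ⟨Real.exp '' E, ⟨hm, ?_⟩, ?_⟩
  · refine IntegrableOn.mono_set ?_ inter_subset_left
    rw [integrableOn_image_iff_integrableOn_abs_deriv_smul (f' := Real.exp) hE
      (fun x _ => (Real.hasDerivAt_exp x).hasDerivWithinAt) Real.exp_injective.injOn]
    have h4 : IntegrableOn (fun _ : ℝ => (1 : ℝ)) E := integrableOn_const (by exact hvol.ne)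
    refine h4.congr_fun (fun u _ => ?_) hE
    simp only []
    rw [abs_of_pos (Real.exp_pos u), smul_eq_mul, mul_one_div_cancel (Real.exp_pos u).ne']
  · unfold offE
    have h5 : Tendsto Real.log (atTop ⊓ 𝓟 (Real.exp '' E)ᶜ) (atTop ⊓ 𝓟 Eᶜ) := by
      refine tendsto_inf.mpr ⟨Real.tendsto_log_atTop.mono_left inf_le_left, ?_⟩
      rw [tendsto_principal, Filter.eventually_inf_principal]
      filter_upwards [eventually_gt_atTop 0] with x hx hxE hlog
      exact hxE ⟨Real.log x, hlog, Real.exp_log hx⟩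
    exact hlim.comp h5

/-- the main term determines the exponent and the constant -/
theorem main_unique {l : Filter ℝ} [l.NeBot] (hl : l ≤ atTop) {m : ℝ → ℝ} {ρ ρ' L L' : ℝ}
    (h : Tendsto (fun x => m x - mt ρ L 0 x) l (𝓝 0))
    (h' : Tendsto (fun x => m x - mt ρ' L' 0 x) l (𝓝 0)) : ρ = ρ' ∧ L = L' := by
  have h1 : Tendsto (fun x : ℝ => (ρ' - ρ) * (Real.log (Real.log x) +
      Real.eulerMascheroniConstant)) l (𝓝 (L' - L)) := by
    have h2 := (h'.sub h).add_const (L' - L)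
    rw [sub_zero, zero_add] at h2
    refine h2.congr fun x => ?_
    unfold LG.mt
    rw [harmonic_zero]
    push_cast
    ring
  have h2 : Tendsto (fun x : ℝ => Real.log (Real.log x) + Real.eulerMascheroniConstant) l atTop :=
    (tendsto_atTop_add_const_right _ _ loglog_atTop).mono_left hl
  have h3 : ρ = ρ' := by
    by_contra hne
    rcases lt_or_gt_of_ne hne with hlt | hlt
    · have h4 := h2.const_mul_atTop (show 0 < ρ' - ρ by linarith)
      exact not_tendsto_nhds_of_tendsto_atTop h4 _ h1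
    · have h4 := h2.const_mul_atTop_of_neg (show ρ' - ρ < 0 by linarith)
      exact not_tendsto_nhds_of_tendsto_atBot h4 _ h1
  refine ⟨h3, ?_⟩
  rw [h3] at h1
  have h4 : Tendsto (fun _ : ℝ => (0 : ℝ)) l (𝓝 (L' - L)) := by
    refine h1.congr fun x => ?_
    ring
  have h5 := tendsto_nhds_unique h4 tendsto_const_nhds
  linarith

variable {S : NormSys} {Bs : Finset S.X} {bad : Set S.X} {tr : S.X → ℕ → ℝ} {ω : ℝ} {D : ℝ}
  {F G : ℂ → ℂ} {ρ L L' : ℝ} {n : ℤ}

/-- **Theorem (mean square criterion, exceptional sets).** -/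
theorem ms_tfae_exc (E : TData S (tn S (Bs : Set S.X) tr ω) D)
    (hd : ∀ s : ℂ, (ω + 1) / 2 - 1 < s.re → DifferentiableAt ℂ F s)
    (he : ∀ s : ℂ, (ω + 2) / 2 < s.re → F s = LF S (Bs : Set S.X) tr s)
    (hn : meromorphicOrderAt F (((ω + 1) / 2 : ℝ) : ℂ) = n) (hL : CLim ((ω + 1) / 2) F n L)
    (hg : ∃ (C : ℝ) (A : ℕ), ∀ s : ℂ, (ω + 1) / 2 - 1 < s.re → ‖F s‖ ≤ C * (1 + ‖s‖) ^ A)
    (ρ L' : ℝ) :
    List.TFAE [
      (∀ s : ℂ, (ω + 1) / 2 < s.re → F s ≠ 0) ∧ (n : ℝ) = ρ ∧ L = L',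
      IntegrableOn (fun x => (MK S (Bs : Set S.X) tr ω 0 x - mt ρ L' 0 x) ^ 2 / x) (Ioi 2),
      Tendsto (fun X : ℝ => (Real.log X)⁻¹ *
        ∫ x in Ioc 2 X, |MK S (Bs : Set S.X) tr ω 0 x - mt ρ L' 0 x| / x) atTop (𝓝 0),
      (∃ K : ℝ, ∀ᶠ x : ℝ in atTop,
        -(K * Real.log (Real.log x)) ≤ MK S (Bs : Set S.X) tr ω 1 x) ∧
        ∃ E : Set ℝ, FinLog E ∧
          Tendsto (fun x => MK S (Bs : Set S.X) tr ω 0 x - mt ρ L' 0 x) (offE E) (𝓝 0)] := by
  have P := pair E
  have hl2 : 0 < Real.log 2 := Real.log_pos (by norm_num)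
  have key := ms_tfae E hd he hn hL hg
  have hA : AnalyticAt ℂ F (((ω + 1) / 2 : ℝ) : ℂ) := by
    refine Complex.analyticAt_iff_eventually_differentiableAt.mpr ?_
    filter_upwards [(isOpen_half ((ω + 1) / 2 - 1)).mem_nhds
      (show (ω + 1) / 2 - 1 < ((((ω + 1) / 2 : ℝ)) : ℂ).re by
        rw [Complex.ofReal_re]; linarith)] with z hz using hd z hz
  have hgr := growth_means E (fun s hs => hd s (by linarith)) he hA.meromorphicAt hn hL
    (by obtain ⟨C, A, hC⟩ := hg; exact ⟨C, A, fun s hs => hC s (by linarith)⟩)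
  have hset : ∀ ρ L' : ℝ, IntegrableOn (fun x => (MK S (Bs : Set S.X) tr ω 0 x - mt ρ L' 0 x) ^ 2 / x)
      (Ioi 2) → ∃ E : Set ℝ, FinLog E ∧
        Tendsto (fun x => MK S (Bs : Set S.X) tr ω 0 x - mt ρ L' 0 x) (offE E) (𝓝 0) := by
    intro ρ L' h
    rw [sq_iff] at h
    obtain ⟨E', hE', hlim⟩ := exc_log (rem_meas P.am 0) h
    refine ⟨E', hE', hlim.congr' ?_⟩
    refine Filter.Eventually.filter_mono (offE_le E') ?_
    filter_upwards [eventually_gt_atTop 1] with x hx
    exact rem_zero_eq hx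
  have k12 := (key ρ L').out 0 1
  have k13 := (key ρ L').out 0 2
  tfae_have 1 ↔ 2 := k12
  tfae_have 1 ↔ 3 := k13
  tfae_have 1 → 4 := fun h => ⟨(hgr.out 0 1).mp h.1, hset _ _ (k12.mp h)⟩
  tfae_have 4 → 1 := by
    rintro ⟨h1, E1, hE1, h2⟩
    have hRH := (hgr.out 0 1).mpr h1
    have h3 : IntegrableOn (fun x => (MK S (Bs : Set S.X) tr ω 0 x - mt n L 0 x) ^ 2 / x) (Ioi 2) := by
      have h3' := (key n L).out 0 1
      exact h3'.mp ⟨hRH, rfl, rfl⟩
    obtain ⟨E2, hE2, h4⟩ := hset _ _ h3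
    have hE := hE1.union hE2
    have := hE.neBot
    obtain ⟨h5, h6⟩ := main_unique (offE_le (E1 ∪ E2)) (h4.mono_left (offE_mono subset_union_right))
      (h2.mono_left (offE_mono subset_union_left))
    exact ⟨hRH, h5, h6⟩
  tfae_finish

end Pool.Agent.W263.MS
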