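import Pool.Agent.W263.LG.Place

/-! The sharp comparison of the two truncations. -/

set_option autoImplicit false

namespace Pool.Agent.W263.MS

open MeasureTheory Filter Topology Set Classical
open Pool.Agent.W263.BSD Pool.Agent.W263.EP Pool.Agent.W263.MN Pool.Agent.W263.LG
open Pool.Agent.H341R2 (NormSys)

variable {S : NormSys} {bad : Set S.X} {tr : S.X → ℕ → ℝ} {ω : ℝ} {D : ℝ}

theorem log_hh_le (x : S.X) : Real.log (S.N x) * EP.hh S x ^ 3 ≤ 4 * (S.N x : ℝ) ^ (-(5 / 4) : ℝ) := by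
  have hN := N_real_two (S := S) x
  have hN0 : (0 : ℝ) < S.N x := by linarith
  have h1 : Real.log (S.N x) ≤ 4 * (S.N x : ℝ) ^ (1 / 4 : ℝ) := by
    have h2 : Real.log (S.N x) = 4 * Real.log ((S.N x : ℝ) ^ (1 / 4 : ℝ)) := by
      rw [Real.log_rpow hN0]; ring
    have h3 : Real.log ((S.N x : ℝ) ^ (1 / 4 : ℝ)) ≤ (S.N x : ℝ) ^ (1 / 4 : ℝ) - 1 :=
      Real.log_le_sub_one_of_pos (by positivity)
    linarith
  have h2 : EP.hh S x ^ 3 = (S.N x : ℝ) ^ (-(3 / 2) : ℝ) := by
    unfold EP.hh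
    rw [← Real.rpow_natCast, ← Real.rpow_mul hN0.le]
    norm_num
  rw [h2]
  calc Real.log (S.N x) * (S.N x : ℝ) ^ (-(3 / 2) : ℝ) ≤
        (4 * (S.N x : ℝ) ^ (1 / 4 : ℝ)) * (S.N x : ℝ) ^ (-(3 / 2) : ℝ) := by gcongr
    _ = 4 * (S.N x : ℝ) ^ (-(5 / 4) : ℝ) := by
        rw [mul_assoc, ← Real.rpow_add hN0]
        norm_num

/-- the two truncations agree up to the squares -/
theorem RK_MK_zero (E : TData S (tn S bad tr ω) D) :
    ∃ C : ℝ, ∀ u : ℝ, 0 < u → |RK S bad tr ω 0 (Real.exp u) + MK S bad tr ω 0 (Real.exp u) -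
      ∑ x ∈ (fin_norm S (Real.exp u)).toFinset, (if u < 2 * Real.log (S.N x) then
        ca S (tn S bad tr ω) (x, 1) else 0)| ≤ C / u := by
  have hD := E.nonneg
  set t := tn S bad tr ω with ht
  set Γ : ℝ := ∑' m : ℕ, (3 / 4 : ℝ) ^ (m - 2) with hΓ
  have hΓ0 : 0 ≤ Γ := tsum_nonneg fun m => by positivity
  have hsm : Summable fun x : S.X => (S.N x : ℝ) ^ (-(5 / 4) : ℝ) :=
    S.summable _ (by norm_num)
  set Z : ℝ := ∑' x : S.X, (S.N x : ℝ) ^ (-(5 / 4) : ℝ) with hZ
  refine ⟨D * Γ * 4 * Z, fun u hu => ?_⟩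
  set T : Finset S.X := (fin_norm S (Real.exp u)).toFinset with hT
  set P : Finset (pw S).X := (fin_norm (pw S) (Real.exp u)).toFinset with hP
  -- the two sums
  have hR : RK S bad tr ω 0 (Real.exp u) = ∑ x ∈ T, cc S t x := by
    have h2 := ria_RK (S := S) (bad := bad) (tr := tr) (ω := ω) 0 hu
    have h3 := ria_sum (S := S) (t := t) 0 u
    rw [h2] at h3
    simpa [pk] using h3
  have hM : MK S bad tr ω 0 (Real.exp u) = -∑ p ∈ P, ca S t p := by
    have h2 := ria_MK (S := S) (bad := bad) (tr := tr) (ω := ω) 0 hu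
    have h3 : EP.ria (ap S t) 0 u = ∑ p ∈ P,
        ca S t p * ((u - Real.log ((pw S).N p)) ^ 0 / ((0 : ℕ).factorial : ℝ)) :=
      ria_stp (pw S) (ca S t) 0 u
    rw [h2] at h3
    have h4 : MK S bad tr ω 0 (Real.exp u) = -(∑ p ∈ P,
        ca S t p * ((u - Real.log ((pw S).N p)) ^ 0 / ((0 : ℕ).factorial : ℝ))) := by
      rw [← h3]
      unfold pk
      simp
    rw [h4]
    simp
  -- the second sum as a sum over the places
  set J : S.X → ℕ → ℝ := fun x m =>
    if ((m : ℝ) + 1) * Real.log (S.N x) ≤ u then ca S t (x, m) else 0 with hJ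
  obtain ⟨M, hMM⟩ : ∃ M : ℕ, ∀ p ∈ P, p.2 < M := by
    refine ⟨P.sup (fun p => p.2) + 1, fun p hp => ?_⟩
    have := Finset.le_sup (f := fun p : (pw S).X => p.2) hp
    exact Nat.lt_succ_of_le this
  have hmemP : ∀ p : (pw S).X, p ∈ P ↔ ((p.2 : ℝ) + 1) * Real.log (S.N p.1) ≤ u := by
    intro p
    rw [hP, mem_fin, pw_log]
  have hsub : P ⊆ (T ×ˢ Finset.range M : Finset (S.X × ℕ)) := by
    intro p hp
    have h5 := (hmemP p).mp hp
    have hl := logN_pos (S := S) p.1
    refine Finset.mem_product.mpr ⟨mem_fin.mpr ?_, Finset.mem_range.mpr (hMM p hp)⟩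
    have : (0 : ℝ) ≤ p.2 := Nat.cast_nonneg _
    nlinarith
  have hJz : ∀ x : S.X, ∀ m : ℕ, m ∉ Finset.range M → J x m = 0 := by
    intro x m hm
    rw [hJ]
    simp only []
    rw [if_neg]
    intro hcon
    have := hMM (x, m) ((hmemP (x, m)).mpr hcon)
    exact hm (Finset.mem_range.mpr this)
  have hsum2 : ∑ p ∈ P, ca S t p = ∑ x ∈ T, ∑' m, J x m := by
    have e1 : ∑ p ∈ P, ca S t p = ∑ p ∈ P, J p.1 p.2 := by
      refine Finset.sum_congr rfl fun p hp => ?_
      rw [hJ]
      simp only []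
      rw [if_pos ((hmemP p).mp hp)]
      rfl
    rw [e1]
    have e2 : ∑ p ∈ P, J p.1 p.2 = ∑ p ∈ (T ×ˢ Finset.range M : Finset (S.X × ℕ)), J p.1 p.2 := by
      refine Finset.sum_subset hsub fun p _ hp => ?_
      rw [hJ]
      simp only []
      rw [if_neg]
      intro hcon
      exact hp ((hmemP p).mpr hcon)
    rw [e2, Finset.sum_product]
    refine Finset.sum_congr rfl fun x _ => ?_
    exact (tsum_eq_sum (hJz x)).symm
  -- the difference at a place
  have hterm : ∀ x ∈ T, |cc S t x - ∑' m, J x m -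
      (if u < 2 * Real.log (S.N x) then ca S t (x, 1) else 0)| ≤
      (D / u) * (4 * (S.N x : ℝ) ^ (-(5 / 4) : ℝ)) * Γ := by
    intro x hx
    set ℓ := Real.log (S.N x) with hℓ
    have hℓ0 : 0 < ℓ := logN_pos x
    have hℓu : ℓ ≤ u := mem_fin.mp hx
    have hcc : HasSum (fun m : ℕ => ca S t (x, m)) (cc S t x) := E.cc_hasSum x
    have hJs : Summable (J x) := summable_of_ne_finset_zero (s := Finset.range M) (hJz x)
    set Q : ℕ → ℝ := fun m => if m = 1 then (if u < 2 * ℓ then ca S t (x, 1) else 0) else 0 with hQ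
    have hQs : HasSum Q (if u < 2 * ℓ then ca S t (x, 1) else 0) := by
      have h2 := hasSum_ite_eq (1 : ℕ) (if u < 2 * ℓ then ca S t (x, 1) else 0)
      exact h2
    have hd := (hcc.sub hJs.hasSum).sub hQs
    have hgeo : HasSum (fun m : ℕ => (3 / 4 : ℝ) ^ (m - 2)) Γ := (geo_summable 2).hasSum
    have hbnd := hgeo.mul_left ((D / u) * (4 * (S.N x : ℝ) ^ (-(5 / 4) : ℝ)))
    rw [← hd.tsum_eq]
    have key : ∀ m : ℕ, ‖ca S t (x, m) - J x m - Q m‖ ≤
        (D / u) * (4 * (S.N x : ℝ) ^ (-(5 / 4) : ℝ)) * (3 / 4 : ℝ) ^ (m - 2) := by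
      intro m
      rw [Real.norm_eq_abs]
      have hpos : 0 ≤ (D / u) * (4 * (S.N x : ℝ) ^ (-(5 / 4) : ℝ)) * (3 / 4 : ℝ) ^ (m - 2) := by
        positivity
      rcases Nat.lt_trichotomy m 1 with hm | hm | hm
      · have hm0 : m = 0 := by omega
        have e0 : ca S t (x, m) - J x m - Q m = 0 := by
          rw [hJ, hQ]
          simp only []
          rw [hm0, Nat.cast_zero, zero_add, one_mul, if_pos hℓu, if_neg (by norm_num)]
          ring
        rw [e0, abs_zero]
        exact hpos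
      · have e0 : ca S t (x, m) - J x m - Q m = 0 := by
          rw [hJ, hQ]
          simp only []
          rw [hm, if_pos rfl, Nat.cast_one]
          by_cases hc : u < 2 * ℓ
          · rw [if_pos hc, if_neg (by push Not; linarith)]
            ring
          · rw [if_neg hc, if_pos (by push Not at hc; linarith)]
            ring
        rw [e0, abs_zero]
        exact hpos
      · have e0 : Q m = 0 := by
          rw [hQ]
          simp only []
          rw [if_neg (by omega)]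
        rw [e0, sub_zero]
        have hb0 : 0 < ((m : ℝ) + 1) * ℓ := by positivity
        have hwd : |ca S t (x, m) - J x m| ≤ |ca S t (x, m)| * ((((m : ℝ) + 1) * ℓ) / u) := by
          rw [hJ]
          simp only []
          split_ifs with hcase
          · rw [sub_self, abs_zero]
            positivity
          · rw [sub_zero]
            have h4 : 1 ≤ (((m : ℝ) + 1) * ℓ) / u := by
              rw [one_le_div hu]; exact (not_le.mp hcase).le
            exact le_mul_of_one_le_right (abs_nonneg _) h4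
        refine hwd.trans ?_
        have h2 := E.bound x m
        have h6 : hh S x ^ (m + 1) ≤ hh S x ^ 3 * (3 / 4 : ℝ) ^ (m - 2) := by
          obtain ⟨i, rfl⟩ : ∃ i, m = i + 2 := ⟨m - 2, by omega⟩
          rw [Nat.add_sub_cancel, show i + 2 + 1 = 3 + i by ring, pow_add]
          exact mul_le_mul_of_nonneg_left
            (pow_le_pow_left₀ (hh_pos (S := S) x).le (hh_le (S := S) x) i)
            (pow_nonneg (hh_pos (S := S) x).le _)
        have hca : |ca S t (x, m)| * ((m : ℝ) + 1) ≤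
            D * (hh S x ^ 3 * (3 / 4 : ℝ) ^ (m - 2)) := by
          have e1 : |ca S t (x, m)| * ((m : ℝ) + 1) = |t x (m + 1)| := by
            have e2 : ca S t (x, m) = -(t x (m + 1) / ((m : ℝ) + 1)) := rfl
            rw [e2, abs_neg, abs_div, abs_of_pos (by positivity : (0 : ℝ) < (m : ℝ) + 1)]
            field_simp
          rw [e1]
          exact h2.trans (mul_le_mul_of_nonneg_left h6 hD)
        calc |ca S t (x, m)| * ((((m : ℝ) + 1) * ℓ) / u) =
            (|ca S t (x, m)| * ((m : ℝ) + 1)) * (ℓ / u) := by ring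
          _ ≤ (D * (hh S x ^ 3 * (3 / 4 : ℝ) ^ (m - 2))) * (ℓ / u) :=
              mul_le_mul_of_nonneg_right hca (by positivity)
          _ = (D / u) * (ℓ * hh S x ^ 3) * (3 / 4 : ℝ) ^ (m - 2) := by ring
          _ ≤ _ := by
              have := log_hh_le (S := S) x
              rw [← hℓ] at this
              gcongr
    exact tsum_of_norm_bounded hbnd key
  rw [hR, hM, hsum2, ← sub_eq_add_neg, ← Finset.sum_sub_distrib, ← Finset.sum_sub_distrib]
  calc |∑ x ∈ T, (cc S t x - ∑' m, J x m - (if u < 2 * Real.log (S.N x) then ca S t (x, 1) else 0))| ≤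
      ∑ x ∈ T, |cc S t x - ∑' m, J x m - (if u < 2 * Real.log (S.N x) then ca S t (x, 1) else 0)| :=
        Finset.abs_sum_le_sum_abs _ _
    _ ≤ ∑ x ∈ T, (D / u) * (4 * (S.N x : ℝ) ^ (-(5 / 4) : ℝ)) * Γ := Finset.sum_le_sum hterm
    _ = (D / u) * Γ * 4 * ∑ x ∈ T, (S.N x : ℝ) ^ (-(5 / 4) : ℝ) := by
        rw [Finset.mul_sum]
        refine Finset.sum_congr rfl fun x _ => ?_
        ring
    _ ≤ (D / u) * Γ * 4 * Z := by
        refine mul_le_mul_of_nonneg_left ?_ (by positivity)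
        exact hsm.sum_le_tsum T fun x _ => by positivity
    _ = _ := by ring

end Pool.Agent.W263.MS
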