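import Pool.Agent.W263.MS.EQDefs
import Pool.Agent.W263.MS.RS
import Pool.Agent.W263.LG.EQ
import Pool.Agent.Helper923.HMertens

/-! The comparison of the two truncations for elliptic curves. -/

set_option autoImplicit false

namespace Pool.Agent.W263.MS

open MeasureTheory Filter Topology Set Classical
open Pool.Agent.W263.BSD (pointCount GoodPrime IsLSeries)
open Pool.Agent.W263.EP Pool.Agent.W263.MN Pool.Agent.W263.LG
open Pool.Agent.H341R2 (NormSys)

/-- Mertens for the window from the square root -/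
theorem mert : ∃ C : ℝ, ∀ᶠ u : ℝ in atTop,
    |∑ p ∈ (Finset.Ioc ⌊Real.exp (u / 2)⌋₊ ⌊Real.exp u⌋₊).filter Nat.Prime, (1 : ℝ) / p -
      Real.log 2| ≤ C / u := by
  obtain ⟨C, hC0, hC⟩ := Pool.Agent.Helper923.HMertens.mertens_ratio
  refine ⟨4 * C + 4, ?_⟩
  filter_upwards [eventually_ge_atTop 4] with u hu
  have hu0 : 0 < u := by linarith
  set a : ℕ := ⌊Real.exp (u / 2)⌋₊ with ha
  set b : ℕ := ⌊Real.exp u⌋₊ with hb
  have hl2 : Real.log 2 < 0.7 := by linarith [Real.log_two_lt_d9]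
  have hl2' : 0 < Real.log 2 := Real.log_pos (by norm_num)
  have hfl : ∀ v : ℝ, 2 ≤ v → v - Real.log 2 ≤ Real.log (⌊Real.exp v⌋₊ : ℝ) ∧
      Real.log (⌊Real.exp v⌋₊ : ℝ) ≤ v ∧ 2 ≤ ⌊Real.exp v⌋₊ := by
    intro v hv
    have h1 : v + 1 ≤ Real.exp v := Real.add_one_le_exp v
    have h2 : Real.exp v < (⌊Real.exp v⌋₊ : ℝ) + 1 := Nat.lt_floor_add_one _
    have h3 : (⌊Real.exp v⌋₊ : ℝ) ≤ Real.exp v := Nat.floor_le (Real.exp_pos v).le
    have h4 : Real.exp v / 2 ≤ (⌊Real.exp v⌋₊ : ℝ) := by linarith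
    have h5 : 2 ≤ ⌊Real.exp v⌋₊ := by
      refine Nat.le_floor ?_
      push_cast
      linarith
    have h6 : (0 : ℝ) < (⌊Real.exp v⌋₊ : ℝ) := by
      have : (2 : ℝ) ≤ (⌊Real.exp v⌋₊ : ℝ) := by exact_mod_cast h5
      linarith
    refine ⟨?_, ?_, h5⟩
    · have h7 := Real.log_le_log (by positivity) h4
      rwa [Real.log_div (Real.exp_pos v).ne' (by norm_num), Real.log_exp] at h7
    · have h7 := Real.log_le_log h6 h3
      rwa [Real.log_exp] at h7
  obtain ⟨a1, a2, a3⟩ := hfl (u / 2) (by linarith)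
  obtain ⟨b1, b2, _⟩ := hfl u (by linarith)
  rw [← ha] at a1 a2 a3
  rw [← hb] at b1 b2
  have hab : a ≤ b := Nat.floor_le_floor (Real.exp_le_exp.mpr (by linarith))
  have h1 := hC a b a3 hab
  set la : ℝ := Real.log (a : ℝ) with hla
  set lb : ℝ := Real.log (b : ℝ) with hlb
  have hla0 : u / 4 ≤ la := by linarith
  have hla1 : 0 < la := by linarith
  have hlb1 : 0 < lb := by linarith
  have h2 : |Real.log (lb / la) - Real.log 2| ≤ 4 / u := by
    have e1 : Real.log (lb / la) - Real.log 2 = Real.log (lb / (2 * la)) := by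
      rw [← Real.log_div (by positivity) (by norm_num)]
      congr 1
      field_simp
    rw [e1, abs_le]
    constructor
    · have h3 : 1 - (lb / (2 * la))⁻¹ ≤ Real.log (lb / (2 * la)) :=
        Real.one_sub_inv_le_log_of_pos (by positivity)
      refine le_trans ?_ h3
      rw [inv_div]
      have h4 : 2 * la / lb ≤ 1 + 4 / u := by
        rw [div_le_iff₀ hlb1]
        have h5 : 2 * la ≤ u := by linarith
        have h6 : u ≤ (1 + 4 / u) * (u - Real.log 2) := by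
          have : (1 + 4 / u) * (u - Real.log 2) = u + 4 - Real.log 2 - 4 * Real.log 2 / u := by
            field_simp
            ring
          rw [this]
          have h7 : 4 * Real.log 2 / u ≤ Real.log 2 := by
            rw [div_le_iff₀ hu0]
            nlinarith
          linarith
        have h7 : (1 + 4 / u) * (u - Real.log 2) ≤ (1 + 4 / u) * lb := by gcongr
        linarith
      linarith
    · have h3 : Real.log (lb / (2 * la)) ≤ lb / (2 * la) - 1 :=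
        Real.log_le_sub_one_of_pos (by positivity)
      refine h3.trans ?_
      have h4 : lb / (2 * la) ≤ 1 + 4 / u := by
        rw [div_le_iff₀ (by positivity)]
        have h6 : u ≤ (1 + 4 / u) * (u - 2 * Real.log 2) := by
          have : (1 + 4 / u) * (u - 2 * Real.log 2) =
              u + 4 - 2 * Real.log 2 - 8 * Real.log 2 / u := by
            field_simp
            ring
          rw [this]
          have h7 : 8 * Real.log 2 / u ≤ 2 * Real.log 2 := by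
            rw [div_le_iff₀ hu0]
            nlinarith
          linarith
        have h7 : (1 + 4 / u) * (u - 2 * Real.log 2) ≤ (1 + 4 / u) * (2 * la) := by
          gcongr
          linarith
        linarith
      linarith
  have h3 : C / la ≤ 4 * C / u := by
    rw [div_le_div_iff₀ hla1 hu0]
    nlinarith
  calc _ = |(∑ p ∈ (Finset.Ioc a b).filter Nat.Prime, (1 : ℝ) / p - Real.log (lb / la)) +
        (Real.log (lb / la) - Real.log 2)| := by congr 1; ring
    _ ≤ _ := abs_add_le _ _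
    _ ≤ C / la + 4 / u := add_le_add h1 h2
    _ ≤ 4 * C / u + 4 / u := by linarith
    _ = _ := by ring

/-- the primes up to `e^u` -/
noncomputable def TQ (u : ℝ) : Finset Nat.Primes := (fin_norm sysQ (Real.exp u)).toFinset

theorem mem_TQ {u : ℝ} {p : Nat.Primes} : p ∈ TQ u ↔ Real.log ((p : ℕ) : ℝ) ≤ u :=
  mem_fin (S := sysQ)

theorem mem_TQ' {u : ℝ} {p : Nat.Primes} : p ∈ TQ u ↔ ((p : ℕ) : ℝ) ≤ Real.exp u := by
  have hp0 : (0 : ℝ) < ((p : ℕ) : ℝ) := by exact_mod_cast p.2.pos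
  rw [mem_TQ, Real.log_le_iff_le_exp hp0]

variable {a b : ℤ}

section Conv

variable {Bs : Finset Nat.Primes} (hBs : ∀ p : Nat.Primes, p ∈ Bs ↔ ¬ GoodPrime a b (p : ℕ))

theorem tn_Q (Bs : Finset Nat.Primes) (tr : Nat.Primes → ℕ → ℝ) (p : Nat.Primes) (m : ℕ) :
    tn sysQ (Bs : Set Nat.Primes) tr 1 p m =
      if p ∈ Bs then 0 else tr p m * (((p : ℕ)) : ℝ) ^ (-((m : ℝ) * ((1 + 1) / 2))) := by
  unfold tn
  by_cases h : p ∈ Bs
  · rw [if_pos h]; exact if_pos h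
  · rw [if_neg h]; exact if_neg h

include hBs

theorem SM_sum (u : ℝ) : secondMoment a b (Real.exp u) =
    ∑ p ∈ TQ u, (if p ∈ Bs then 0 else aP a b (p : ℕ) ^ 2 / ((p : ℕ) : ℝ) ^ 2) := by
  have hfin : {p : Nat.Primes | p ∉ Bs ∧ ((p : ℕ) : ℝ) ≤ Real.exp u}.Finite :=
    (TQ u).finite_toSet.subset fun p hp => mem_TQ'.mpr hp.2
  have h1 : secondMoment a b (Real.exp u) = ∑ᶠ p ∈ {p : Nat.Primes | p ∉ Bs ∧ ((p : ℕ) : ℝ) ≤
      Real.exp u}, aP a b (p : ℕ) ^ 2 / ((p : ℕ) : ℝ) ^ 2 := by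
    unfold secondMoment
    symm
    refine finsum_mem_eq_of_bijOn (fun p : Nat.Primes => (p : ℕ)) ⟨?_, ?_, ?_⟩ ?_
    · rintro p ⟨h1, h2⟩
      refine ⟨?_, h2⟩
      by_contra h
      exact h1 ((hBs p).mpr h)
    · exact Nat.Primes.coe_nat_injective.injOn
    · rintro n ⟨h1, h2⟩
      exact ⟨⟨n, h1.1⟩, ⟨fun h => (hBs _).mp h h1, h2⟩, rfl⟩
    · rintro p _
      rfl
  rw [h1, finsum_mem_eq_finite_toFinset_sum _ hfin]
  have hsub : hfin.toFinset ⊆ TQ u := by
    intro p hp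
    rw [Set.Finite.mem_toFinset] at hp
    exact mem_TQ'.mpr hp.2
  rw [← Finset.sum_subset hsub]
  · refine Finset.sum_congr rfl fun p hp => ?_
    rw [Set.Finite.mem_toFinset] at hp
    rw [if_neg hp.1]
  · intro p hp hp'
    rw [Set.Finite.mem_toFinset] at hp'
    have : p ∈ Bs := by
      by_contra h
      exact hp' ⟨h, mem_TQ'.mp hp⟩
    rw [if_pos this]

theorem ca_two (p : Nat.Primes) :
    -(tn sysQ (Bs : Set Nat.Primes) (abTr (AA a b)) 1 p (1 + 1) / (((1 : ℕ) : ℝ) + 1)) =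
    if p ∈ Bs then 0 else -(1 / 2) * (aP a b (p : ℕ) ^ 2 / ((p : ℕ) : ℝ) ^ 2) + 1 / ((p : ℕ) : ℝ) := by
  rw [tn_Q]
  by_cases h : p ∈ Bs
  · rw [if_pos h, if_pos h]
    simp
  · have hg : GoodPrime a b (p : ℕ) := by
      by_contra h'
      exact h ((hBs p).mpr h')
    rw [if_neg h, if_neg h, abTr_eq hg]
    have hp0 : (0 : ℝ) < ((p : ℕ) : ℝ) := by exact_mod_cast p.2.pos
    have e1 : powerSum a b (p : ℕ) (1 + 1) = aP a b (p : ℕ) * aP a b (p : ℕ) - ((p : ℕ) : ℝ) * 2 := rfl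
    have e2 : (((p : ℕ)) : ℝ) ^ (-((((1 + 1 : ℕ)) : ℝ) * ((1 + 1) / 2))) =
        (((p : ℕ) : ℝ) ^ 2)⁻¹ := by
      rw [← Real.rpow_natCast, ← Real.rpow_neg hp0.le]
      congr 1
      push_cast
      norm_num
    rw [e1, e2]
    push_cast
    field_simp
    ring

theorem inv_sum : ∀ᶠ u : ℝ in atTop,
    ∑ p ∈ TQ u, (if u < 2 * Real.log ((p : ℕ) : ℝ) then
      (if p ∈ Bs then 0 else 1 / ((p : ℕ) : ℝ)) else 0) =
    ∑ p ∈ (Finset.Ioc ⌊Real.exp (u / 2)⌋₊ ⌊Real.exp u⌋₊).filter Nat.Prime, (1 : ℝ) / p := by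
  obtain ⟨M, hM⟩ : ∃ M : ℕ, ∀ p ∈ Bs, (p : ℕ) ≤ M :=
    ⟨Bs.sup (fun p => (p : ℕ)), fun p hp => Finset.le_sup (f := fun p : Nat.Primes => (p : ℕ)) hp⟩
  have hev : ∀ᶠ u : ℝ in atTop, (M : ℝ) < Real.exp (u / 2) := by
    have h1 : Tendsto (fun u : ℝ => Real.exp (u / 2)) atTop atTop :=
      Real.tendsto_exp_atTop.comp (tendsto_id.atTop_div_const (by norm_num))
    exact h1.eventually (eventually_gt_atTop _)
  filter_upwards [hev] with u hu
  rw [← Finset.sum_filter]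
  refine Finset.sum_bij (fun p _ => (p : ℕ)) ?_ ?_ ?_ ?_
  · intro p hp
    rw [Finset.mem_filter, mem_TQ'] at hp
    obtain ⟨h1, h2⟩ := hp
    have hp0 : (0 : ℝ) < ((p : ℕ) : ℝ) := by exact_mod_cast p.2.pos
    rw [Finset.mem_filter, Finset.mem_Ioc]
    refine ⟨⟨?_, ?_⟩, p.2⟩
    · rw [Nat.floor_lt (Real.exp_pos _).le]
      have h3 : u / 2 < Real.log ((p : ℕ) : ℝ) := by linarith
      exact (Real.lt_log_iff_exp_lt hp0).mp h3
    · exact Nat.le_floor h1
  · intro p _ q _ h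
    exact Nat.Primes.coe_nat_injective h
  · intro n hn
    rw [Finset.mem_filter, Finset.mem_Ioc] at hn
    obtain ⟨⟨h1, h2⟩, h3⟩ := hn
    have hn0 : (0 : ℝ) < (n : ℝ) := by exact_mod_cast h3.pos
    refine ⟨(⟨n, h3⟩ : Nat.Primes), Finset.mem_filter.mpr ⟨mem_TQ'.mpr ?_, ?_⟩, rfl⟩
    · show (n : ℝ) ≤ _
      exact (Nat.le_floor_iff (Real.exp_pos u).le).mp h2
    · show u < 2 * Real.log (n : ℝ)
      have h4 := (Nat.floor_lt (Real.exp_pos _).le).mp h1
      have h5 := (Real.lt_log_iff_exp_lt hn0).mpr h4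
      linarith
  · intro p hp
    rw [Finset.mem_filter, mem_TQ'] at hp
    obtain ⟨h1, h2⟩ := hp
    have hp0 : (0 : ℝ) < ((p : ℕ) : ℝ) := by exact_mod_cast p.2.pos
    have h3 : p ∉ Bs := by
      intro h4
      have h5 : ((p : ℕ) : ℝ) ≤ M := by exact_mod_cast hM p h4
      have h6 : u / 2 < Real.log ((p : ℕ) : ℝ) := by linarith
      have h7 := (Real.lt_log_iff_exp_lt hp0).mp h6
      linarith
    rw [if_neg h3]

theorem cmpQ : ∃ C : ℝ, ∀ u : ℝ, 0 < u → |productMean a b 0 (Real.exp u) +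
    logMean a b 0 (Real.exp u) - ∑ p ∈ TQ u, (if u < 2 * Real.log ((p : ℕ) : ℝ) then
      (if p ∈ Bs then 0 else -(1 / 2) * (aP a b (p : ℕ) ^ 2 / ((p : ℕ) : ℝ) ^ 2) +
        1 / ((p : ℕ) : ℝ)) else 0)| ≤ C / u := by
  obtain ⟨C1, h1⟩ := RK_MK_zero (eq_tdata hBs)
  refine ⟨C1, fun u hu => ?_⟩
  have g1 := h1 u hu
  rw [RK_EQ hBs, MK_EQ hBs] at g1
  refine le_trans (le_of_eq ?_) g1
  congr 2
  refine Finset.sum_congr rfl fun p _ => ?_
  by_cases hc : u < 2 * Real.log ((p : ℕ) : ℝ)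
  · rw [if_pos hc, ← ca_two hBs p]
    exact (if_pos hc).symm
  · rw [if_neg hc]
    exact (if_neg hc).symm

/-- **The comparison.** -/
theorem rs_limit (hRS : RankinSelberg a b) : ∃ C : ℝ, ∀ᶠ x : ℝ in atTop,
    |productMean a b 0 x + logMean a b 0 x - 1 / 2 * Real.log 2| ≤ C / Real.log x := by
  obtain ⟨C1, h1⟩ := cmpQ hBs
  obtain ⟨C2, h2⟩ := mert
  obtain ⟨B, K, h3⟩ := hRS
  refine ⟨C1 + C2 + 3 / 2 * |K|, ev_log ?_⟩
  have h3a := ev_exp h3
  have h3b : ∀ᶠ u : ℝ in atTop, |secondMoment a b (Real.exp (u / 2)) -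
      Real.log (Real.log (Real.exp (u / 2))) - B| ≤ K / Real.log (Real.exp (u / 2)) :=
    (tendsto_id.atTop_div_const (by norm_num : (0 : ℝ) < 2)).eventually h3a
  filter_upwards [h2, h3a, h3b, inv_sum hBs, eventually_ge_atTop 1] with u g2 g3a g3b g4 hu
  have hu0 : 0 < u := by linarith
  have g1 := h1 u hu0
  rw [Real.log_exp] at g3a g3b ⊢
  -- the squares
  have hs1 : ∑ p ∈ TQ u, (if u < 2 * Real.log ((p : ℕ) : ℝ) then
      (if p ∈ Bs then 0 else -(1 / 2) * (aP a b (p : ℕ) ^ 2 / ((p : ℕ) : ℝ) ^ 2) +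
        1 / ((p : ℕ) : ℝ)) else 0) =
      -(1 / 2) * (secondMoment a b (Real.exp u) - secondMoment a b (Real.exp (u / 2))) +
        ∑ p ∈ (Finset.Ioc ⌊Real.exp (u / 2)⌋₊ ⌊Real.exp u⌋₊).filter Nat.Prime, (1 : ℝ) / p := by
    rw [← g4, SM_sum hBs u, SM_sum hBs (u / 2)]
    have hT2 : TQ (u / 2) = (TQ u).filter (fun p : Nat.Primes => ¬ u < 2 * Real.log ((p : ℕ) : ℝ)) := by
      ext p
      rw [Finset.mem_filter, mem_TQ, mem_TQ]
      constructor
      · intro h; exact ⟨by linarith, by push Not; linarith⟩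
      · rintro ⟨_, h⟩; push Not at h; linarith
    rw [hT2, Finset.sum_filter, ← Finset.sum_sub_distrib, Finset.mul_sum, ← Finset.sum_add_distrib]
    refine Finset.sum_congr rfl fun p _ => ?_
    by_cases hc : u < 2 * Real.log ((p : ℕ) : ℝ)
    · rw [if_pos hc, if_neg (not_not.mpr hc), if_pos hc]
      by_cases hb : p ∈ Bs
      · rw [if_pos hb, if_pos hb, if_pos hb]; ring
      · rw [if_neg hb, if_neg hb, if_neg hb]; ring
    · rw [if_neg hc, if_pos hc, if_neg hc]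
      ring
  rw [hs1] at g1
  set A1 := secondMoment a b (Real.exp u)
  set A2 := secondMoment a b (Real.exp (u / 2))
  set V := ∑ p ∈ (Finset.Ioc ⌊Real.exp (u / 2)⌋₊ ⌊Real.exp u⌋₊).filter Nat.Prime, (1 : ℝ) / p
  set PM := productMean a b 0 (Real.exp u)
  set LM := logMean a b 0 (Real.exp u)
  have hlog : Real.log (u / 2) = Real.log u - Real.log 2 := Real.log_div hu0.ne' (by norm_num)
  rw [hlog] at g3b
  have e1 : K / (u / 2) = 2 * (K / u) := by field_simp
  rw [e1] at g3b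
  have e2 : K / u ≤ |K| / u := div_le_div_of_nonneg_right (le_abs_self K) hu0.le
  have e3 : (C1 + C2 + 3 / 2 * |K|) / u = C1 / u + C2 / u + 3 / 2 * (|K| / u) := by ring
  rw [e3]
  have f1 := abs_le.mp g1
  have f2 := abs_le.mp g2
  have f3 := abs_le.mp g3a
  have f4 := abs_le.mp g3b
  rw [abs_le]
  constructor
  · linarith [f1.1, f1.2, f2.1, f2.2, f3.1, f3.2, f4.1, f4.2]
  · linarith [f1.1, f1.2, f2.1, f2.2, f3.1, f3.2, f4.1, f4.2]

end Conv

end Pool.Agent.W263.MS
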