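import Pool.Agent.W263.MS.EQMain
import Pool.Agent.W263.BSD.Lead6

/-! The two normalisations of the products, and the conversion of the conditions. -/

set_option autoImplicit false

namespace Pool.Agent.W263.MS

open MeasureTheory Filter Topology Set Classical
open Pool.Agent.W263.BSD Pool.Agent.W263.EP Pool.Agent.W263.MN Pool.Agent.W263.LG
open Pool.Agent.H341R2 (NormSys)

variable {a b : ℤ} {F : ℂ → ℂ}

/-- `∫_2^∞ log² (Q(x) / (A (log x)^ρ)) dx/x < ∞` -/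
def InL2 (Q : ℝ → ℝ) (ρ A : ℝ) : Prop :=
  IntegrableOn (fun x : ℝ => Real.log (Q x / (A * (Real.log x) ^ ρ)) ^ 2 / x) (Ioi 2)

/-- `(log X)⁻¹ ∫_2^X |log (Q(x) / (A (log x)^ρ))| dx/x → 0` -/
def InMean (Q : ℝ → ℝ) (ρ A : ℝ) : Prop :=
  Tendsto (fun X : ℝ => (Real.log X)⁻¹ *
    ∫ x in Ioc 2 X, |Real.log (Q x / (A * (Real.log x) ^ ρ))| / x) atTop (𝓝 0)

/-- `Q(x) / (log x)^ρ → A` for `x → ∞` outside of a set of finite logarithmic measure -/
def OffFinLog (Q : ℝ → ℝ) (ρ A : ℝ) : Prop :=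
  ∃ E : Set ℝ, FinLog E ∧ Tendsto (fun x : ℝ => Q x / (Real.log x) ^ ρ) (offE E) (𝓝 A)

/-- the data of a normalisation -/
structure QData (a b : ℤ) (Q : ℝ → ℝ) (κ : ℝ) : Prop where
  pos : ∀ x, 1 < x → 0 < Q x
  meas : ∃ q : ℝ → ℝ, Measurable q ∧ (∀ u, 0 < u → q u = Real.log (Q (Real.exp u))) ∧
    ∀ U, ∃ B, ∀ u, 0 < u → u ≤ U → |q u| ≤ B
  cmp : ∃ C : ℝ, ∀ᶠ x : ℝ in atTop, |Real.log (Q x) + logMean a b 0 x - κ| ≤ C / Real.log x

theorem productMean_zero {x : ℝ} (hx : 0 < x) :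
    productMean a b 0 x = Real.log (bsdProduct a b x) := by
  unfold bsdProduct productMean
  rw [Real.log_prod (fun p hp => by
    have hp1 : 0 < (p : ℝ) := by exact_mod_cast (Finset.mem_filter.mp hp).2.1.pos
    positivity)]
  rw [← finsum_mem_coe_finset]
  have hset : ((Finset.range (⌊x⌋₊ + 1)).filter (GoodPrime a b) : Set ℕ) =
      {p : ℕ | GoodPrime a b p ∧ (p : ℝ) ≤ x} := by
    ext p
    simp only [Finset.coe_filter, Finset.mem_range, mem_ofPred_eq]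
    rw [Nat.lt_succ_iff, Nat.le_floor_iff hx.le]
    tauto
  rw [hset]
  refine finsum_mem_congr rfl fun p _ => ?_
  rw [pow_zero, one_mul]

/-- a function of the integer part is bounded on bounded sets -/
theorem floor_bdd (h : ℕ → ℝ) (v : ℝ → ℝ) (hv : Monotone v) (U : ℝ) :
    ∃ B, ∀ u, u ≤ U → |h ⌊v u⌋₊| ≤ B := by
  refine ⟨∑ n ∈ Finset.range (⌊v U⌋₊ + 1), |h n|, fun u hu => ?_⟩
  refine Finset.single_le_sum (f := fun n => |h n|) (fun n _ => abs_nonneg _) ?_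
  rw [Finset.mem_range]
  have := Nat.floor_le_floor (hv hu)
  omega

theorem qdata_P (hΔ : 4 * a ^ 3 + 27 * b ^ 2 ≠ 0) (hRS : RankinSelberg a b) :
    QData a b (bsdProduct a b) (1 / 2 * Real.log 2) := by
  have hfin := bad_finite hΔ
  obtain ⟨Bs, hBs⟩ : ∃ Bs : Finset Nat.Primes, ∀ p : Nat.Primes,
      p ∈ Bs ↔ ¬ GoodPrime a b (p : ℕ) := ⟨hfin.toFinset, fun p => by
    rw [Set.Finite.mem_toFinset]; rfl⟩
  refine ⟨fun x _ => bsdProduct_pos x, ⟨fun u => Real.log (bsdProduct a b (Real.exp u)),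
    Real.measurable_log.comp (bsd_meas.comp Real.measurable_exp), fun _ _ => rfl, fun U => ?_⟩, ?_⟩
  · obtain ⟨B, hB⟩ := floor_bdd (fun n : ℕ => Real.log (∏ p ∈ (Finset.range (n + 1)).filter
      (GoodPrime a b), (((pointCount a b p : ℝ) + 1) / p))) Real.exp Real.exp_monotone U
    exact ⟨B, fun u _ hu => hB u hu⟩
  · obtain ⟨C, hC⟩ := rs_limit hBs hRS
    refine ⟨C, ?_⟩
    filter_upwards [hC, eventually_gt_atTop 0] with x hx hx0
    rwa [productMean_zero hx0] at hx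

/-- the second order term -/
noncomputable def soT (a b : ℤ) (n : ℕ) : ℝ :=
  ∑ p ∈ (Finset.range (n + 1)).filter (GoodPrime a b),
    (((p : ℝ) - pointCount a b p) ^ 2 - 2 * p) / (2 * (p : ℝ) ^ 2)

theorem star_sum {x : ℝ} (hx : 1 ≤ x) :
    ∑ p ∈ (Finset.range (⌊x⌋₊ + 1)).filter (fun p => GoodPrime a b p ∧ √x < p),
      (((p : ℝ) - pointCount a b p) ^ 2 - 2 * p) / (2 * (p : ℝ) ^ 2) =
    soT a b ⌊x⌋₊ - soT a b ⌊√x⌋₊ := by
  unfold soT
  have hx0 : 0 ≤ x := by linarith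
  have hsx : √x ≤ x := by
    rw [Real.sqrt_le_left hx0]
    nlinarith
  have h1 : (Finset.range (⌊√x⌋₊ + 1)).filter (GoodPrime a b) =
      ((Finset.range (⌊x⌋₊ + 1)).filter (GoodPrime a b)).filter (fun p : ℕ => ¬ √x < p) := by
    ext p
    simp only [Finset.mem_filter, Finset.mem_range]
    rw [Nat.lt_succ_iff, Nat.lt_succ_iff, Nat.le_floor_iff (Real.sqrt_nonneg x),
      Nat.le_floor_iff hx0, not_lt]
    constructor
    · rintro ⟨h1, h2⟩; exact ⟨⟨h1.trans hsx, h2⟩, h1⟩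
    · rintro ⟨⟨_, h2⟩, h3⟩; exact ⟨h3, h2⟩
  have h2 : (Finset.range (⌊x⌋₊ + 1)).filter (fun p => GoodPrime a b p ∧ √x < p) =
      ((Finset.range (⌊x⌋₊ + 1)).filter (GoodPrime a b)).filter (fun p : ℕ => √x < p) := by
    rw [Finset.filter_filter]
  rw [h1, h2, eq_sub_iff_add_eq, Finset.sum_filter_add_sum_filter_not]

theorem star_TQ {Bs : Finset Nat.Primes} (hBs : ∀ p : Nat.Primes, p ∈ Bs ↔ ¬ GoodPrime a b (p : ℕ))
    {u : ℝ} (hu : 0 < u) :
    ∑ p ∈ (Finset.range (⌊Real.exp u⌋₊ + 1)).filter (fun p => GoodPrime a b p ∧ √(Real.exp u) < p),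
      (((p : ℝ) - pointCount a b p) ^ 2 - 2 * p) / (2 * (p : ℝ) ^ 2) =
    -∑ p ∈ TQ u, (if u < 2 * Real.log ((p : ℕ) : ℝ) then
      (if p ∈ Bs then 0 else -(1 / 2) * (aP a b (p : ℕ) ^ 2 / ((p : ℕ) : ℝ) ^ 2) +
        1 / ((p : ℕ) : ℝ)) else 0) := by
  have hsq : √(Real.exp u) = Real.exp (u / 2) := by
    rw [Real.sqrt_eq_iff_mul_self_eq (Real.exp_pos u).le (Real.exp_pos _).le, ← Real.exp_add]
    congr 1
    ring
  rw [hsq, ← Finset.sum_neg_distrib, ← Finset.sum_filter_add_sum_filter_not (TQ u)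
    (fun p : Nat.Primes => u < 2 * Real.log ((p : ℕ) : ℝ) ∧ p ∉ Bs)]
  have hz : ∑ p ∈ (TQ u).filter (fun p : Nat.Primes =>
      ¬ (u < 2 * Real.log ((p : ℕ) : ℝ) ∧ p ∉ Bs)), -(if u < 2 * Real.log ((p : ℕ) : ℝ) then
      (if p ∈ Bs then (0 : ℝ) else -(1 / 2) * (aP a b (p : ℕ) ^ 2 / ((p : ℕ) : ℝ) ^ 2) +
        1 / ((p : ℕ) : ℝ)) else 0) = 0 := by
    refine Finset.sum_eq_zero fun p hp => ?_
    rw [Finset.mem_filter] at hp
    by_cases h1 : u < 2 * Real.log ((p : ℕ) : ℝ)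
    · have h2 : p ∈ Bs := by
        by_contra h3
        exact hp.2 ⟨h1, h3⟩
      rw [if_pos h1, if_pos h2, neg_zero]
    · rw [if_neg h1, neg_zero]
  rw [hz, add_zero]
  symm
  refine Finset.sum_bij (fun p _ => (p : ℕ)) ?_ ?_ ?_ ?_
  · intro p hp
    rw [Finset.mem_filter, mem_TQ'] at hp
    obtain ⟨h1, h2, h3⟩ := hp
    have hp0 : (0 : ℝ) < ((p : ℕ) : ℝ) := by exact_mod_cast p.2.pos
    rw [Finset.mem_filter, Finset.mem_range, Nat.lt_succ_iff, Nat.le_floor_iff (Real.exp_pos u).le]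
    refine ⟨h1, ?_, ?_⟩
    · by_contra h4
      exact h3 ((hBs p).mpr h4)
    · have h5 : u / 2 < Real.log ((p : ℕ) : ℝ) := by linarith
      exact (Real.lt_log_iff_exp_lt hp0).mp h5
  · intro p _ q _ h
    exact Nat.Primes.coe_nat_injective h
  · intro n hn
    rw [Finset.mem_filter, Finset.mem_range, Nat.lt_succ_iff,
      Nat.le_floor_iff (Real.exp_pos u).le] at hn
    obtain ⟨h1, h2, h3⟩ := hn
    have hn0 : (0 : ℝ) < (n : ℝ) := by exact_mod_cast h2.1.pos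
    refine ⟨(⟨n, h2.1⟩ : Nat.Primes), Finset.mem_filter.mpr ⟨mem_TQ'.mpr h1, ?_, ?_⟩, rfl⟩
    · show u < 2 * Real.log (n : ℝ)
      have h5 := (Real.lt_log_iff_exp_lt hn0).mpr h3
      linarith
    · intro h4
      exact (hBs _).mp h4 h2
  · intro p hp
    rw [Finset.mem_filter, mem_TQ'] at hp
    obtain ⟨h1, h2, h3⟩ := hp
    have hp0 : (0 : ℝ) < ((p : ℕ) : ℝ) := by exact_mod_cast p.2.pos
    rw [if_pos h2, if_neg h3]
    have e1 : aP a b (p : ℕ) = ((p : ℕ) : ℝ) - pointCount a b (p : ℕ) := rfl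
    rw [e1]
    field_simp
    ring

theorem qdata_star (hΔ : 4 * a ^ 3 + 27 * b ^ 2 ≠ 0) : QData a b (bsdStar a b) 0 := by
  have hfin := bad_finite hΔ
  obtain ⟨Bs, hBs⟩ : ∃ Bs : Finset Nat.Primes, ∀ p : Nat.Primes,
      p ∈ Bs ↔ ¬ GoodPrime a b (p : ℕ) := ⟨hfin.toFinset, fun p => by
    rw [Set.Finite.mem_toFinset]; rfl⟩
  have hlog : ∀ x : ℝ, 1 ≤ x → Real.log (bsdStar a b x) =
      Real.log (bsdProduct a b x) + (soT a b ⌊x⌋₊ - soT a b ⌊√x⌋₊) := by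
    intro x hx
    unfold bsdStar
    rw [Real.log_mul (bsdProduct_pos _).ne' (Real.exp_pos _).ne', Real.log_exp, star_sum hx]
  refine ⟨fun x _ => bsdStar_pos x, ⟨fun u => Real.log (bsdProduct a b (Real.exp u)) +
    (soT a b ⌊Real.exp u⌋₊ - soT a b ⌊√(Real.exp u)⌋₊), ?_, fun u hu => ?_, fun U => ?_⟩, ?_⟩
  · have h1 : Measurable fun u : ℝ => soT a b ⌊Real.exp u⌋₊ :=
      (measurable_from_nat (f := soT a b)).comp (Nat.measurable_floor.comp Real.measurable_exp)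
    have h2 : Measurable fun u : ℝ => soT a b ⌊√(Real.exp u)⌋₊ :=
      (measurable_from_nat (f := soT a b)).comp (Nat.measurable_floor.comp
        (Real.continuous_sqrt.measurable.comp Real.measurable_exp))
    exact (Real.measurable_log.comp (bsd_meas.comp Real.measurable_exp)).add (h1.sub h2)
  · exact (hlog _ (Real.one_le_exp hu.le)).symm
  · obtain ⟨B, hB⟩ := floor_bdd (fun n : ℕ => Real.log (∏ p ∈ (Finset.range (n + 1)).filter
      (GoodPrime a b), (((pointCount a b p : ℝ) + 1) / p))) Real.exp Real.exp_monotone U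
    obtain ⟨B1, hB1⟩ := floor_bdd (soT a b) Real.exp Real.exp_monotone U
    obtain ⟨B2, hB2⟩ := floor_bdd (soT a b) (fun u => √(Real.exp u))
      (fun u v huv => Real.sqrt_le_sqrt (Real.exp_le_exp.mpr huv)) U
    refine ⟨B + (B1 + B2), fun u _ hu => ?_⟩
    exact (abs_add_le _ _).trans (add_le_add (hB u hu) ((abs_sub _ _).trans
      (add_le_add (hB1 u hu) (hB2 u hu))))
  · obtain ⟨C, hC⟩ := cmpQ hBs
    refine ⟨C, ?_⟩
    filter_upwards [eventually_gt_atTop 1] with x hx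
    have hl : 0 < Real.log x := Real.log_pos hx
    have h1 := hC (Real.log x) hl
    rw [Real.exp_log (by linarith)] at h1
    have h2 := star_TQ hBs hl
    rw [Real.exp_log (by linarith)] at h2
    have h3 : Real.log (bsdStar a b x) = Real.log (bsdProduct a b x) +
        ∑ p ∈ (Finset.range (⌊x⌋₊ + 1)).filter (fun p => GoodPrime a b p ∧ √x < p),
        (((p : ℝ) - pointCount a b p) ^ 2 - 2 * p) / (2 * (p : ℝ) ^ 2) := by
      unfold bsdStar
      rw [Real.log_mul (bsdProduct_pos _).ne' (Real.exp_pos _).ne', Real.log_exp]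
    rw [h3, h2, ← productMean_zero (by linarith)]
    refine le_trans (le_of_eq ?_) h1
    congr 1
    ring

end Pool.Agent.W263.MS
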