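import Pool.Agent.W263.LG.EQDefs

/-! Definitions: the second moment of the `a_p`. -/

set_option autoImplicit false

namespace Pool.Agent.W263.MS

open Pool.Agent.W263.BSD Pool.Agent.W263.MN

/-- `∑_{p ≤ x, p ∤ 2Δ} a_p² / p²`. -/
noncomputable def secondMoment (a b : ℤ) (x : ℝ) : ℝ :=
  ∑ᶠ p ∈ {p : ℕ | GoodPrime a b p ∧ (p : ℝ) ≤ x}, aP a b p ^ 2 / (p : ℝ) ^ 2

/-- The theorem of Rankin and Selberg: `∑_{p ≤ x, p ∤ 2Δ} a_p² / p² = log log x + B + O(1 / log x)` for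
some `B`. -/
def RankinSelberg (a b : ℤ) : Prop :=
  ∃ B K : ℝ, ∀ᶠ x : ℝ in Filter.atTop,
    |secondMoment a b x - Real.log (Real.log x) - B| ≤ K / Real.log x

end Pool.Agent.W263.MS
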