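import Pool.Agent.W263.MS.Hardy3

/-! The mean square is equivalent to the Hardy class condition: converse. -/

set_option autoImplicit false

namespace Pool.Agent.W263.MS

open MeasureTheory Filter Topology Set Classical
open Pool.Agent.W263.BSD Pool.Agent.W263.EP Pool.Agent.W263.MN Pool.Agent.W263.LG
open Pool.Agent.H341R2 (NormSys)
open scoped ENNReal

variable {S : NormSys} {bad : Set S.X} {tr : S.X → ℕ → ℝ} {ω : ℝ} {D : ℝ}
  {F Λ : ℂ → ℂ} {ρ L L' : ℝ} {n : ℤ}

/-- **From the mean square to the Hardy class.** -/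
theorem sq_hardy (E : TData S (tn S bad tr ω) D) (hF : IsFull S bad tr ω F)
    (hsq : ∫⁻ u in Ioi (0 : ℝ), ENNReal.ofReal (rem (ap S (tn S bad tr ω)) ρ L 0 u ^ 2) < ⊤) :
    HardyLog ((ω + 1) / 2) F := by
  have P := pair E
  set a := ap S (tn S bad tr ω) with ha
  have W0 : WSq (rem a ρ L 0) := wsq_of_sq hsq
  have I0 : ∀ w > 0, LInt (rem a ρ L 0) w := fun w hw => LInt_of_sq (rem_meas P.am 0) W0 hw
  have I1 : ∀ w > 0, LInt (rem a ρ L 1) w := fun w hw =>
    (LInt_congr fun u hu => rem_intU P.am P.al 0 hu).mp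
      (EP.lap_intU (rem_meas P.am 0) hw (I0 w hw)).1
  have hconv : ∀ w > 0, LInt (EP.ria a 1) w := fun w hw => (rem_LInt hw).mp (I1 w hw)
  set Lm : ℂ → ℂ := Lam S bad tr ω with hLm
  have hLd : ∀ w : ℂ, 0 < w.re → DifferentiableAt ℂ Lm w := fun w hw =>
    (Lam_deriv E hF hconv hw).differentiableAt
  have hLid : ∀ w : ℂ, 0 < w.re → Lm w = w * lapC (rem a ρ L 0) w + ρ * Complex.log w + L := by
    intro w hw
    have h1 := lapC_rem (ρ := ρ) (L := L) hconv hw
    have h2 := lapC_intU (rem_meas (ρ := ρ) (L := L) P.am 0) I0 hw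
    have h3 : lapC (EP.intU (rem a ρ L 0)) w = lapC (rem a ρ L 1) w :=
      lapC_congr' fun u hu => rem_intU P.am P.al 0 hu
    rw [h3] at h2
    rw [← h2]
    linear_combination -h1
  set c : ℂ := ((ω : ℂ) + 1) / 2 with hc
  have hre : ∀ z : ℂ, (z - c).re = z.re - (ω + 1) / 2 := by
    intro z
    rw [Complex.sub_re, hc, ← c_cast, Complex.ofReal_re]
  obtain ⟨C, hC0, hC⟩ := int_log
  set T : ℝ≥0∞ := ENNReal.ofReal (2 * Real.pi) *
    ∫⁻ u in Ioi (0 : ℝ), ENNReal.ofReal (rem a ρ L 0 u ^ 2) with hT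
  have hTf : T < ⊤ := ENNReal.mul_lt_top ENNReal.ofReal_lt_top hsq
  refine ⟨fun s => Lm (s - c), fun s hs => ⟨?_, ?_⟩, 3 * T.toReal + 3 * (-ρ) ^ 2 * C +
    3 * (-L) ^ 2 * Real.pi, fun σ hσ hσ1 => ?_⟩
  · exact DifferentiableAt.comp (g := Lm) (f := fun s => s - c) s (hLd _ (by rw [hre]; linarith))
      (by fun_prop)
  · have h1 := exp_Lam E hF hconv (w := s - c) (by rw [hre]; linarith)
    rw [← hc, add_sub_cancel] at h1
    exact h1
  · set τ : ℝ := σ - (ω + 1) / 2 with hτ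
    have hτ0 : 0 < τ := by rw [hτ]; linarith
    have hτ1 : τ ≤ 1 := by rw [hτ]; linarith
    have e : ∀ t : ℝ, (σ : ℂ) + t * Complex.I - c = (τ : ℂ) + t * Complex.I := by
      intro t
      rw [hτ, hc]
      push_cast
      ring
    simp only [e]
    -- the square integral of the transform
    set h : ℝ → ℝ := (Ioi (0 : ℝ)).indicator (rem a ρ L 0) with hh
    have hhm : Measurable h := (rem_meas P.am 0).indicator measurableSet_Ioi
    have hh0 : ∀ u, u ≤ 0 → h u = 0 := fun u hu => indicator_of_notMem (not_lt.mpr hu) _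
    have hhe : ∀ u, 0 < u → h u = rem a ρ L 0 u := fun u hu => indicator_of_mem hu _
    have hh2 : ∫⁻ u in Ioi (0 : ℝ), ENNReal.ofReal (h u ^ 2) =
        ∫⁻ u in Ioi (0 : ℝ), ENNReal.ofReal (rem a ρ L 0 u ^ 2) := by
      refine setLIntegral_congr_fun measurableSet_Ioi fun u hu => ?_
      simp only [hhe u hu]
    have hhl : ∀ w : ℂ, lapC h w = lapC (rem a ρ L 0) w := fun w => lapC_congr' hhe
    have hcont : Continuous fun y : ℝ => lapC h ((τ : ℂ) + y * Complex.I) := by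
      refine continuous_iff_continuousAt.mpr fun y => ?_
      have h1 : ContinuousAt (lapC (rem a ρ L 0)) ((τ : ℂ) + y * Complex.I) :=
        (lapC_differentiableAt (rem_meas P.am 0) I0 (by simpa using hτ0)).continuousAt
      have h2 : ContinuousAt (fun y : ℝ => lapC (rem a ρ L 0) ((τ : ℂ) + y * Complex.I)) y :=
        ContinuousAt.comp (f := fun y : ℝ => (τ : ℂ) + y * Complex.I) h1
          (by fun_prop : Continuous fun y : ℝ => (τ : ℂ) + y * Complex.I).continuousAt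
      simpa only [hhl] using h2
    have hpl := plancherel_line hhm hh0 (by rw [hh2]; exact hsq) hτ0 hcont
    rw [hh2, ← hT] at hpl
    simp only [hhl] at hpl
    refine comb_le (g := Lm) (Λ := fun w => w * lapC (rem a ρ L 0) w) (ρ := -ρ) (L := -L) hτ0
      (fun y => ?_) ENNReal.toReal_nonneg hC0 ?_ (hC τ hτ0 hτ1)
    · rw [hLid _ (by simpa using hτ0)]
      push_cast
      ring
    · rw [ENNReal.ofReal_toReal hTf.ne]
      refine le_trans (lintegral_mono fun y => ENNReal.ofReal_le_ofReal ?_) hpl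
      have h1 : ‖(τ : ℂ) + y * Complex.I‖ ^ 2 ≤ 1 + y ^ 2 := by
        rw [norm_sq_line]
        nlinarith
      rw [norm_mul, mul_pow, div_le_iff₀ (by positivity), mul_comm]
      exact mul_le_mul_of_nonneg_left h1 (sq_nonneg _)

/-- the remainder is square integrable near zero -/
theorem rem_sq_near {α : ℝ → ℝ} (hm : Measurable α) (hl : Loc α) {U : ℝ} (hU : 0 < U) :
    IntegrableOn (fun u => rem α ρ L 0 u ^ 2) (Ioc 0 U) := by
  obtain ⟨B, hB⟩ := hl U
  have h1 : IntegrableOn (fun u : ℝ => u ^ (-(1 / 2) : ℝ)) (Ioc 0 U) := by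
    have h2 := intervalIntegral.intervalIntegrable_rpow' (a := 0) (b := U) (r := -(1 / 2))
      (by norm_num)
    rwa [intervalIntegrable_iff_integrableOn_Ioc_of_le hU.le] at h2
  set κ : ℝ := 4 * (|B| + |ρ| * |Real.eulerMascheroniConstant| + |L| +
    |ρ| * (4 * (1 + U) ^ (1 / 4 : ℝ))) ^ 2 with hκ
  have h3 : IntegrableOn (fun u : ℝ => κ + 32 * ρ ^ 2 * u ^ (-(1 / 2) : ℝ)) (Ioc 0 U) :=
    ((continuousOn_const.integrableOn_compact isCompact_Icc).mono_set Ioc_subset_Icc_self).add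
      (h1.const_mul _)
  refine Integrable.mono' h3 ((rem_meas hm 0).pow_const 2).aestronglyMeasurable ?_
  refine (ae_restrict_iff' measurableSet_Ioc).mpr (Eventually.of_forall fun u hu => ?_)
  have hu0 : 0 < u := hu.1
  have e : rem α ρ L 0 u = -(α u) + ρ * (Real.log u + Real.eulerMascheroniConstant) - L := by
    unfold rem ml pk
    rw [harmonic_zero]
    show -(α u) + _ - _ = _
    push_cast
    simp
  set q : ℝ := u ^ (-(1 / 4) : ℝ) with hq
  have hq0 : 0 < q := Real.rpow_pos_of_pos hu0 _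
  have e2 : q ^ 2 = u ^ (-(1 / 2) : ℝ) := by
    rw [hq, ← Real.rpow_natCast, ← Real.rpow_mul hu0.le]
    norm_num
  have h4 : |Real.log u| ≤ 4 * (1 + U) ^ (1 / 4 : ℝ) + 4 * q := by
    have h5 : Real.log u ≤ 4 * (1 + U) ^ (1 / 4 : ℝ) :=
      (Real.log_le_log hu0 (by linarith [hu.2])).trans (log_le_qr (by linarith))
    have h6 : -(4 * q) ≤ Real.log u := by
      have h7 : Real.log u = -(4 * Real.log q) := by
        rw [hq, Real.log_rpow hu0]; ring
      have h8 : Real.log q ≤ q := (Real.log_le_sub_one_of_pos hq0).trans (by linarith)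
      linarith
    have h9 : 0 ≤ (1 + U) ^ (1 / 4 : ℝ) := by positivity
    rw [abs_le]
    constructor <;> linarith
  have h5 : |α u| ≤ |B| := (hB u hu0 hu.2).trans (le_abs_self B)
  rw [norm_pow, Real.norm_eq_abs, e]
  set X := |B| + |ρ| * |Real.eulerMascheroniConstant| + |L| + |ρ| * (4 * (1 + U) ^ (1 / 4 : ℝ))
    with hX
  have hX0 : 0 ≤ X := by positivity
  have h6 : |-(α u) + ρ * (Real.log u + Real.eulerMascheroniConstant) - L| ≤
      X + 4 * (|ρ| * q) := by
    calc |-(α u) + ρ * (Real.log u + Real.eulerMascheroniConstant) - L| ≤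
        |α u| + |ρ| * (|Real.log u| + |Real.eulerMascheroniConstant|) + |L| := by
          refine (abs_sub _ _).trans ?_
          gcongr
          refine (abs_add_le _ _).trans ?_
          rw [abs_neg, abs_mul]
          gcongr
          exact abs_add_le _ _
      _ ≤ |B| + |ρ| * ((4 * (1 + U) ^ (1 / 4 : ℝ) + 4 * q) + |Real.eulerMascheroniConstant|) +
          |L| := by gcongr
      _ = _ := by rw [hX]; ring
  have h7 : (|ρ| * q) ^ 2 = ρ ^ 2 * q ^ 2 := by rw [mul_pow, sq_abs]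
  calc |-(α u) + ρ * (Real.log u + Real.eulerMascheroniConstant) - L| ^ 2 ≤
      (X + 4 * (|ρ| * q)) ^ 2 := pow_le_pow_left₀ (abs_nonneg _) h6 2
    _ ≤ 4 * X ^ 2 + 32 * (|ρ| * q) ^ 2 := by nlinarith [sq_nonneg (X - 4 * (|ρ| * q))]
    _ = _ := by rw [h7, e2, hκ]; ring

/-- the mean determines everything, for a given continuation -/
theorem of_mean' (E : TData S (tn S bad tr ω) D)
    (hd : ∀ s : ℂ, (ω + 1) / 2 < s.re → DifferentiableAt ℂ F s)
    (he : ∀ s : ℂ, (ω + 2) / 2 < s.re → F s = LF S bad tr s)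
    (hL : CLim ((ω + 1) / 2) F ρ L) {ρ' : ℝ}
    (h : Tendsto (fun X : ℝ => (Real.log X)⁻¹ *
      ∫ x in Ioc 2 X, |MK S bad tr ω 0 x - mt ρ' L' 0 x| / x) atTop (𝓝 0)) :
    IsFull S bad tr ω F ∧ ρ = ρ' ∧ L = L' := by
  obtain ⟨G, hG, hGL⟩ := of_mean E h
  have hEq : ∀ s : ℂ, (ω + 1) / 2 < s.re → F s = G s := by
    have h2 : AnalyticOnNhd ℂ F {s : ℂ | (ω + 1) / 2 < s.re} :=
      DifferentiableOn.analyticOnNhd (fun s hs => (hd s hs).differentiableWithinAt) (isOpen_half _)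
    have h3 : AnalyticOnNhd ℂ G {s : ℂ | (ω + 1) / 2 < s.re} := hG.1.analyticOnNhd (isOpen_half _)
    have h4 := h2.eqOn_of_preconnected_of_eventuallyEq h3 (preconn_half _)
      (show (((ω + 2) / 2 + 1 : ℝ) : ℂ) ∈ {s : ℂ | (ω + 1) / 2 < s.re} by
        show (ω + 1) / 2 < (((ω + 2) / 2 + 1 : ℝ) : ℂ).re
        rw [Complex.ofReal_re]; linarith) (by
        filter_upwards [(isOpen_half ((ω + 2) / 2)).mem_nhds
          (show (ω + 2) / 2 < (((ω + 2) / 2 + 1 : ℝ) : ℂ).re by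
            rw [Complex.ofReal_re]; linarith)] with z hz
        rw [he z hz, hG.2.2 z hz])
    exact fun s hs => h4 hs
  have h5 : CLim ((ω + 1) / 2) F ρ' L' := by
    unfold CLim at hGL ⊢
    refine hGL.congr' ?_
    filter_upwards [self_mem_nhdsWithin] with s hs
    have hs' : (ω + 1) / 2 < s := hs
    rw [hEq s (by simpa using hs')]
  obtain ⟨h6, h7⟩ := clim_unique hL h5
  exact ⟨⟨fun s hs => (hd s hs).differentiableWithinAt,
    fun s hs => by rw [hEq s hs]; exact hG.2.1 s hs, he⟩, h6, h7⟩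

/-- **The mean square criterion, unconditional form.** -/
theorem sq_iff_hardy (E : TData S (tn S bad tr ω) D)
    (hd : ∀ s : ℂ, (ω + 1) / 2 < s.re → DifferentiableAt ℂ F s)
    (he : ∀ s : ℂ, (ω + 2) / 2 < s.re → F s = LF S bad tr s)
    (hm : MeromorphicAt F (((ω + 1) / 2 : ℝ) : ℂ))
    (hn : meromorphicOrderAt F (((ω + 1) / 2 : ℝ) : ℂ) = n) (hL : CLim ((ω + 1) / 2) F n L)
    (ρ L' : ℝ) :
    IntegrableOn (fun x => (MK S bad tr ω 0 x - mt ρ L' 0 x) ^ 2 / x) (Ioi 2) ↔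
      HardyLog ((ω + 1) / 2) F ∧ (n : ℝ) = ρ ∧ L = L' := by
  have P := pair E
  have hl2 : 0 < Real.log 2 := Real.log_pos (by norm_num)
  rw [sq_iff]
  constructor
  · intro h
    have h1 := mean_of_sq (φ := rem (ap S (tn S bad tr ω)) ρ L' 0)
      (fun U => (rem_int P.am P.al 0 U).mono_set (Ioc_subset_Ioc_left hl2.le)) h
    have h2 : Tendsto (fun X : ℝ => (Real.log X)⁻¹ *
        ∫ x in Ioc 2 X, |MK S bad tr ω 0 x - mt ρ L' 0 x| / x) atTop (𝓝 0) := by
      refine (h1.comp Real.tendsto_log_atTop).congr' ?_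
      filter_upwards [eventually_ge_atTop 2] with X hX
      simp only [Function.comp]
      rw [mean_eq hX]
    obtain ⟨h3, h4, h5⟩ := of_mean' E hd he hL h2
    refine ⟨sq_hardy (ρ := ρ) (L := L') E h3 ?_, h4, h5⟩
    have h6 : IntegrableOn (fun u => rem (ap S (tn S bad tr ω)) ρ L' 0 u ^ 2) (Ioi 0) := by
      rw [← Ioc_union_Ioi_eq_Ioi hl2.le]
      exact (rem_sq_near P.am P.al hl2).union h
    have h7 := h6.2
    rw [hasFiniteIntegral_iff_ofReal (Eventually.of_forall fun u => sq_nonneg _)] at h7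
    exact h7
  · rintro ⟨h1, h2, h3⟩
    rw [← h2, ← h3]
    have h4 := hardy_sq E he hm hn hL h1
    have h5 : IntegrableOn (fun u => rem (ap S (tn S bad tr ω)) n L 0 u ^ 2) (Ioi 0) := by
      refine ⟨((rem_meas P.am 0).pow_const 2).aestronglyMeasurable, ?_⟩
      rw [hasFiniteIntegral_iff_ofReal (Eventually.of_forall fun u => sq_nonneg _)]
      exact h4
    exact h5.mono_set (Ioi_subset_Ioi hl2.le)

end Pool.Agent.W263.MS
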