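import Pool.Agent.W263.MS.EQConv
import Pool.Agent.W263.MS.Hardy4

/-! The final theorems for elliptic curves. -/

set_option autoImplicit false

namespace Pool.Agent.W263.MS

open MeasureTheory Filter Topology Set Classical
open Pool.Agent.W263.BSD Pool.Agent.W263.EP Pool.Agent.W263.MN Pool.Agent.W263.LG
open Pool.Agent.H341R2 (NormSys)

variable {a b : ℤ} {F : ℂ → ℂ} {Q : ℝ → ℝ} {κ : ℝ}

/-- **Conversion.** -/
theorem qconv {Bs : Finset Nat.Primes} (hBs : ∀ p : Nat.Primes, p ∈ Bs ↔ ¬ GoodPrime a b (p : ℕ))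
    (hQ : QData a b Q κ) (ρ : ℝ) {A : ℝ} (hA0 : 0 < A) :
    (IntegrableOn (fun x => (MK sysQ (Bs : Set Nat.Primes) (abTr (AA a b)) 1 0 x -
      mt ρ (κ - Real.log A + ρ * Real.eulerMascheroniConstant) 0 x) ^ 2 / x) (Ioi 2) ↔
      InL2 Q ρ A) ∧
    (Tendsto (fun X : ℝ => (Real.log X)⁻¹ * ∫ x in Ioc 2 X,
      |MK sysQ (Bs : Set Nat.Primes) (abTr (AA a b)) 1 0 x -
      mt ρ (κ - Real.log A + ρ * Real.eulerMascheroniConstant) 0 x| / x) atTop (𝓝 0) ↔
      InMean Q ρ A) ∧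
    ∀ E' : Set ℝ, Tendsto (fun x => MK sysQ (Bs : Set Nat.Primes) (abTr (AA a b)) 1 0 x -
      mt ρ (κ - Real.log A + ρ * Real.eulerMascheroniConstant) 0 x) (offE E') (𝓝 0) ↔
      Tendsto (fun x : ℝ => Q x / (Real.log x) ^ ρ) (offE E') (𝓝 A) := by
  have E := eq_tdata hBs
  have P := pair E
  obtain ⟨hpos, ⟨q, hqm, hqe, hqb⟩, C, hC⟩ := hQ
  set L' : ℝ := κ - Real.log A + ρ * Real.eulerMascheroniConstant with hL'
  set φ : ℝ → ℝ := rem (ap sysQ (tn sysQ (Bs : Set Nat.Primes) (abTr (AA a b)) 1)) ρ L' 0 with hφ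
  set γ : ℝ → ℝ := fun u => q u - Real.log A - ρ * Real.log u with hγ
  have hl2 : 0 < Real.log 2 := Real.log_pos (by norm_num)
  have hfφ : ∀ x : ℝ, 1 < x → MK sysQ (Bs : Set Nat.Primes) (abTr (AA a b)) 1 0 x - mt ρ L' 0 x =
      φ (Real.log x) := fun x hx => (rem_zero_eq hx).symm
  have hfγ : ∀ x : ℝ, 1 < x → Real.log (Q x / (A * (Real.log x) ^ ρ)) = γ (Real.log x) := by
    intro x hx
    have hlx : 0 < Real.log x := Real.log_pos hx
    have hQx := hpos x hx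
    rw [hγ]
    simp only []
    rw [hqe _ hlx, Real.exp_log (by linarith), Real.log_div hQx.ne' (by positivity),
      Real.log_mul hA0.ne' (by positivity), Real.log_rpow hlx]
    ring
  have hγm : Measurable γ := (hqm.sub_const _).sub (Real.measurable_log.const_mul ρ)
  have hγb : ∀ U, ∃ B, ∀ u, Real.log 2 < u → u ≤ U → |γ u| ≤ B := by
    intro U
    obtain ⟨B, hB⟩ := hqb U
    refine ⟨B + |Real.log A| + |ρ| * (|Real.log (Real.log 2)| + |Real.log U|), fun u h1 h2 => ?_⟩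
    have hu : 0 < u := hl2.trans h1
    have h4 : |Real.log u| ≤ |Real.log (Real.log 2)| + |Real.log U| := by
      have h5 := Real.log_le_log hl2 h1.le
      have h6 := Real.log_le_log hu h2
      rw [abs_le]
      constructor
      · have := neg_abs_le (Real.log (Real.log 2))
        have := abs_nonneg (Real.log U)
        linarith
      · have := le_abs_self (Real.log U)
        have := abs_nonneg (Real.log (Real.log 2))
        linarith
    calc |q u - Real.log A - ρ * Real.log u| ≤ |q u| + |Real.log A| + |ρ| * |Real.log u| := by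
          rw [← abs_mul]
          refine (abs_sub _ _).trans ?_
          gcongr
          exact abs_sub _ _
      _ ≤ _ := by
          have := hB u hu h2
          gcongr
  have herr : ∀ᶠ u : ℝ in atTop, |φ u + γ u| ≤ C / u := by
    filter_upwards [ev_exp hC, eventually_gt_atTop 0] with u h1 hu
    rw [Real.log_exp] at h1
    have h2 := hfφ (Real.exp u) (Real.one_lt_exp_iff.mpr hu)
    rw [Real.log_exp, MK_EQ hBs] at h2
    have h4 : mt ρ L' 0 (Real.exp u) = L' - ρ * (Real.log u + Real.eulerMascheroniConstant) := by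
      unfold LG.mt
      rw [Real.log_exp, harmonic_zero]
      push_cast
      ring
    rw [← h2, hγ]
    simp only []
    rw [hqe u hu, h4, hL']
    refine le_trans (le_of_eq ?_) h1
    congr 1
    ring
  obtain ⟨t1, t2, t3⟩ := transfer (rem_meas P.am 0) hγm hl2 (rem_bdd P.al hl2) hγb herr
  refine ⟨(sq_log_iff hfφ).trans (t1.trans (sq_log_iff hfγ).symm),
    (mean_log_iff hfφ).trans (t2.trans (mean_log_iff hfγ).symm), fun E' => ?_⟩
  have hle := offE_le E'
  have hlog : map Real.log (offE E') ≤ atTop := (Real.tendsto_log_atTop.mono_left hle)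
  have h1 : Tendsto (fun x => MK sysQ (Bs : Set Nat.Primes) (abTr (AA a b)) 1 0 x -
      mt ρ L' 0 x) (offE E') (𝓝 0) ↔ Tendsto (fun x => φ (Real.log x)) (offE E') (𝓝 0) := by
    refine tendsto_congr' (Filter.Eventually.filter_mono hle ?_)
    filter_upwards [eventually_gt_atTop 1] with x hx using hfφ x hx
  have h2 : Tendsto (fun x => Real.log (Q x / (A * (Real.log x) ^ ρ))) (offE E')
      (𝓝 0) ↔ Tendsto (fun x => γ (Real.log x)) (offE E') (𝓝 0) := by
    refine tendsto_congr' (Filter.Eventually.filter_mono hle ?_)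
    filter_upwards [eventually_gt_atTop 1] with x hx using hfγ x hx
  have h3 := t3 (map Real.log (offE E')) hlog
  rw [tendsto_map'_iff, tendsto_map'_iff] at h3
  rw [h1]
  refine (h3.trans h2.symm).trans ?_
  constructor
  · intro h
    have h4 := (Real.continuous_exp.tendsto 0).comp h
    rw [Real.exp_zero] at h4
    have h5 := h4.const_mul A
    rw [mul_one] at h5
    refine h5.congr' (Filter.Eventually.filter_mono hle ?_)
    filter_upwards [eventually_gt_atTop 1] with x hx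
    have hlx : 0 < Real.log x := Real.log_pos hx
    have hp := hpos x hx
    simp only [Function.comp]
    rw [Real.exp_log (by positivity)]
    field_simp
  · intro h
    have h4 := (h.div_const A)
    rw [div_self hA0.ne'] at h4
    have h5 := h4.log one_ne_zero
    rw [Real.log_one] at h5
    refine h5.congr fun x => ?_
    rw [div_div, mul_comm A]

theorem const_iff {c A : ℝ} (hc : 0 < c) (hA0 : 0 < A) (κ ρ : ℝ) :
    Real.log c = κ - Real.log A + ρ * Real.eulerMascheroniConstant ↔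
      A = Real.exp κ * Real.exp (ρ * Real.eulerMascheroniConstant) / c := by
  have h1 : Real.log (Real.exp κ * Real.exp (ρ * Real.eulerMascheroniConstant) / c) =
      κ + ρ * Real.eulerMascheroniConstant - Real.log c := by
    rw [Real.log_div (by positivity) hc.ne', Real.log_mul (Real.exp_pos _).ne' (Real.exp_pos _).ne',
      Real.log_exp, Real.log_exp]
  constructor
  · intro h
    have h2 : Real.log A = Real.log (Real.exp κ * Real.exp (ρ * Real.eulerMascheroniConstant) / c) := by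
      rw [h1, h]; ring
    exact Real.log_injOn_pos (mem_Ioi.mpr hA0) (mem_Ioi.mpr (by positivity)) h2
  · intro h
    rw [h, h1]
    ring

/-- **The unconditional theorem.** -/
theorem eq_hardy (hΔ : 4 * a ^ 3 + 27 * b ^ 2 ≠ 0) (hF : IsLSeries a b F) {r : ℕ}
    (hr : analyticOrderAt F 1 = r) (hQ : QData a b Q κ) (ρ : ℝ) {A : ℝ} (hA0 : 0 < A) :
    (InL2 Q ρ A ↔ HardyLog 1 F ∧ (r : ℝ) = ρ ∧
      A = Real.exp κ * Real.exp (ρ * Real.eulerMascheroniConstant) / leadAbs F r) ∧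
    (InMean Q ρ A → (∀ s : ℂ, 1 < s.re → F s ≠ 0) ∧ (r : ℝ) = ρ ∧
      A = Real.exp κ * Real.exp (ρ * Real.eulerMascheroniConstant) / leadAbs F r) := by
  have hfin := bad_finite hΔ
  obtain ⟨Bs, hBs⟩ : ∃ Bs : Finset Nat.Primes, ∀ p : Nat.Primes,
      p ∈ Bs ↔ ¬ GoodPrime a b (p : ℕ) := ⟨hfin.toFinset, fun p => by
    rw [Set.Finite.mem_toFinset]; rfl⟩
  have E := eq_tdata hBs
  have e1 : ((1 : ℝ) + 1) / 2 = 1 := by norm_num
  have e2 : ((1 : ℝ) + 2) / 2 = 3 / 2 := by norm_num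
  have ec : ((((1 : ℝ) + 1) / 2 : ℝ) : ℂ) = 1 := by rw [e1, Complex.ofReal_one]
  have he : ∀ s : ℂ, ((1 : ℝ) + 2) / 2 < s.re → F s = Pool.Agent.W263.EP.LF
      Pool.Agent.W263.EP.sysQ (Bs : Set Nat.Primes) (Pool.Agent.W263.EP.abTr (AA a b)) s := by
    intro s hs
    rw [e2] at hs
    rw [LFB_EQ hBs hF hs]
    exact LFB_one (S := Pool.Agent.W263.EP.sysQ) (Bs := Bs) s
  have hA : AnalyticAt ℂ F ((((1 : ℝ) + 1) / 2 : ℝ) : ℂ) := hF.1.analyticAt _
  have hA1 : AnalyticAt ℂ F ((1 : ℝ) : ℂ) := hF.1.analyticAt _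
  have hn : meromorphicOrderAt F ((((1 : ℝ) + 1) / 2 : ℝ) : ℂ) = ((r : ℤ) : WithTop ℤ) := by
    rw [hA.meromorphicOrderAt_eq, ec, hr]; rfl
  obtain ⟨hpos, hlead⟩ := lead_limit_at hA1 (r := r) (by rw [Complex.ofReal_one]; exact hr)
  rw [Complex.ofReal_one] at hpos hlead
  have hLA : 0 < leadAbs F r := hpos
  have hL : CLim (((1 : ℝ) + 1) / 2) F ((r : ℤ) : ℝ) (Real.log (leadAbs F r)) := by
    refine clim_of_lead hLA ?_
    rw [e1]
    refine hlead.congr fun s => ?_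
    rw [Int.cast_natCast, Real.rpow_natCast]
  obtain ⟨q1, q2, _⟩ := qconv hBs hQ ρ hA0
  have k1 := sq_iff_hardy E (fun s _ => hF.1 s) he hA.meromorphicAt hn hL ρ
    (κ - Real.log A + ρ * Real.eulerMascheroniConstant)
  rw [Int.cast_natCast, e1, const_iff hLA hA0] at k1
  refine ⟨q1.symm.trans k1, fun h => ?_⟩
  obtain ⟨h1, h2, h3⟩ := of_mean' E (fun s _ => hF.1 s) he hL (q2.mpr h)
  rw [Int.cast_natCast] at h2
  exact ⟨fun s hs => h1.2.1 s (by rw [e1]; exact hs), h2, (const_iff hLA hA0 κ ρ).mp h3⟩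

/-- **The theorem for functions of polynomial growth.** -/
theorem eq_growth (hΔ : 4 * a ^ 3 + 27 * b ^ 2 ≠ 0) (hF : IsLSeries a b F) {r : ℕ}
    (hr : analyticOrderAt F 1 = r)
    (hg : ∃ (C : ℝ) (A : ℕ), ∀ s : ℂ, 0 < s.re → ‖F s‖ ≤ C * (1 + ‖s‖) ^ A)
    (hQ : QData a b Q κ) (ρ : ℝ) {A : ℝ} (hA0 : 0 < A) :
    List.TFAE [
      (∀ s : ℂ, 1 < s.re → F s ≠ 0) ∧ (r : ℝ) = ρ ∧
        A = Real.exp κ * Real.exp (ρ * Real.eulerMascheroniConstant) / leadAbs F r,
      InL2 Q ρ A,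
      InMean Q ρ A,
      (∃ k : ℕ, ∀ ε : ℝ, 0 < ε → ∀ᶠ x : ℝ in atTop, productMean a b k x ≤ x ^ ε) ∧
        OffFinLog Q ρ A] := by
  have hfin := bad_finite hΔ
  obtain ⟨Bs, hBs⟩ : ∃ Bs : Finset Nat.Primes, ∀ p : Nat.Primes,
      p ∈ Bs ↔ ¬ GoodPrime a b (p : ℕ) := ⟨hfin.toFinset, fun p => by
    rw [Set.Finite.mem_toFinset]; rfl⟩
  have E := eq_tdata hBs
  have e1 : ((1 : ℝ) + 1) / 2 = 1 := by norm_num
  have e2 : ((1 : ℝ) + 2) / 2 = 3 / 2 := by norm_num
  have ec : ((((1 : ℝ) + 1) / 2 : ℝ) : ℂ) = 1 := by rw [e1, Complex.ofReal_one]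
  have he : ∀ s : ℂ, ((1 : ℝ) + 2) / 2 < s.re → F s = Pool.Agent.W263.EP.LF
      Pool.Agent.W263.EP.sysQ (Bs : Set Nat.Primes) (Pool.Agent.W263.EP.abTr (AA a b)) s := by
    intro s hs
    rw [e2] at hs
    rw [LFB_EQ hBs hF hs]
    exact LFB_one (S := Pool.Agent.W263.EP.sysQ) (Bs := Bs) s
  have hA : AnalyticAt ℂ F ((((1 : ℝ) + 1) / 2 : ℝ) : ℂ) := hF.1.analyticAt _
  have hA1 : AnalyticAt ℂ F ((1 : ℝ) : ℂ) := hF.1.analyticAt _
  have hn : meromorphicOrderAt F ((((1 : ℝ) + 1) / 2 : ℝ) : ℂ) = ((r : ℤ) : WithTop ℤ) := by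
    rw [hA.meromorphicOrderAt_eq, ec, hr]; rfl
  obtain ⟨hpos, hlead⟩ := lead_limit_at hA1 (r := r) (by rw [Complex.ofReal_one]; exact hr)
  rw [Complex.ofReal_one] at hpos hlead
  have hLA : 0 < leadAbs F r := hpos
  have hL : CLim (((1 : ℝ) + 1) / 2) F ((r : ℤ) : ℝ) (Real.log (leadAbs F r)) := by
    refine clim_of_lead hLA ?_
    rw [e1]
    refine hlead.congr fun s => ?_
    rw [Int.cast_natCast, Real.rpow_natCast]
  obtain ⟨q1, q2, q3⟩ := qconv hBs hQ ρ hA0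
  have key := ms_tfae_exc E (fun s _ => hF.1 s) he hn hL
    (by obtain ⟨C, A, hC⟩ := hg; exact ⟨C, A, fun s hs => hC s (by rw [e1] at hs; linarith)⟩) ρ
    (κ - Real.log A + ρ * Real.eulerMascheroniConstant)
  rw [e1, Int.cast_natCast, const_iff hLA hA0] at key
  have k12 := key.out 0 1
  have k13 := key.out 0 2
  have k14 := key.out 0 3
  have hsub := (eq_first hΔ hF hr (by
    obtain ⟨C, A, hC⟩ := hg; exact ⟨C, A, fun s hs => hC s (by linarith)⟩) 0).2.2
  have hgr := (growth_means E (fun s _ => hF.1 s) he hA.meromorphicAt hn hL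
    (by obtain ⟨C, A, hC⟩ := hg; exact ⟨C, A, fun s hs => hC s (by rw [e1] at hs; linarith)⟩)).out 0 1
  rw [e1] at hgr
  tfae_have 1 ↔ 2 := k12.trans q1
  tfae_have 1 ↔ 3 := k13.trans q2
  tfae_have 1 ↔ 4 := k14.trans (and_congr (hgr.symm.trans hsub)
    (exists_congr fun E' => and_congr_right fun _ => q3 E'))
  tfae_finish

/-- **The Riemann hypothesis and the Hardy class.** -/
theorem hardy_iff_rh (hΔ : 4 * a ^ 3 + 27 * b ^ 2 ≠ 0) (hF : IsLSeries a b F)
    (hg : ∃ (C : ℝ) (A : ℕ), ∀ s : ℂ, 0 < s.re → ‖F s‖ ≤ C * (1 + ‖s‖) ^ A) :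
    HardyLog 1 F ↔ ∀ s : ℂ, 1 < s.re → F s ≠ 0 := by
  obtain ⟨r, hr⟩ := order_finite hF
  obtain ⟨hpos, _⟩ := lead_limit hF.1 hr
  have hQ := qdata_star hΔ
  set A0 : ℝ := Real.exp 0 * Real.exp ((r : ℝ) * Real.eulerMascheroniConstant) / leadAbs F r with hA0
  have hA00 : 0 < A0 := by rw [hA0]; positivity
  have h1 := (eq_hardy hΔ hF hr hQ (r : ℝ) hA00).1
  have h2 := (eq_growth hΔ hF hr hg hQ (r : ℝ) hA00).out 0 1
  constructor
  · intro h
    exact (h2.mpr (h1.mpr ⟨h, rfl, rfl⟩)).1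
  · intro h
    exact (h1.mp (h2.mp ⟨h, rfl, rfl⟩)).1

end Pool.Agent.W263.MS
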