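import Pool.Agent.W263.MS.Exc
import Pool.Agent.W263.LG.Place

/-! Subexponential one-sided bounds imply the Riemann hypothesis. -/

set_option autoImplicit false

namespace Pool.Agent.W263.MS

open MeasureTheory Filter Topology Set Classical
open Pool.Agent.W263.BSD Pool.Agent.W263.EP Pool.Agent.W263.MN Pool.Agent.W263.LG
open Pool.Agent.H341R2 (NormSys)

variable {S : NormSys} {Bs : Finset S.X} {bad : Set S.X} {tr : S.X → ℕ → ℝ} {ω : ℝ} {D : ℝ}
  {F G : ℂ → ℂ} {ρ L L' : ℝ} {n : ℤ}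

theorem pk_mul_exp_le (k : ℕ) (C : ℝ) {ε : ℝ} (hε : 0 < ε) :
    ∀ᶠ u : ℝ in atTop, pk k u * (Real.exp (ε / 2 * u) + C) ≤ Real.exp (ε * u) := by
  have h1 := (isLittleO_pow_exp_pos_mul_atTop (b := ε / 4) k (by positivity)).bound one_pos
  have h2 : Tendsto (fun u : ℝ => Real.exp (ε / 4 * u)) atTop atTop :=
    Real.tendsto_exp_atTop.comp (tendsto_id.const_mul_atTop (by positivity))
  filter_upwards [h1, h2.eventually (eventually_ge_atTop (1 + |C|)), eventually_ge_atTop 0]
    with u h3 h4 hu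
  rw [Real.norm_eq_abs, Real.norm_eq_abs, abs_of_nonneg (pow_nonneg hu k),
    abs_of_pos (Real.exp_pos _), one_mul] at h3
  have h5 : pk k u ≤ Real.exp (ε / 4 * u) := (pk_le_pow k hu).trans h3
  have h6 : Real.exp (ε / 2 * u) + C ≤ Real.exp (ε / 2 * u) * Real.exp (ε / 4 * u) := by
    have h7 : 1 ≤ Real.exp (ε / 2 * u) := Real.one_le_exp (by positivity)
    have h8 := le_abs_self C
    have h9 := abs_nonneg C
    nlinarith
  have h7 : 0 ≤ Real.exp (ε / 2 * u) * Real.exp (ε / 4 * u) := by positivity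
  calc pk k u * (Real.exp (ε / 2 * u) + C) ≤
      pk k u * (Real.exp (ε / 2 * u) * Real.exp (ε / 4 * u)) :=
        mul_le_mul_of_nonneg_left h6 (pk_nonneg k hu)
    _ ≤ Real.exp (ε / 4 * u) * (Real.exp (ε / 2 * u) * Real.exp (ε / 4 * u)) :=
        mul_le_mul_of_nonneg_right h5 h7
    _ = _ := by
        rw [← Real.exp_add, ← Real.exp_add]
        congr 1
        ring

/-- a one-sided subexponential bound for one of the means -/
theorem full_of_subexp (E : TData S (tn S bad tr ω) D) (hF : IsCont S bad tr ω F) {k : ℕ}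
    (h : ∀ ε : ℝ, 0 < ε → ∀ᶠ x : ℝ in atTop, RK S bad tr ω k x ≤ x ^ ε) :
    ∃ G : ℂ → ℂ, IsFull S bad tr ω G := by
  obtain ⟨C, hC⟩ := RK_MK E k
  refine ⟨_, FCz_isFull E k (((dataP E hF).ria k).conv_of_upper fun ε hε => ?_)⟩
  filter_upwards [ev_exp (h (ε / 2) (by positivity)), ev_exp hC, pk_mul_exp_le k C hε,
    eventually_gt_atTop 0] with u h1 h2 h3 hu
  rw [ria_MK k hu]
  refine le_trans ?_ h3
  have e1 : Real.exp u ^ (ε / 2) = Real.exp (ε / 2 * u) := by
    rw [← Real.exp_mul, mul_comm]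
  rw [e1] at h1
  have h4 := (abs_le.mp h2).1
  have h5 : -MK S bad tr ω k (Real.exp u) ≤ Real.exp (ε / 2 * u) + C := by linarith
  have := mul_le_mul_of_nonneg_left h5 (pk_nonneg k hu.le)
  linarith

/-- **The Riemann hypothesis and one-sided subexponential bounds.** -/
theorem rh_of_subexp (E : TData S (tn S (Bs : Set S.X) tr ω) D)
    (hd : ∀ s : ℂ, (ω + 1) / 2 < s.re → DifferentiableAt ℂ F s)
    (he : ∀ s : ℂ, (ω + 2) / 2 < s.re → F s = LF S (Bs : Set S.X) tr s) {k : ℕ}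
    (h : ∀ ε : ℝ, 0 < ε → ∀ᶠ x : ℝ in atTop, RK S (Bs : Set S.X) tr ω k x ≤ x ^ ε) :
    ∀ s : ℂ, (ω + 1) / 2 < s.re → F s ≠ 0 := by
  have hc : IsCont S (Bs : Set S.X) tr ω F := by
    refine ⟨fun s hs => ?_, fun s hs => he s (by simpa using hs)⟩
    refine Complex.analyticAt_iff_eventually_differentiableAt.mpr ?_
    filter_upwards [(isOpen_half ((ω + 1) / 2)).mem_nhds
      (show (ω + 1) / 2 < (s : ℂ).re by simpa using hs)] with z hz using hd z hz
  obtain ⟨G, hG⟩ := full_of_subexp E hc h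
  intro s hs
  have h2 : AnalyticOnNhd ℂ F {s : ℂ | (ω + 1) / 2 < s.re} :=
    DifferentiableOn.analyticOnNhd (fun s hs => (hd s hs).differentiableWithinAt) (isOpen_half _)
  have h3 : AnalyticOnNhd ℂ G {s : ℂ | (ω + 1) / 2 < s.re} := hG.1.analyticOnNhd (isOpen_half _)
  have h4 := h2.eqOn_of_preconnected_of_eventuallyEq h3 (preconn_half _)
    (show (((ω + 2) / 2 + 1 : ℝ) : ℂ) ∈ {s : ℂ | (ω + 1) / 2 < s.re} by
      show (ω + 1) / 2 < (((ω + 2) / 2 + 1 : ℝ) : ℂ).re
      rw [Complex.ofReal_re]; linarith) (by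
      filter_upwards [(isOpen_half ((ω + 2) / 2)).mem_nhds
        (show (ω + 2) / 2 < (((ω + 2) / 2 + 1 : ℝ) : ℂ).re by
          rw [Complex.ofReal_re]; linarith)] with z hz
      rw [he z hz, hG.2.2 z hz])
  rw [h4 hs]
  exact hG.2.1 s hs

/-- `K log log x` is smaller than every power -/
theorem loglog_le_rpow (K : ℝ) {ε : ℝ} (hε : 0 < ε) :
    ∀ᶠ x : ℝ in atTop, K * Real.log (Real.log x) ≤ x ^ ε := by
  have h1 := (isLittleO_log_rpow_atTop hε).bound (show (0 : ℝ) < 1 / (|K| + 1) by positivity)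
  filter_upwards [h1, eventually_gt_atTop (Real.exp 1)] with x h2 hx
  have hx0 : 0 < x := (Real.exp_pos 1).trans hx
  have hl1 : 1 ≤ Real.log x := by
    rw [Real.le_log_iff_exp_le hx0]
    exact hx.le
  rw [Real.norm_eq_abs, Real.norm_eq_abs, abs_of_pos (show 0 < Real.log x by linarith),
    abs_of_pos (Real.rpow_pos_of_pos hx0 ε)] at h2
  have h3 : Real.log (Real.log x) ≤ Real.log x :=
    (Real.log_le_sub_one_of_pos (by linarith)).trans (by linarith)
  have h4 : 0 ≤ Real.log (Real.log x) := Real.log_nonneg hl1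
  have h5 : 0 < x ^ ε := Real.rpow_pos_of_pos hx0 ε
  calc K * Real.log (Real.log x) ≤ |K| * Real.log x := by
        have := le_abs_self K
        have := abs_nonneg K
        nlinarith
    _ ≤ |K| * (1 / (|K| + 1) * x ^ ε) := by gcongr
    _ ≤ 1 * x ^ ε := by
        rw [← mul_assoc]
        refine mul_le_mul_of_nonneg_right ?_ h5.le
        rw [mul_one_div, div_le_one (by positivity)]
        linarith
    _ = _ := one_mul _

end Pool.Agent.W263.MS
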