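import Pool.Agent.W263.MS.Transfer
import Pool.Agent.W263.MS.EQ
import Pool.Agent.W263.LG.Conv
import Pool.Agent.W263.MS.Sub

/-! The mean square criterion for elliptic curves over `ℚ`. -/

set_option autoImplicit false

namespace Pool.Agent.W263.MS

open MeasureTheory Filter Topology Set Classical
open Pool.Agent.W263.BSD Pool.Agent.W263.EP Pool.Agent.W263.MN Pool.Agent.W263.LG
open Pool.Agent.H341R2 (NormSys)

variable {a b : ℤ} {F : ℂ → ℂ}

/-- the logarithm of the normalised product, in the variable `u = log x` -/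
noncomputable def lgP (a b : ℤ) (ρ A : ℝ) (u : ℝ) : ℝ :=
  Real.log (bsdProduct a b (Real.exp u) / (A * u ^ ρ))

theorem bsd_meas : Measurable (bsdProduct a b) := by
  have h : bsdProduct a b = (fun n : ℕ => ∏ p ∈ (Finset.range (n + 1)).filter (GoodPrime a b),
      (((pointCount a b p : ℝ) + 1) / p)) ∘ fun x : ℝ => ⌊x⌋₊ := rfl
  rw [h]
  exact measurable_from_nat.comp Nat.measurable_floor

theorem lgP_meas (ρ A : ℝ) : Measurable (lgP a b ρ A) := by
  unfold lgP
  exact Real.measurable_log.comp ((bsd_meas.comp Real.measurable_exp).div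
    ((measurable_id.pow_const ρ).const_mul A))

theorem lgP_eq {ρ A u : ℝ} (hA : 0 < A) (hu : 0 < u) :
    lgP a b ρ A u = Real.log (bsdProduct a b (Real.exp u)) - Real.log A - ρ * Real.log u := by
  unfold lgP
  rw [Real.log_div (bsdProduct_pos _).ne' (by positivity), Real.log_mul hA.ne' (by positivity),
    Real.log_rpow hu]
  ring

theorem lgP_bdd {ρ A : ℝ} (hA : 0 < A) {c : ℝ} (hc : 0 < c) (U : ℝ) :
    ∃ B, ∀ u, c < u → u ≤ U → |lgP a b ρ A u| ≤ B := by
  set h : ℕ → ℝ := fun n : ℕ => Real.log (∏ p ∈ (Finset.range (n + 1)).filter (GoodPrime a b),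
      (((pointCount a b p : ℝ) + 1) / p)) with hh
  refine ⟨∑ n ∈ Finset.range (⌊Real.exp U⌋₊ + 1), |h n| + |Real.log A| +
    |ρ| * (|Real.log c| + |Real.log U|), fun u h1 h2 => ?_⟩
  have hu : 0 < u := hc.trans h1
  rw [lgP_eq hA hu]
  have h3 : |Real.log (bsdProduct a b (Real.exp u))| ≤
      ∑ n ∈ Finset.range (⌊Real.exp U⌋₊ + 1), |h n| := by
    have e : Real.log (bsdProduct a b (Real.exp u)) = h ⌊Real.exp u⌋₊ := rfl
    rw [e]
    refine Finset.single_le_sum (f := fun n => |h n|) (fun n _ => abs_nonneg _) ?_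
    rw [Finset.mem_range]
    have := Nat.floor_le_floor (Real.exp_le_exp.mpr h2)
    omega
  have h4 : |Real.log u| ≤ |Real.log c| + |Real.log U| := by
    have h5 := Real.log_le_log hc h1.le
    have h6 := Real.log_le_log hu h2
    rw [abs_le]
    constructor
    · have := neg_abs_le (Real.log c)
      have := abs_nonneg (Real.log U)
      linarith
    · have := le_abs_self (Real.log U)
      have := abs_nonneg (Real.log c)
      linarith
  calc |Real.log (bsdProduct a b (Real.exp u)) - Real.log A - ρ * Real.log u| ≤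
      |Real.log (bsdProduct a b (Real.exp u))| + |Real.log A| + |ρ| * |Real.log u| := by
        rw [← abs_mul]
        refine (abs_sub _ _).trans ?_
        gcongr
        exact abs_sub _ _
    _ ≤ _ := by gcongr

theorem rem_bdd {α : ℝ → ℝ} (hl : Loc α) {ρ L c : ℝ} (hc : 0 < c) (U : ℝ) :
    ∃ B, ∀ u, c < u → u ≤ U → |rem α ρ L 0 u| ≤ B := by
  obtain ⟨B1, h1⟩ := hl U
  refine ⟨|B1| + |ρ| * (|Real.log c| + |Real.log U| + |Real.eulerMascheroniConstant|) + |L|,
    fun u h2 h3 => ?_⟩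
  have hu : 0 < u := hc.trans h2
  have e : rem α ρ L 0 u = -(α u) + ρ * (Real.log u + Real.eulerMascheroniConstant) - L := by
    unfold rem ml pk
    rw [harmonic_zero]
    show -(α u) + _ - _ = _
    push_cast
    simp
  rw [e]
  have h4 : |Real.log u| ≤ |Real.log c| + |Real.log U| := by
    have h5 := Real.log_le_log hc h2.le
    have h6 := Real.log_le_log hu h3
    rw [abs_le]
    constructor
    · have := neg_abs_le (Real.log c)
      have := abs_nonneg (Real.log U)
      linarith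
    · have := le_abs_self (Real.log U)
      have := abs_nonneg (Real.log c)
      linarith
  calc |-(α u) + ρ * (Real.log u + Real.eulerMascheroniConstant) - L| ≤
      |α u| + |ρ| * (|Real.log u| + |Real.eulerMascheroniConstant|) + |L| := by
        refine (abs_sub _ _).trans ?_
        gcongr
        refine (abs_add_le _ _).trans ?_
        rw [abs_neg, abs_mul]
        gcongr
        exact abs_add_le _ _
    _ ≤ _ := by
        have := (h1 u hu h3).trans (le_abs_self B1)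
        gcongr

/-- **The Riemann hypothesis, the order and the first mean.** -/
theorem eq_first (hΔ : 4 * a ^ 3 + 27 * b ^ 2 ≠ 0) (hF : IsLSeries a b F) {r : ℕ}
    (hr : analyticOrderAt F 1 = r)
    (hg : ∃ (C : ℝ) (A : ℕ), ∀ s : ℂ, 1 < s.re → ‖F s‖ ≤ C * (1 + ‖s‖) ^ A) (κ : ℝ) :
    (((∀ s : ℂ, 1 < s.re → F s ≠ 0) ∧ (r : ℝ) ≤ κ) ↔ ∃ C : ℝ, ∀ᶠ x : ℝ in atTop,
      productMean a b 1 x ≤ κ * Real.log (Real.log x) + C) ∧
    (((∀ s : ℂ, 1 < s.re → F s ≠ 0) ∧ (r : ℝ) = κ) ↔ ∃ C : ℝ, ∀ᶠ x : ℝ in atTop,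
      |productMean a b 1 x - κ * Real.log (Real.log x)| ≤ C) ∧
    ((∀ s : ℂ, 1 < s.re → F s ≠ 0) ↔ ∃ k : ℕ, ∀ ε : ℝ, 0 < ε → ∀ᶠ x : ℝ in atTop,
      productMean a b k x ≤ x ^ ε) := by
  have hfin := bad_finite hΔ
  obtain ⟨Bs, hBs⟩ : ∃ Bs : Finset Nat.Primes, ∀ p : Nat.Primes,
      p ∈ Bs ↔ ¬ GoodPrime a b (p : ℕ) := ⟨hfin.toFinset, fun p => by
    rw [Set.Finite.mem_toFinset]; rfl⟩
  have E := eq_tdata hBs
  have e1 : ((1 : ℝ) + 1) / 2 = 1 := by norm_num
  have e2 : ((1 : ℝ) + 2) / 2 = 3 / 2 := by norm_num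
  have ec : ((((1 : ℝ) + 1) / 2 : ℝ) : ℂ) = 1 := by rw [e1, Complex.ofReal_one]
  have he : ∀ s : ℂ, ((1 : ℝ) + 2) / 2 < s.re → F s = Pool.Agent.W263.EP.LF
      Pool.Agent.W263.EP.sysQ (Bs : Set Nat.Primes) (Pool.Agent.W263.EP.abTr (AA a b)) s := by
    intro s hs
    rw [e2] at hs
    rw [LFB_EQ hBs hF hs]
    exact LFB_one (S := Pool.Agent.W263.EP.sysQ) (Bs := Bs) s
  have hA : AnalyticAt ℂ F ((((1 : ℝ) + 1) / 2 : ℝ) : ℂ) := hF.1.analyticAt _
  have hn : meromorphicOrderAt F ((((1 : ℝ) + 1) / 2 : ℝ) : ℂ) = ((r : ℤ) : WithTop ℤ) := by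
    rw [hA.meromorphicOrderAt_eq, ec, hr]; rfl
  obtain ⟨Λ, hΛ, hlead⟩ := mero_lead hA.meromorphicAt hn
  have hL := clim_of_lead hΛ hlead
  have key := growth_means E (fun s _ => hF.1 s) he hA.meromorphicAt hn hL
    (by obtain ⟨C, A, hC⟩ := hg; exact ⟨C, A, fun s hs => hC s (by rwa [e1] at hs)⟩)
  rw [e1] at key
  have hR : ∀ k x, Pool.Agent.W263.EP.RK Pool.Agent.W263.EP.sysQ
      (Bs : Set Nat.Primes) (Pool.Agent.W263.EP.abTr (AA a b)) 1 k x = productMean a b k x :=
    fun k x => RK_EQ hBs k x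
  have c1 := RK_upper_iff E (k := 1)
  have c2 := RK_mt_abs E (k := 1) (ρ := ((r : ℤ) : ℝ)) (L := Real.log Λ)
  simp only [hR] at c1 c2
  have k01 := key.out 0 1
  have k02 := key.out 0 2
  have hRH := k01.trans c1.symm
  have hRH2 := k02.trans c2
  rw [Int.cast_natCast] at hRH2
  have hll : ∀ᶠ x : ℝ in atTop, 1 ≤ Real.log (Real.log x) :=
    loglog_atTop.eventually (eventually_ge_atTop 1)
  have hup : ∀ {κ C : ℝ}, (∀ᶠ x : ℝ in atTop,
      productMean a b 1 x ≤ κ * Real.log (Real.log x) + C) →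
      ∀ s : ℂ, 1 < s.re → F s ≠ 0 := by
    intro κ C h
    refine hRH.mpr ⟨κ + |C|, ?_⟩
    filter_upwards [h, hll] with x h1 h2
    have := le_abs_self C
    have := abs_nonneg C
    nlinarith
  have hcomp : ∀ {σ τ : ℝ} {C : ℝ}, (∀ᶠ x : ℝ in atTop,
      σ * Real.log (Real.log x) ≤ τ * Real.log (Real.log x) + C) → σ ≤ τ := by
    intro σ τ C h
    by_contra hcon
    rw [not_le] at hcon
    have h1 : ∀ᶠ x : ℝ in atTop, C < (σ - τ) * Real.log (Real.log x) :=
      (loglog_atTop.const_mul_atTop (sub_pos.mpr hcon)).eventually (eventually_gt_atTop C)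
    obtain ⟨x, h2, h3⟩ := (h.and h1).exists
    linarith
  refine ⟨⟨?_, ?_⟩, ⟨?_, ?_⟩, ⟨?_, ?_⟩⟩
  · rintro ⟨h1, h2⟩
    obtain ⟨C, hC⟩ := hRH2.mp h1
    refine ⟨C, ?_⟩
    filter_upwards [hC, hll] with x h3 h4
    have h5 := (abs_le.mp h3).2
    nlinarith
  · rintro ⟨C, h⟩
    have h1 := hup h
    obtain ⟨C', hC'⟩ := hRH2.mp h1
    refine ⟨h1, hcomp (C := C' + C) ?_⟩
    filter_upwards [h, hC'] with x h2 h3
    have h5 := (abs_le.mp h3).1
    linarith
  · rintro ⟨h1, h2⟩
    rw [← h2]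
    exact hRH2.mp h1
  · rintro ⟨C, h⟩
    have h1 := hup (κ := κ) (C := C) (h.mono fun x hx => by
      have := (abs_le.mp hx).2
      linarith)
    obtain ⟨C', hC'⟩ := hRH2.mp h1
    refine ⟨h1, le_antisymm (hcomp (C := C' + C) ?_) (hcomp (C := C' + C) ?_)⟩
    · filter_upwards [h, hC'] with x h2 h3
      have h5 := (abs_le.mp h3).1
      have h6 := (abs_le.mp h2).2
      linarith
    · filter_upwards [h, hC'] with x h2 h3
      have h5 := (abs_le.mp h3).2
      have h6 := (abs_le.mp h2).1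
      linarith
  · intro h
    obtain ⟨K, hK⟩ := hRH.mp h
    refine ⟨1, fun ε hε => ?_⟩
    filter_upwards [hK, loglog_le_rpow K hε] with x h1 h2
    exact h1.trans h2
  · rintro ⟨k, h⟩ s hs
    refine rh_of_subexp E (fun s _ => hF.1 s) he (k := k) (fun ε hε => ?_) s (by rwa [e1])
    exact (h ε hε).mono fun x hx => (hR k x).le.trans hx

/-- **The mean square criterion.** -/
theorem eq_ms (hΔ : 4 * a ^ 3 + 27 * b ^ 2 ≠ 0) (hF : IsLSeries a b F) {r : ℕ}
    (hr : analyticOrderAt F 1 = r)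
    (hg : ∃ (C : ℝ) (A : ℕ), ∀ s : ℂ, 0 < s.re → ‖F s‖ ≤ C * (1 + ‖s‖) ^ A)
    (hRS : RankinSelberg a b) (ρ A : ℝ) (hA0 : 0 < A) :
    List.TFAE [
      (∀ s : ℂ, 1 < s.re → F s ≠ 0) ∧ (r : ℝ) = ρ ∧
        A = √2 * Real.exp (ρ * Real.eulerMascheroniConstant) / leadAbs F r,
      IntegrableOn (fun x : ℝ => Real.log (bsdProduct a b x / (A * (Real.log x) ^ ρ)) ^ 2 / x)
        (Ioi 2),
      Tendsto (fun X : ℝ => (Real.log X)⁻¹ *
        ∫ x in Ioc 2 X, |Real.log (bsdProduct a b x / (A * (Real.log x) ^ ρ))| / x) atTop (𝓝 0),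
      (∃ k : ℕ, ∀ ε : ℝ, 0 < ε → ∀ᶠ x : ℝ in atTop, productMean a b k x ≤ x ^ ε) ∧
        ∃ E : Set ℝ, FinLog E ∧
          Tendsto (fun x : ℝ => bsdProduct a b x / (Real.log x) ^ ρ) (offE E) (𝓝 A)] := by
  have hfin := bad_finite hΔ
  obtain ⟨Bs, hBs⟩ : ∃ Bs : Finset Nat.Primes, ∀ p : Nat.Primes,
      p ∈ Bs ↔ ¬ GoodPrime a b (p : ℕ) := ⟨hfin.toFinset, fun p => by
    rw [Set.Finite.mem_toFinset]; rfl⟩
  have E := eq_tdata hBs
  have P := pair E
  have e1 : ((1 : ℝ) + 1) / 2 = 1 := by norm_num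
  have e2 : ((1 : ℝ) + 2) / 2 = 3 / 2 := by norm_num
  have ec : ((((1 : ℝ) + 1) / 2 : ℝ) : ℂ) = 1 := by rw [e1, Complex.ofReal_one]
  have he : ∀ s : ℂ, ((1 : ℝ) + 2) / 2 < s.re → F s = Pool.Agent.W263.EP.LF
      Pool.Agent.W263.EP.sysQ (Bs : Set Nat.Primes) (Pool.Agent.W263.EP.abTr (AA a b)) s := by
    intro s hs
    rw [e2] at hs
    rw [LFB_EQ hBs hF hs]
    exact LFB_one (S := Pool.Agent.W263.EP.sysQ) (Bs := Bs) s
  have hA : AnalyticAt ℂ F ((((1 : ℝ) + 1) / 2 : ℝ) : ℂ) := hF.1.analyticAt _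
  have hA1 : AnalyticAt ℂ F ((1 : ℝ) : ℂ) := hF.1.analyticAt _
  have hn : meromorphicOrderAt F ((((1 : ℝ) + 1) / 2 : ℝ) : ℂ) = ((r : ℤ) : WithTop ℤ) := by
    rw [hA.meromorphicOrderAt_eq, ec, hr]; rfl
  obtain ⟨hpos, hlead⟩ := lead_limit_at hA1 (r := r) (by rw [Complex.ofReal_one]; exact hr)
  rw [Complex.ofReal_one] at hpos hlead
  have hLA : 0 < leadAbs F r := hpos
  have hL : CLim (((1 : ℝ) + 1) / 2) F ((r : ℤ) : ℝ) (Real.log (leadAbs F r)) := by
    refine clim_of_lead hLA ?_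
    rw [e1]
    refine hlead.congr fun s => ?_
    rw [Int.cast_natCast, Real.rpow_natCast]
  set L' : ℝ := 1 / 2 * Real.log 2 - Real.log A + ρ * Real.eulerMascheroniConstant with hL'
  have key := ms_tfae_exc E (fun s _ => hF.1 s) he hn hL
    (by obtain ⟨C, A, hC⟩ := hg; exact ⟨C, A, fun s hs => hC s (by rw [e1] at hs; linarith)⟩) ρ L'
  rw [e1, Int.cast_natCast] at key
  set φ : ℝ → ℝ := rem (ap sysQ (tn sysQ (Bs : Set Nat.Primes) (abTr (AA a b)) 1)) ρ L' 0 with hφ
  set γ : ℝ → ℝ := lgP a b ρ A with hγ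
  have hl2 : 0 < Real.log 2 := Real.log_pos (by norm_num)
  have hfφ : ∀ x : ℝ, 1 < x → MK sysQ (Bs : Set Nat.Primes) (abTr (AA a b)) 1 0 x - mt ρ L' 0 x =
      φ (Real.log x) := fun x hx => (rem_zero_eq hx).symm
  have hfγ : ∀ x : ℝ, 1 < x → Real.log (bsdProduct a b x / (A * (Real.log x) ^ ρ)) =
      γ (Real.log x) := by
    intro x hx
    rw [hγ]
    unfold lgP
    rw [Real.exp_log (by linarith)]
  obtain ⟨C, hC⟩ := rs_limit hBs hRS
  have herr : ∀ᶠ u : ℝ in atTop, |φ u + γ u| ≤ C / u := by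
    filter_upwards [ev_exp hC, eventually_gt_atTop 0] with u h1 hu
    rw [Real.log_exp] at h1
    have h2 := hfφ (Real.exp u) (Real.one_lt_exp_iff.mpr hu)
    rw [Real.log_exp, MK_EQ hBs] at h2
    have h3 : γ u = productMean a b 0 (Real.exp u) - Real.log A - ρ * Real.log u := by
      rw [hγ, lgP_eq hA0 hu]
      congr 2
      have h4 := hfin
      unfold bsdProduct productMean
      rw [Real.log_prod (fun p hp => by
        have hp1 : 0 < (p : ℝ) := by exact_mod_cast (Finset.mem_filter.mp hp).2.1.pos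
        positivity)]
      rw [← finsum_mem_coe_finset]
      have hset : ((Finset.range (⌊Real.exp u⌋₊ + 1)).filter (GoodPrime a b) : Set ℕ) =
          {p : ℕ | GoodPrime a b p ∧ (p : ℝ) ≤ Real.exp u} := by
        ext p
        simp only [Finset.coe_filter, Finset.mem_range, mem_ofPred_eq]
        rw [Nat.lt_succ_iff, Nat.le_floor_iff (Real.exp_pos u).le]
        tauto
      rw [hset]
      refine finsum_mem_congr rfl fun p _ => ?_
      rw [pow_zero, one_mul]
    rw [← h2, h3]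
    have h4 : mt ρ L' 0 (Real.exp u) = L' - ρ * (Real.log u + Real.eulerMascheroniConstant) := by
      unfold LG.mt
      rw [Real.log_exp, harmonic_zero]
      push_cast
      ring
    rw [h4, hL']
    refine le_trans (le_of_eq ?_) h1
    congr 1
    ring
  obtain ⟨t1, t2, t3⟩ := transfer (rem_meas P.am 0) (lgP_meas ρ A) hl2 (rem_bdd P.al hl2)
    (lgP_bdd hA0 hl2) herr
  have c1 : (Real.log (leadAbs F r) = L' ↔
      A = √2 * Real.exp (ρ * Real.eulerMascheroniConstant) / leadAbs F r) := by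
    have h1 : Real.log (√2 * Real.exp (ρ * Real.eulerMascheroniConstant) / leadAbs F r) =
        1 / 2 * Real.log 2 + ρ * Real.eulerMascheroniConstant - Real.log (leadAbs F r) := by
      rw [Real.log_div (by positivity) hLA.ne', Real.log_mul (by positivity) (Real.exp_pos _).ne',
        Real.log_exp, Real.log_sqrt (by norm_num)]
      ring
    constructor
    · intro h
      have h2 : Real.log A = Real.log (√2 * Real.exp (ρ * Real.eulerMascheroniConstant) /
          leadAbs F r) := by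
        rw [h1, h, hL']; ring
      exact Real.log_injOn_pos (mem_Ioi.mpr hA0) (mem_Ioi.mpr (by positivity)) h2
    · intro h
      rw [hL', h, h1]
      ring
  rw [c1] at key
  have k12 := key.out 0 1
  have k13 := key.out 0 2
  have k14 := key.out 0 3
  have s1 := (sq_log_iff hfφ).trans (t1.trans (sq_log_iff hfγ).symm)
  have s2 := (mean_log_iff hfφ).trans (t2.trans (mean_log_iff hfγ).symm)
  have s3 : ∀ E' : Set ℝ, Tendsto (fun x => MK sysQ (Bs : Set Nat.Primes) (abTr (AA a b)) 1 0 x -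
      mt ρ L' 0 x) (offE E') (𝓝 0) ↔
      Tendsto (fun x : ℝ => bsdProduct a b x / (Real.log x) ^ ρ) (offE E') (𝓝 A) := by
    intro E'
    have hle := offE_le E'
    have hlog : map Real.log (offE E') ≤ atTop := (Real.tendsto_log_atTop.mono_left hle)
    have h1 : Tendsto (fun x => MK sysQ (Bs : Set Nat.Primes) (abTr (AA a b)) 1 0 x -
        mt ρ L' 0 x) (offE E') (𝓝 0) ↔ Tendsto (fun x => φ (Real.log x)) (offE E') (𝓝 0) := by
      refine tendsto_congr' (Filter.Eventually.filter_mono hle ?_)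
      filter_upwards [eventually_gt_atTop 1] with x hx using hfφ x hx
    have h2 : Tendsto (fun x => Real.log (bsdProduct a b x / (A * (Real.log x) ^ ρ))) (offE E')
        (𝓝 0) ↔ Tendsto (fun x => γ (Real.log x)) (offE E') (𝓝 0) := by
      refine tendsto_congr' (Filter.Eventually.filter_mono hle ?_)
      filter_upwards [eventually_gt_atTop 1] with x hx using hfγ x hx
    have h3 := t3 (map Real.log (offE E')) hlog
    rw [tendsto_map'_iff, tendsto_map'_iff] at h3
    rw [h1]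
    refine (h3.trans h2.symm).trans ?_
    constructor
    · intro h
      have h4 := (Real.continuous_exp.tendsto 0).comp h
      rw [Real.exp_zero] at h4
      have h5 := h4.const_mul A
      rw [mul_one] at h5
      refine h5.congr' (Filter.Eventually.filter_mono hle ?_)
      filter_upwards [eventually_gt_atTop 1] with x hx
      have hlx : 0 < Real.log x := Real.log_pos hx
      have hp := bsdProduct_pos (a := a) (b := b) x
      simp only [Function.comp]
      rw [Real.exp_log (by positivity)]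
      field_simp
    · intro h
      have h4 := (h.div_const A)
      rw [div_self hA0.ne'] at h4
      have h5 := h4.log one_ne_zero
      rw [Real.log_one] at h5
      refine h5.congr fun x => ?_
      rw [div_div, mul_comm A]
  tfae_have 1 ↔ 2 := k12.trans s1
  tfae_have 1 ↔ 3 := k13.trans s2
  have hsub := (eq_first hΔ hF hr (by
    obtain ⟨C, A, hC⟩ := hg; exact ⟨C, A, fun s hs => hC s (by linarith)⟩) 0).2.2
  have hgr := (growth_means E (fun s _ => hF.1 s) he hA.meromorphicAt hn hL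
    (by obtain ⟨C, A, hC⟩ := hg; exact ⟨C, A, fun s hs => hC s (by rw [e1] at hs; linarith)⟩)).out 0 1
  rw [e1] at hgr
  tfae_have 1 ↔ 4 := k14.trans (and_congr (hgr.symm.trans hsub)
    (exists_congr fun E' => and_congr_right fun _ => s3 E'))
  tfae_finish

end Pool.Agent.W263.MS
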