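import Pool.Agent.W263.MS.Main

/-! The mean square criterion. -/

set_option autoImplicit false

namespace Pool.Agent.W263.MS

open MeasureTheory Filter Topology Set Classical
open Pool.Agent.W263.BSD Pool.Agent.W263.EP Pool.Agent.W263.MN Pool.Agent.W263.LG
open Pool.Agent.H341R2 (NormSys)
open scoped ENNReal

theorem exp_image_Ioi (a : ℝ) (ha : 0 < a) : Real.exp '' (Ioi (Real.log a)) = Ioi a := by
  ext x
  simp only [mem_image, mem_Ioi]
  constructor
  · rintro ⟨u, hu, rfl⟩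
    rwa [Real.log_lt_iff_lt_exp ha] at hu
  · intro hx
    have hx0 : 0 < x := ha.trans hx
    exact ⟨Real.log x, Real.log_lt_log ha hx, Real.exp_log hx0⟩

theorem exp_image_Ioc {a b : ℝ} (ha : 0 < a) (hab : a ≤ b) :
    Real.exp '' (Ioc (Real.log a) (Real.log b)) = Ioc a b := by
  ext x
  simp only [mem_image, mem_Ioc]
  constructor
  · rintro ⟨u, ⟨h1, h2⟩, rfl⟩
    rw [Real.log_lt_iff_lt_exp ha] at h1
    rw [Real.le_log_iff_exp_le (ha.trans_le hab)] at h2
    exact ⟨h1, h2⟩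
  · rintro ⟨h1, h2⟩
    have hx0 : 0 < x := ha.trans h1
    exact ⟨Real.log x, ⟨Real.log_lt_log ha h1, Real.log_le_log hx0 h2⟩, Real.exp_log hx0⟩

/-- change of variables for integrability -/
theorem cov_int {φ : ℝ → ℝ} {a : ℝ} (ha : 0 < a) :
    IntegrableOn (fun x => φ (Real.log x) / x) (Ioi a) ↔ IntegrableOn φ (Ioi (Real.log a)) := by
  have h1 := integrableOn_image_iff_integrableOn_abs_deriv_smul (s := Ioi (Real.log a))
    (f := Real.exp) (f' := Real.exp) measurableSet_Ioi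
    (fun x _ => (Real.hasDerivAt_exp x).hasDerivWithinAt) Real.exp_injective.injOn
    (fun x => φ (Real.log x) / x)
  rw [exp_image_Ioi a ha] at h1
  rw [h1]
  refine integrableOn_congr_fun (fun u _ => ?_) measurableSet_Ioi
  rw [abs_of_pos (Real.exp_pos u), Real.log_exp, smul_eq_mul, mul_div_cancel₀ _ (Real.exp_pos u).ne']

/-- change of variables for integrals -/
theorem cov_val {φ : ℝ → ℝ} {a b : ℝ} (ha : 0 < a) (hab : a ≤ b) :
    ∫ x in Ioc a b, φ (Real.log x) / x = ∫ u in Ioc (Real.log a) (Real.log b), φ u := by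
  have h1 := integral_image_eq_integral_abs_deriv_smul (s := Ioc (Real.log a) (Real.log b))
    (f := Real.exp) (f' := Real.exp) measurableSet_Ioc
    (fun x _ => (Real.hasDerivAt_exp x).hasDerivWithinAt) Real.exp_injective.injOn
    (fun x => φ (Real.log x) / x)
  rw [exp_image_Ioc ha hab] at h1
  rw [h1]
  refine setIntegral_congr_fun measurableSet_Ioc fun u _ => ?_
  rw [abs_of_pos (Real.exp_pos u), Real.log_exp, smul_eq_mul, mul_div_cancel₀ _ (Real.exp_pos u).ne']

/-- square integrability gives convergence to zero of the means of the absolute values -/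
theorem mean_of_sq {φ : ℝ → ℝ} {a : ℝ} (hφ : ∀ U, IntegrableOn φ (Ioc a U))
    (h2 : IntegrableOn (fun u => φ u ^ 2) (Ioi a)) :
    Tendsto (fun U : ℝ => U⁻¹ * ∫ u in Ioc a U, |φ u|) atTop (𝓝 0) := by
  set C : ℝ := ∫ u in Ioi a, φ u ^ 2 with hC
  have hC0 : 0 ≤ C := integral_nonneg fun u => sq_nonneg _
  have key : ∀ ε : ℝ, 0 < ε → ∀ U : ℝ, a ≤ U → ∫ u in Ioc a U, |φ u| ≤
      ε * (U - a) + C / (4 * ε) := by
    intro ε hε U hU
    have h3 : IntegrableOn (fun u => φ u ^ 2) (Ioc a U) := h2.mono_set Ioc_subset_Ioi_self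
    have h4 : IntegrableOn (fun u => ε + φ u ^ 2 / (4 * ε)) (Ioc a U) :=
      ((continuousOn_const.integrableOn_compact isCompact_Icc).mono_set Ioc_subset_Icc_self).add
        (h3.div_const _)
    calc ∫ u in Ioc a U, |φ u| ≤ ∫ u in Ioc a U, (ε + φ u ^ 2 / (4 * ε)) := by
          refine integral_mono (hφ U).abs h4 fun u => ?_
          have h5 : |φ u| * (4 * ε) ≤ ε * (4 * ε) + φ u ^ 2 := by
            rw [← sq_abs (φ u)]
            nlinarith [sq_nonneg (|φ u| - 2 * ε)]
          have h6 : |φ u| ≤ (ε * (4 * ε) + φ u ^ 2) / (4 * ε) := by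
            rw [le_div_iff₀ (by positivity)]; exact h5
          refine h6.trans (le_of_eq ?_)
          field_simp
      _ = ε * (U - a) + (∫ u in Ioc a U, φ u ^ 2) / (4 * ε) := by
          rw [integral_add ((continuousOn_const.integrableOn_compact isCompact_Icc).mono_set
            Ioc_subset_Icc_self) (h3.div_const _), integral_div, setIntegral_const, smul_eq_mul,
            Measure.real, Real.volume_Ioc, ENNReal.toReal_ofReal (by linarith)]
          ring
      _ ≤ _ := by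
          have h7 : ∫ u in Ioc a U, φ u ^ 2 ≤ C :=
            setIntegral_mono_set h2 (Eventually.of_forall fun u => sq_nonneg _)
              (Ioc_subset_Ioi_self.eventuallyLE)
          gcongr
  rw [Metric.tendsto_atTop]
  intro ε hε
  set U0 : ℝ := max 1 (max a ((C / ε + |a| * ε / 4 + 1) * (4 / ε))) with hU0
  refine ⟨U0, fun U hU => ?_⟩
  have h1 : 1 ≤ U := (le_max_left _ _).trans hU
  have h2 : a ≤ U := (le_max_left _ _).trans ((le_max_right _ _).trans hU)
  have h3 : (C / ε + |a| * ε / 4 + 1) * (4 / ε) ≤ U :=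
    (le_max_right _ _).trans ((le_max_right _ _).trans hU)
  have hU0 : 0 < U := by linarith
  have h4 := key (ε / 4) (by positivity) U h2
  have h5 : 0 ≤ ∫ u in Ioc a U, |φ u| := integral_nonneg fun u => abs_nonneg _
  rw [Real.dist_eq, sub_zero, abs_of_nonneg (by positivity), inv_mul_lt_iff₀ hU0]
  have h6 : (C / ε + |a| * ε / 4 + 1) * 4 ≤ U * ε := by
    have := mul_le_mul_of_nonneg_right h3 hε.le
    refine le_trans (le_of_eq ?_) this
    field_simp
  have h7 : C / (4 * (ε / 4)) = C / ε := by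
    congr 1
    ring
  rw [h7] at h4
  have h8 : -a ≤ |a| := neg_le_abs a
  nlinarith [mul_le_mul_of_nonneg_right h8 hε.le]

variable {S : NormSys} {Bs : Finset S.X} {bad : Set S.X} {tr : S.X → ℕ → ℝ} {ω : ℝ} {D : ℝ}
  {F G : ℂ → ℂ} {ρ L L' : ℝ} {n : ℤ}

theorem rem_zero_eq {x : ℝ} (hx : 1 < x) :
    rem (ap S (tn S bad tr ω)) ρ L 0 (Real.log x) = MK S bad tr ω 0 x - mt ρ L 0 x := by
  have h := rem_MK (S := S) (bad := bad) (tr := tr) (ω := ω) (ρ := ρ) (L := L) 0
    (Real.log_pos hx)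
  rw [h, Real.exp_log (by linarith)]
  unfold pk
  simp

theorem sq_iff :
    IntegrableOn (fun x => (MK S bad tr ω 0 x - mt ρ L 0 x) ^ 2 / x) (Ioi 2) ↔
      IntegrableOn (fun u => rem (ap S (tn S bad tr ω)) ρ L 0 u ^ 2) (Ioi (Real.log 2)) := by
  rw [← cov_int (φ := fun u => rem (ap S (tn S bad tr ω)) ρ L 0 u ^ 2) (by norm_num : (0 : ℝ) < 2)]
  refine integrableOn_congr_fun (fun x hx => ?_) measurableSet_Ioi
  have hx2 : (2 : ℝ) < x := hx
  rw [rem_zero_eq (by linarith)]

theorem mean_eq {X : ℝ} (hX : 2 ≤ X) :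
    ∫ x in Ioc 2 X, |MK S bad tr ω 0 x - mt ρ L 0 x| / x =
      ∫ u in Ioc (Real.log 2) (Real.log X), |rem (ap S (tn S bad tr ω)) ρ L 0 u| := by
  rw [← cov_val (φ := fun u => |rem (ap S (tn S bad tr ω)) ρ L 0 u|) (by norm_num : (0 : ℝ) < 2) hX]
  refine setIntegral_congr_fun measurableSet_Ioc fun x hx => ?_
  have hx2 : (2 : ℝ) < x := hx.1
  rw [rem_zero_eq (by linarith)]

/-- uniqueness of the exponent and of the constant -/
theorem clim_unique {c : ℝ} {ρ' : ℝ} (h : CLim c F ρ L) (h' : CLim c F ρ' L') : ρ = ρ' ∧ L = L' := by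
  unfold CLim at h h'
  have h1 : Tendsto (fun s : ℝ => (ρ' - ρ) * Real.log (s - c)) (𝓝[>] c) (𝓝 (L - L')) := by
    refine (h.sub h').congr fun s => ?_
    ring
  have h2 : Tendsto (fun s : ℝ => Real.log (s - c)) (𝓝[>] c) atBot := by
    have h3 : Tendsto (fun s : ℝ => s - c) (𝓝[>] c) (𝓝[>] 0) := shift_nhds' c
    exact Real.tendsto_log_nhdsGT_zero.comp h3
  have h3 : ρ = ρ' := by
    by_contra hne
    rcases lt_or_gt_of_ne hne with hlt | hlt
    · have h4 := h2.const_mul_atBot (show 0 < ρ' - ρ by linarith)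
      exact not_tendsto_nhds_of_tendsto_atBot h4 _ h1
    · have h4 := h2.const_mul_atBot_of_neg (show ρ' - ρ < 0 by linarith)
      exact not_tendsto_nhds_of_tendsto_atTop h4 _ h1
  refine ⟨h3, ?_⟩
  subst h3
  exact tendsto_nhds_unique h h'

/-- the means determine everything -/
theorem of_mean (E : TData S (tn S bad tr ω) D)
    (h : Tendsto (fun X : ℝ => (Real.log X)⁻¹ *
      ∫ x in Ioc 2 X, |MK S bad tr ω 0 x - mt ρ L 0 x| / x) atTop (𝓝 0)) :
    ∃ F : ℂ → ℂ, IsFull S bad tr ω F ∧ CLim ((ω + 1) / 2) F ρ L := by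
  have P := pair E
  set a := ap S (tn S bad tr ω) with ha
  have hl2 : 0 < Real.log 2 := Real.log_pos (by norm_num)
  have hint : ∀ U, IntegrableOn (rem a ρ L 0) (Ioc 0 U) := rem_int P.am P.al 0
  have h1 : Tendsto (fun U : ℝ => U⁻¹ * ∫ u in Ioc (Real.log 2) U, |rem a ρ L 0 u|) atTop (𝓝 0) := by
    refine (h.comp Real.tendsto_exp_atTop).congr' ?_
    filter_upwards [eventually_ge_atTop (Real.log 2)] with U hU
    have h2 : 2 ≤ Real.exp U := by
      rwa [Real.log_le_iff_le_exp (by norm_num)] at hU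
    simp only [Function.comp]
    rw [mean_eq h2, Real.log_exp]
  have h2 : Tendsto (fun u => rem a ρ L 1 u / pk 1 u) atTop (𝓝 0) := by
    set C : ℝ := |∫ u in Ioc 0 (Real.log 2), rem a ρ L 0 u| with hC
    have h3 : Tendsto (fun U : ℝ => U⁻¹ * C + U⁻¹ * ∫ u in Ioc (Real.log 2) U, |rem a ρ L 0 u|)
        atTop (𝓝 (0 * C + 0)) := (tendsto_inv_atTop_zero.mul_const C).add h1
    rw [zero_mul, add_zero] at h3
    refine squeeze_zero_norm' ?_ h3
    filter_upwards [eventually_gt_atTop (Real.log 2)] with U hU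
    have hU0 : 0 < U := hl2.trans hU
    have e1 : pk 1 U = U := by unfold pk; norm_num
    rw [e1, ← rem_intU P.am P.al 0 hU0, Real.norm_eq_abs, abs_div, abs_of_pos hU0,
      div_eq_inv_mul, ← mul_add]
    refine mul_le_mul_of_nonneg_left ?_ (inv_nonneg.mpr hU0.le)
    have hd : Disjoint (Ioc 0 (Real.log 2)) (Ioc (Real.log 2) U) := by
      rw [Set.disjoint_left]
      intro x hx hx'
      exact absurd hx.2 (not_le.mpr hx'.1)
    have hun : Ioc 0 (Real.log 2) ∪ Ioc (Real.log 2) U = Ioc 0 U :=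
      Ioc_union_Ioc_eq_Ioc hl2.le hU.le
    have hi2 : IntegrableOn (rem a ρ L 0) (Ioc (Real.log 2) U) :=
      (hint U).mono_set (Ioc_subset_Ioc_left hl2.le)
    have e2 : EP.intU (rem a ρ L 0) U = (∫ u in Ioc 0 (Real.log 2), rem a ρ L 0 u) +
        ∫ u in Ioc (Real.log 2) U, rem a ρ L 0 u := by
      unfold EP.intU
      rw [← hun, setIntegral_union hd measurableSet_Ioc (hint _) hi2]
    rw [e2]
    refine (abs_add_le _ _).trans ?_
    gcongr
    exact abs_integral_le_integral_abs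
  have key := (lead_means E ρ L).out 0 3
  exact (key.mp ⟨1, small_iff.mp h2⟩).1

/-- **Theorem (mean square criterion).** -/
theorem ms_tfae (E : TData S (tn S (Bs : Set S.X) tr ω) D)
    (hd : ∀ s : ℂ, (ω + 1) / 2 - 1 < s.re → DifferentiableAt ℂ F s)
    (he : ∀ s : ℂ, (ω + 2) / 2 < s.re → F s = LF S (Bs : Set S.X) tr s)
    (hn : meromorphicOrderAt F (((ω + 1) / 2 : ℝ) : ℂ) = n) (hL : CLim ((ω + 1) / 2) F n L)
    (hg : ∃ (C : ℝ) (A : ℕ), ∀ s : ℂ, (ω + 1) / 2 - 1 < s.re → ‖F s‖ ≤ C * (1 + ‖s‖) ^ A)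
    (ρ L' : ℝ) :
    List.TFAE [
      (∀ s : ℂ, (ω + 1) / 2 < s.re → F s ≠ 0) ∧ (n : ℝ) = ρ ∧ L = L',
      IntegrableOn (fun x => (MK S (Bs : Set S.X) tr ω 0 x - mt ρ L' 0 x) ^ 2 / x) (Ioi 2),
      Tendsto (fun X : ℝ => (Real.log X)⁻¹ *
        ∫ x in Ioc 2 X, |MK S (Bs : Set S.X) tr ω 0 x - mt ρ L' 0 x| / x) atTop (𝓝 0)] := by
  have P := pair E
  have hl2 : 0 < Real.log 2 := Real.log_pos (by norm_num)
  tfae_have 1 → 2 := by
    rintro ⟨h, h1, h2⟩
    rw [← h1, ← h2, sq_iff]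
    have hfull : IsFull S (Bs : Set S.X) tr ω F :=
      ⟨fun s hs => (hd s (by
        have hs' : (ω + 1) / 2 < s.re := hs
        linarith)).differentiableWithinAt, h, he⟩
    have h3 := ms_of_RH E hfull hd hn hL hg
    have h4 : IntegrableOn (fun u => rem (ap S (tn S (Bs : Set S.X) tr ω)) n L 0 u ^ 2) (Ioi 0) := by
      refine ⟨((rem_meas P.am 0).pow_const 2).aestronglyMeasurable, ?_⟩
      rw [hasFiniteIntegral_iff_ofReal (Eventually.of_forall fun u => sq_nonneg _)]
      exact h3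
    exact h4.mono_set (Ioi_subset_Ioi hl2.le)
  tfae_have 2 → 3 := by
    intro h
    rw [sq_iff] at h
    have h1 := mean_of_sq (φ := rem (ap S (tn S (Bs : Set S.X) tr ω)) ρ L' 0)
      (fun U => (rem_int P.am P.al 0 U).mono_set (Ioc_subset_Ioc_left hl2.le)) h
    refine (h1.comp Real.tendsto_log_atTop).congr' ?_
    filter_upwards [eventually_ge_atTop 2] with X hX
    simp only [Function.comp]
    rw [mean_eq hX]
  tfae_have 3 → 1 := by
    intro h
    obtain ⟨G, hG, hGL⟩ := of_mean E h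
    have hEq : ∀ s : ℂ, (ω + 1) / 2 < s.re → F s = G s := by
      have h2 : AnalyticOnNhd ℂ F {s : ℂ | (ω + 1) / 2 < s.re} :=
        DifferentiableOn.analyticOnNhd (fun s hs => (hd s (by
          have hs' : (ω + 1) / 2 < s.re := hs
          linarith)).differentiableWithinAt) (isOpen_half _)
      have h3 : AnalyticOnNhd ℂ G {s : ℂ | (ω + 1) / 2 < s.re} := hG.1.analyticOnNhd (isOpen_half _)
      have h4 := h2.eqOn_of_preconnected_of_eventuallyEq h3 (preconn_half _)
        (show (((ω + 2) / 2 + 1 : ℝ) : ℂ) ∈ {s : ℂ | (ω + 1) / 2 < s.re} by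
          show (ω + 1) / 2 < (((ω + 2) / 2 + 1 : ℝ) : ℂ).re
          rw [Complex.ofReal_re]; linarith) (by
          filter_upwards [(isOpen_half ((ω + 2) / 2)).mem_nhds
            (show (ω + 2) / 2 < (((ω + 2) / 2 + 1 : ℝ) : ℂ).re by
              rw [Complex.ofReal_re]; linarith)] with z hz
          rw [he z hz, hG.2.2 z hz])
      exact fun s hs => h4 hs
    have h5 : CLim ((ω + 1) / 2) F ρ L' := by
      unfold CLim at hGL ⊢
      refine hGL.congr' ?_
      filter_upwards [self_mem_nhdsWithin] with s hs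
      have hs' : (ω + 1) / 2 < s := hs
      rw [hEq s (by simpa using hs')]
    obtain ⟨h6, h7⟩ := clim_unique hL h5
    exact ⟨fun s hs => by rw [hEq s hs]; exact hG.2.1 s hs, h6, h7⟩
  tfae_finish

end Pool.Agent.W263.MS
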