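import Pool.Agent.W263.MS.Hlog
import Pool.Agent.W263.MS.Tfae

/-! The Hardy class condition for the logarithm. -/

set_option autoImplicit false

namespace Pool.Agent.W263.MS

open MeasureTheory Filter Topology Set Classical
open Pool.Agent.W263.BSD Pool.Agent.W263.EP Pool.Agent.W263.MN Pool.Agent.W263.LG
open Pool.Agent.H341R2 (NormSys)
open scoped ENNReal

/-- `F` has an analytic logarithm `ℓ` on `Re s > c` with
`∫ |ℓ(σ + i t)|² / (1 + t²) dt ≤ K` for `c < σ ≤ c + 1`. -/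
def HardyLog (c : ℝ) (F : ℂ → ℂ) : Prop :=
  ∃ ℓ : ℂ → ℂ, (∀ s : ℂ, c < s.re → DifferentiableAt ℂ ℓ s ∧ Complex.exp (ℓ s) = F s) ∧
    ∃ K : ℝ, ∀ σ : ℝ, c < σ → σ ≤ c + 1 → ∫⁻ t : ℝ,
      ENNReal.ofReal (‖ℓ ((σ : ℂ) + t * Complex.I)‖ ^ 2 / (1 + t ^ 2)) ≤ ENNReal.ofReal K

variable {S : NormSys} {bad : Set S.X} {tr : S.X → ℕ → ℝ} {ω : ℝ} {D : ℝ}
  {F Λ : ℂ → ℂ} {ρ L : ℝ} {n : ℤ}

theorem re_c (w : ℂ) : (((ω : ℂ) + 1) / 2 + w).re = (ω + 1) / 2 + w.re := by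
  rw [Complex.add_re, ← c_cast, Complex.ofReal_re]

/-- the exponential of `Lam` on the half plane of absolute convergence -/
theorem exp_Lam_half (E : TData S (tn S bad tr ω) D)
    (he : ∀ s : ℂ, (ω + 2) / 2 < s.re → F s = LF S bad tr s) {w : ℂ} (hw : 1 / 2 < w.re) :
    Complex.exp (Lam S bad tr ω w) = F (((ω : ℂ) + 1) / 2 + w) := by
  have hs : (ω + 2) / 2 < (((ω : ℂ) + 1) / 2 + w).re := by rw [re_c]; linarith
  rw [he _ hs, ← FCz_eq E 1 hs]
  unfold FCz cont Lam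
  rw [add_sub_cancel_left, zero_sub]

theorem Lam_diff_half (E : TData S (tn S bad tr ω) D) {w : ℂ} (hw : 1 / 2 < w.re) :
    DifferentiableAt ℂ (Lam S bad tr ω) w := by
  unfold Lam
  exact ((differentiableAt_id.pow 2).mul
    (lapC_differentiableAt (ria_meas ap_meas 1) (ap_half E 1) hw)).neg

/-- the normalised logarithm -/
theorem hardy_norm (E : TData S (tn S bad tr ω) D)
    (he : ∀ s : ℂ, (ω + 2) / 2 < s.re → F s = LF S bad tr s) (hH : HardyLog ((ω + 1) / 2) F) :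
    ∃ Λ : ℂ → ℂ, (∀ w : ℂ, 0 < w.re → DifferentiableAt ℂ Λ w) ∧
      (∀ w : ℂ, 0 < w.re → Complex.exp (Λ w) = F (((ω : ℂ) + 1) / 2 + w)) ∧
      (∀ w : ℂ, 1 / 2 < w.re → Λ w = Lam S bad tr ω w) ∧
      ∃ K : ℝ, 0 ≤ K ∧ ∀ σ : ℝ, 0 < σ → σ ≤ 1 → ∫⁻ t : ℝ,
        ENNReal.ofReal (‖Λ ((σ : ℂ) + t * Complex.I)‖ ^ 2 / (1 + t ^ 2)) ≤ ENNReal.ofReal K := by
  obtain ⟨ℓ, h1, K, hK⟩ := hH
  set Λ0 : ℂ → ℂ := fun w => ℓ (((ω : ℂ) + 1) / 2 + w) with hΛ0
  have hd0 : ∀ w : ℂ, 0 < w.re → DifferentiableAt ℂ Λ0 w := fun w hw =>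
    DifferentiableAt.comp (g := ℓ) w (h1 _ (by rw [re_c]; linarith)).1 (by fun_prop)
  have he0 : ∀ w : ℂ, 0 < w.re → Complex.exp (Λ0 w) = F (((ω : ℂ) + 1) / 2 + w) := fun w hw =>
    (h1 _ (by rw [re_c]; linarith)).2
  set U : Set ℂ := {w : ℂ | 1 / 2 < w.re} with hU
  have hUo : IsOpen U := isOpen_half _
  have hDd : ∀ w ∈ U, DifferentiableAt ℂ (fun w => Λ0 w - Lam S bad tr ω w) w := fun w hw =>
    (hd0 w (by have : 1 / 2 < w.re := hw; linarith)).sub (Lam_diff_half E hw)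
  have hDe : ∀ w ∈ U, Complex.exp (Λ0 w - Lam S bad tr ω w) = 1 := by
    intro w hw
    have hw' : 1 / 2 < w.re := hw
    rw [Complex.exp_sub, he0 w (by linarith), exp_Lam_half E he hw', div_self]
    rw [← exp_Lam_half E he hw']
    exact Complex.exp_ne_zero _
  obtain ⟨κ, hκ⟩ := hUo.exists_is_const_of_deriv_eq_zero (preconn_half _)
    (f := fun w => Λ0 w - Lam S bad tr ω w) (fun w hw => (hDd w hw).differentiableWithinAt) (by
      intro w hw
      have h2 := (hDd w hw).hasDerivAt.cexp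
      have h3 : (fun w => Complex.exp (Λ0 w - Lam S bad tr ω w)) =ᶠ[𝓝 w] fun _ => 1 := by
        filter_upwards [hUo.mem_nhds hw] with z hz using hDe z hz
      have h4 := h2.deriv
      rw [h3.deriv_eq, deriv_const] at h4
      have h5 := h4.symm
      rcases mul_eq_zero.mp h5 with h6 | h6
      · exact absurd h6 (Complex.exp_ne_zero _)
      · exact h6)
  have hκ1 : Complex.exp κ = 1 := by
    have h2 : ((1 : ℝ) : ℂ) ∈ U := by
      show 1 / 2 < ((1 : ℝ) : ℂ).re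
      rw [Complex.ofReal_re]; norm_num
    rw [← hκ _ h2]
    exact hDe _ h2
  refine ⟨fun w => Λ0 w - κ, fun w hw => (hd0 w hw).sub_const _, fun w hw => ?_, fun w hw => ?_,
    2 * |K| + 2 * ‖κ‖ ^ 2 * Real.pi, by have := Real.pi_pos; positivity, fun σ hσ hσ1 => ?_⟩
  · simp only []
    rw [Complex.exp_sub, hκ1, div_one, he0 w hw]
  · have := hκ w hw
    simp only [] at this ⊢
    rw [← this]
    ring
  · have h2 := hK ((ω + 1) / 2 + σ) (by linarith) (by linarith)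
    have e : ∀ t : ℝ, Λ0 ((σ : ℂ) + t * Complex.I) =
        ℓ ((((ω + 1) / 2 + σ : ℝ) : ℂ) + t * Complex.I) := by
      intro t
      rw [hΛ0]
      simp only []
      congr 1
      push_cast
      ring
    have key : ∀ t : ℝ, ENNReal.ofReal (‖Λ0 ((σ : ℂ) + t * Complex.I) - κ‖ ^ 2 / (1 + t ^ 2)) ≤
        (ENNReal.ofReal (2 * ‖κ‖ ^ 2) * ENNReal.ofReal (1 / (1 + t ^ 2)) + 0 * 0) +
          ENNReal.ofReal 2 * ENNReal.ofReal
            (‖ℓ ((((ω + 1) / 2 + σ : ℝ) : ℂ) + t * Complex.I)‖ ^ 2 / (1 + t ^ 2)) := by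
      intro t
      rw [zero_mul, add_zero, ← ENNReal.ofReal_mul (by positivity), ← ENNReal.ofReal_mul (by norm_num),
        ← ENNReal.ofReal_add (by positivity) (by positivity)]
      refine ENNReal.ofReal_le_ofReal ?_
      rw [e t]
      set A := ‖ℓ ((((ω + 1) / 2 + σ : ℝ) : ℂ) + t * Complex.I)‖
      have h3 : ‖ℓ ((((ω + 1) / 2 + σ : ℝ) : ℂ) + t * Complex.I) - κ‖ ^ 2 ≤
          2 * ‖κ‖ ^ 2 + 2 * A ^ 2 := by
        refine (pow_le_pow_left₀ (norm_nonneg _) (norm_sub_le _ _) 2).trans ?_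
        nlinarith [sq_nonneg (A - ‖κ‖)]
      have h6 : 2 * ‖κ‖ ^ 2 * (1 / (1 + t ^ 2)) + 2 * (A ^ 2 / (1 + t ^ 2)) =
          (2 * ‖κ‖ ^ 2 + 2 * A ^ 2) / (1 + t ^ 2) := by
        field_simp
      rw [h6]
      exact div_le_div_of_nonneg_right h3 (by positivity)
    have hm1 : Measurable fun y : ℝ => ENNReal.ofReal (1 / (1 + y ^ 2)) := by fun_prop
    refine (lintegral_mono key).trans ?_
    rw [three_add hm1 measurable_const ENNReal.ofReal_ne_top ENNReal.zero_ne_top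
      ENNReal.ofReal_ne_top, int_one, zero_mul, add_zero]
    have e2 : ENNReal.ofReal (2 * |K| + 2 * ‖κ‖ ^ 2 * Real.pi) =
        ENNReal.ofReal (2 * ‖κ‖ ^ 2) * ENNReal.ofReal Real.pi +
          ENNReal.ofReal 2 * ENNReal.ofReal |K| := by
      have := Real.pi_pos
      rw [← ENNReal.ofReal_mul (by positivity), ← ENNReal.ofReal_mul (by norm_num),
        ← ENNReal.ofReal_add (by positivity) (by positivity)]
      congr 1
      ring
    rw [e2]
    have h3 : ENNReal.ofReal K ≤ ENNReal.ofReal |K| := ENNReal.ofReal_le_ofReal (le_abs_self K)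
    have h4 := h2.trans h3
    gcongr

/-- transforms of the remainders on the half plane of absolute convergence -/
theorem lapC_rem_half (E : TData S (tn S bad tr ω) D) {k : ℕ}
    (hk : ∀ w : ℂ, 1 / 2 < w.re → w ^ (k + 1) * lapC (EP.ria (ap S (tn S bad tr ω)) k) w =
      -Lam S bad tr ω w) {w : ℂ} (hw : 1 / 2 < w.re) :
    w ^ (k + 1) * lapC (rem (ap S (tn S bad tr ω)) ρ L k) w =
      Lam S bad tr ω w - ρ * Complex.log w - L := by
  have hw0 : 0 < w.re := by linarith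
  have e1 := lapC_lin (ria_meas ap_meas k) (ml_meas k) (pk_meas k) (ap_half E k _ hw)
    (ml_lap k hw0).1 (pk_LInt k hw0) ρ L
  have e2 : lapC (rem (ap S (tn S bad tr ω)) ρ L k) w = _ := e1
  rw [e2]
  have e3 := lapC_ml k hw0
  have e4 := lapC_pk k hw0
  have e6 := hk w hw
  linear_combination -e6 + ρ * e3 - L * e4

theorem lapC_ria_one (w : ℂ) : w ^ (1 + 1) * lapC (EP.ria (ap S (tn S bad tr ω)) 1) w =
      -Lam S bad tr ω w := by
  unfold Lam
  ring

theorem lapC_ria_two (E : TData S (tn S bad tr ω) D) {w : ℂ} (hw : 1 / 2 < w.re) :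
    w ^ (2 + 1) * lapC (EP.ria (ap S (tn S bad tr ω)) 2) w = -Lam S bad tr ω w := by
  have h1 := lapC_intU' (ria_meas (ap_meas (S := S) (t := tn S bad tr ω)) 1)
    (show (0 : ℝ) ≤ 1 / 2 by norm_num) (ap_half E 1) hw
  have h2 : EP.ria (ap S (tn S bad tr ω)) 2 = EP.intU (EP.ria (ap S (tn S bad tr ω)) 1) := rfl
  rw [h2, ← lapC_ria_one (S := S) (bad := bad) (tr := tr) (ω := ω) w, ← h1]
  ring

/-- analytic continuation of the transform identity -/
theorem lapC_rem_all (E : TData S (tn S bad tr ω) D) {k : ℕ}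
    (hk : ∀ w : ℂ, 1 / 2 < w.re → w ^ (k + 1) * lapC (EP.ria (ap S (tn S bad tr ω)) k) w =
      -Lam S bad tr ω w) (hΛd : ∀ w : ℂ, 0 < w.re → DifferentiableAt ℂ Λ w)
    (hΛ : ∀ w : ℂ, 1 / 2 < w.re → Λ w = Lam S bad tr ω w)
    (hI : ∀ w > 0, LInt (rem (ap S (tn S bad tr ω)) ρ L k) w) {w : ℂ} (hw : 0 < w.re) :
    w ^ (k + 1) * lapC (rem (ap S (tn S bad tr ω)) ρ L k) w = Λ w - ρ * Complex.log w - L := by
  have h1 : AnalyticOnNhd ℂ (fun w : ℂ => w ^ (k + 1) *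
      lapC (rem (ap S (tn S bad tr ω)) ρ L k) w) {z : ℂ | 0 < z.re} := by
    refine DifferentiableOn.analyticOnNhd (fun z hz => ?_) (isOpen_half _)
    exact ((differentiableAt_id.pow (k + 1)).mul
      (lapC_differentiableAt (rem_meas ap_meas k) hI hz)).differentiableWithinAt
  have h2 : AnalyticOnNhd ℂ (fun w : ℂ => Λ w - ρ * Complex.log w - L) {z : ℂ | 0 < z.re} := by
    refine DifferentiableOn.analyticOnNhd (fun z hz => ?_) (isOpen_half _)
    exact (((hΛd z hz).sub ((differentiableAt_id.clog (Or.inl hz)).const_mul _)).sub_const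
      _).differentiableWithinAt
  have h3 := h1.eqOn_of_preconnected_of_eventuallyEq h2 (preconn_half _)
    (show ((1 : ℝ) : ℂ) ∈ {z : ℂ | 0 < z.re} by
      show (0 : ℝ) < ((1 : ℝ) : ℂ).re
      rw [Complex.ofReal_re]; norm_num) (by
      filter_upwards [(isOpen_half (1 / 2)).mem_nhds
        (show 1 / 2 < ((1 : ℝ) : ℂ).re by rw [Complex.ofReal_re]; norm_num)] with z hz
      rw [lapC_rem_half E hk hz, hΛ z hz])
  exact h3 hw

end Pool.Agent.W263.MS
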