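import Pool.Agent.W263.MS.Hardy

/-! From the Hardy class condition to the mean square. -/

set_option autoImplicit false

namespace Pool.Agent.W263.MS

open MeasureTheory Filter Topology Set Classical
open Pool.Agent.W263.BSD Pool.Agent.W263.EP Pool.Agent.W263.MN Pool.Agent.W263.LG
open Pool.Agent.H341R2 (NormSys)
open scoped ENNReal

variable {S : NormSys} {bad : Set S.X} {tr : S.X → ℕ → ℝ} {ω : ℝ} {D : ℝ}
  {F Λ : ℂ → ℂ} {ρ L : ℝ} {n : ℤ}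

theorem Lambda_deriv (hΛd : ∀ w : ℂ, 0 < w.re → DifferentiableAt ℂ Λ w)
    (hΛe : ∀ w : ℂ, 0 < w.re → Complex.exp (Λ w) = F (((ω : ℂ) + 1) / 2 + w)) {w : ℂ}
    (hw : 0 < w.re) : HasDerivAt Λ (deriv F (((ω : ℂ) + 1) / 2 + w) /
      F (((ω : ℂ) + 1) / 2 + w)) w := by
  have h1 := (hΛd w hw).hasDerivAt.cexp
  have h2 : (fun w => F (((ω : ℂ) + 1) / 2 + w)) =ᶠ[𝓝 w] fun w => Complex.exp (Λ w) := by
    filter_upwards [(isOpen_half 0).mem_nhds (show w ∈ {z : ℂ | 0 < z.re} from hw)] with z hz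
    exact (hΛe z hz).symm
  have h3 : deriv F (((ω : ℂ) + 1) / 2 + w) = Complex.exp (Λ w) * deriv Λ w := by
    have h4 : deriv (fun w => F (((ω : ℂ) + 1) / 2 + w)) w = deriv F (((ω : ℂ) + 1) / 2 + w) :=
      deriv_comp_const_add _ _ _
    rw [← h4, h2.deriv_eq]
    exact h1.deriv
  rw [h3, ← hΛe w hw, mul_comm, mul_div_cancel_right₀ _ (Complex.exp_ne_zero _)]
  exact (hΛd w hw).hasDerivAt

theorem F_diff (hΛd : ∀ w : ℂ, 0 < w.re → DifferentiableAt ℂ Λ w)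
    (hΛe : ∀ w : ℂ, 0 < w.re → Complex.exp (Λ w) = F (((ω : ℂ) + 1) / 2 + w)) {s : ℂ}
    (hs : (ω + 1) / 2 < s.re) : DifferentiableAt ℂ F s := by
  set c : ℂ := ((ω : ℂ) + 1) / 2 with hc
  have hre : ∀ z : ℂ, (z - c).re = z.re - (ω + 1) / 2 := by
    intro z
    rw [Complex.sub_re, hc, ← c_cast, Complex.ofReal_re]
  have h1 : F =ᶠ[𝓝 s] fun z => Complex.exp (Λ (z - c)) := by
    filter_upwards [(isOpen_half ((ω + 1) / 2)).mem_nhds hs] with z hz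
    have hz' : (ω + 1) / 2 < z.re := hz
    rw [hΛe (z - c) (by rw [hre]; linarith), add_sub_cancel]
  refine DifferentiableAt.congr_of_eventuallyEq ?_ h1
  refine DifferentiableAt.cexp ?_
  exact DifferentiableAt.comp (g := Λ) (f := fun z => z - c) s (hΛd _ (by rw [hre]; linarith))
    (by fun_prop)

/-- the remainder of the logarithm -/
noncomputable def gg (Λ : ℂ → ℂ) (ρ L : ℝ) (w : ℂ) : ℂ := Λ w - ρ * Complex.log w - L

theorem gg_diff (hΛd : ∀ w : ℂ, 0 < w.re → DifferentiableAt ℂ Λ w) {w : ℂ} (hw : 0 < w.re) :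
    DifferentiableAt ℂ (gg Λ ρ L) w :=
  ((hΛd w hw).sub ((differentiableAt_id.clog (Or.inl hw)).const_mul _)).sub_const _

theorem gg_near (hm : MeromorphicAt F (((ω + 1) / 2 : ℝ) : ℂ))
    (hn : meromorphicOrderAt F (((ω + 1) / 2 : ℝ) : ℂ) = n)
    (hΛd : ∀ w : ℂ, 0 < w.re → DifferentiableAt ℂ Λ w)
    (hΛe : ∀ w : ℂ, 0 < w.re → Complex.exp (Λ w) = F (((ω : ℂ) + 1) / 2 + w)) :
    ∃ δ > 0, ∃ M : ℝ, (∀ w : ℂ, 0 < w.re → ‖w‖ < δ → HasDerivAt (gg Λ n L)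
      (deriv F (((ω : ℂ) + 1) / 2 + w) / F (((ω : ℂ) + 1) / 2 + w) - n / w) w) ∧
      ∀ w : ℂ, 0 < w.re → ‖w‖ < δ →
      ‖deriv F (((ω : ℂ) + 1) / 2 + w) / F (((ω : ℂ) + 1) / 2 + w) - n / w‖ ≤ M := by
  obtain ⟨δ, hδ, M, hM⟩ := near_centre (c := (ω + 1) / 2) (G := F) hm hn
    (fun s hs => F_diff hΛd hΛe hs) (fun s _ => rfl)
  refine ⟨δ, hδ, M, fun w hw _ => ?_, fun w hw hwδ => ?_⟩
  · have h1 := (Lambda_deriv hΛd hΛe hw).sub
      ((Complex.hasDerivAt_log (Or.inl hw)).const_mul (((n : ℝ) : ℂ)))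
    have h2 := h1.sub_const (L : ℂ)
    refine h2.congr_deriv ?_
    push_cast
    rw [div_eq_mul_inv (n : ℂ) w]
  · have h1 := hM (((ω : ℂ) + 1) / 2 + w) (by rw [re_c]; linarith) (by
      rw [c_cast, add_sub_cancel_left]; exact hwδ)
    rw [c_cast, add_sub_cancel_left] at h1
    exact h1

theorem gg_near_bdd {g' : ℂ → ℂ} {δ M : ℝ} (hδ : 0 < δ)
    (hd : ∀ w : ℂ, 0 < w.re → ‖w‖ < δ → HasDerivAt (gg Λ ρ L) (g' w) w)
    (hM : ∀ w : ℂ, 0 < w.re → ‖w‖ < δ → ‖g' w‖ ≤ M) :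
    ∃ M' : ℝ, ∀ w : ℂ, 0 < w.re → ‖w‖ ≤ δ / 2 → ‖gg Λ ρ L w‖ ≤ M' := by
  set U : Set ℂ := {z : ℂ | 0 < z.re} ∩ Metric.ball 0 δ with hU
  have hUc : Convex ℝ U := (convex_halfSpace_re_gt 0).inter (convex_ball _ _)
  have hmem : ∀ z : ℂ, z ∈ U ↔ 0 < z.re ∧ ‖z‖ < δ := fun z => by
    rw [hU, mem_inter_iff, Metric.mem_ball, dist_zero_right]
    rfl
  set w0 : ℂ := ((δ / 2 : ℝ) : ℂ) with hw0
  have hw0U : w0 ∈ U := (hmem _).mpr ⟨by rw [hw0, Complex.ofReal_re]; positivity, by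
    rw [hw0, Complex.norm_real, Real.norm_eq_abs, abs_of_pos (by positivity)]; linarith⟩
  have hw0n : ‖w0‖ ≤ δ := ((hmem _).mp hw0U).2.le
  refine ⟨‖gg Λ ρ L w0‖ + |M| * (2 * δ), fun w hw hwδ => ?_⟩
  have hwU : w ∈ U := (hmem _).mpr ⟨hw, by linarith⟩
  have h1 := hUc.norm_image_sub_le_of_norm_hasDerivWithin_le
    (fun z hz => (hd z ((hmem z).mp hz).1 ((hmem z).mp hz).2).hasDerivWithinAt)
    (fun z hz => hM z ((hmem z).mp hz).1 ((hmem z).mp hz).2) hw0U hwU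
  have h2 : ‖w - w0‖ ≤ 2 * δ := (norm_sub_le _ _).trans (by linarith)
  have h3 : ‖gg Λ ρ L w‖ ≤ ‖gg Λ ρ L w0‖ + ‖gg Λ ρ L w - gg Λ ρ L w0‖ := by
    have := norm_add_le (gg Λ ρ L w0) (gg Λ ρ L w - gg Λ ρ L w0)
    rwa [add_sub_cancel] at this
  have h4 : M * ‖w - w0‖ ≤ |M| * (2 * δ) := by
    calc M * ‖w - w0‖ ≤ |M| * ‖w - w0‖ := mul_le_mul_of_nonneg_right (le_abs_self M) (norm_nonneg _)
      _ ≤ _ := mul_le_mul_of_nonneg_left h2 (abs_nonneg M)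
  linarith

/-- `|log w| ≤ 8 (1 + |w|) / Re w` for `0 < Re w ≤ 1` -/
theorem log_le_simple {w : ℂ} (hw : 0 < w.re) (hw1 : w.re ≤ 1) :
    ‖Complex.log w‖ ≤ 8 * ((1 + ‖w‖) * (1 / w.re)) := by
  have hn : w.re ≤ ‖w‖ := re_le w
  have hn0 : 0 < ‖w‖ := hw.trans_le hn
  have h1 : ‖Complex.log w‖ ≤ |Real.log ‖w‖| + Real.pi := by
    refine (Complex.norm_le_abs_re_add_abs_im _).trans ?_
    rw [Complex.log_re, Complex.log_im]
    have := Complex.abs_arg_le_pi w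
    linarith
  have h2 : Real.log ‖w‖ ≤ ‖w‖ := (Real.log_le_sub_one_of_pos hn0).trans (by linarith)
  have h3 : -(1 / w.re) ≤ Real.log ‖w‖ := by
    have h4 : Real.log w.re ≤ Real.log ‖w‖ := Real.log_le_log hw hn
    have h5 : -Real.log w.re ≤ 1 / w.re := by
      rw [← Real.log_inv, one_div]
      exact (Real.log_le_sub_one_of_pos (by positivity)).trans (by linarith)
    linarith
  have h6 : 1 ≤ 1 / w.re := by rw [one_le_div hw]; exact hw1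
  have h7 : |Real.log ‖w‖| ≤ ‖w‖ + 1 / w.re := by
    rw [abs_le]
    constructor <;> linarith
  have := Real.pi_lt_four
  have h8 : ‖w‖ ≤ ‖w‖ * (1 / w.re) := le_mul_of_one_le_right hn0.le h6
  nlinarith

/-- **Pointwise bound of the remainder.** -/
theorem gg_poly (E : TData S (tn S bad tr ω) D)
    (hΛd : ∀ w : ℂ, 0 < w.re → DifferentiableAt ℂ Λ w)
    (hΛ : ∀ w : ℂ, 1 / 2 < w.re → Λ w = Lam S bad tr ω w) {K : ℝ} (hK : 0 ≤ K)
    (hH : ∀ σ : ℝ, 0 < σ → σ ≤ 1 → ∫⁻ t : ℝ,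
        ENNReal.ofReal (‖Λ ((σ : ℂ) + t * Complex.I)‖ ^ 2 / (1 + t ^ 2)) ≤ ENNReal.ofReal K) :
    ∃ C : ℝ, ∀ w : ℂ, 0 < w.re → w.re ≤ 1 →
      ‖gg Λ ρ L w‖ ≤ C * ((1 + ‖w‖) ^ (1 : ℝ) * (1 / w.re) ^ 1) := by
  have hsum := (prod_summable S (show -(1 / 2) - 2 / 3 < (-1 : ℝ) by norm_num) D 0)
  set K1 : ℝ := ∑' p : S.X × ℕ, D * ((S.N p.1 : ℝ) ^ ((-(1 / 2) - 2 / 3 : ℝ)) *
    (3 / 4 : ℝ) ^ (p.2 - 0)) with hK1
  refine ⟨2 * (K + 1) + |K1| + |ρ| * 8 + |L|, fun w hw hw1 => ?_⟩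
  rw [Real.rpow_one, pow_one]
  set X := (1 + ‖w‖) * (1 / w.re) with hX
  have h6 : 1 ≤ 1 / w.re := by rw [one_le_div hw]; exact hw1
  have hX1 : 1 ≤ X := by
    rw [hX]
    have := norm_nonneg w
    nlinarith
  have h1 : ‖Λ w‖ ≤ (2 * (K + 1) + |K1|) * X := by
    rcases le_or_gt w.re (2 / 3) with h2 | h2
    · have h3 := hardy_ptw hΛd hK hH hw h2
      have h4 : 0 ≤ |K1| * X := by positivity
      rw [add_mul]
      linarith
    · have h3 : ‖Λ w‖ ≤ K1 := by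
        rw [hΛ w (by linarith), Lam_eq E (by linarith)]
        exact tsum_of_norm_bounded hsum.hasSum fun p => E.LL_le p (by norm_num) h2.le
      have h4 : |K1| ≤ |K1| * X := le_mul_of_one_le_right (abs_nonneg _) hX1
      have h5 : 0 ≤ 2 * (K + 1) * X := by positivity
      have := le_abs_self K1
      rw [add_mul]
      linarith
  have h2 := log_le_simple hw hw1
  unfold gg
  calc ‖Λ w - ρ * Complex.log w - L‖ ≤ ‖Λ w‖ + |ρ| * ‖Complex.log w‖ + |L| := by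
        refine (norm_sub_le _ _).trans ?_
        rw [Complex.norm_real, Real.norm_eq_abs]
        gcongr
        refine (norm_sub_le _ _).trans ?_
        rw [norm_mul, Complex.norm_real, Real.norm_eq_abs]
    _ ≤ (2 * (K + 1) + |K1|) * X + |ρ| * (8 * X) + |L| * X := by
        have h3 : |L| ≤ |L| * X := le_mul_of_one_le_right (abs_nonneg _) hX1
        gcongr
    _ = _ := by ring

/-- **The second remainder has polynomial growth.** -/
theorem rem_two_poly (E : TData S (tn S bad tr ω) D)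
    (hm : MeromorphicAt F (((ω + 1) / 2 : ℝ) : ℂ))
    (hn : meromorphicOrderAt F (((ω + 1) / 2 : ℝ) : ℂ) = n)
    (hΛd : ∀ w : ℂ, 0 < w.re → DifferentiableAt ℂ Λ w)
    (hΛe : ∀ w : ℂ, 0 < w.re → Complex.exp (Λ w) = F (((ω : ℂ) + 1) / 2 + w))
    (hΛ : ∀ w : ℂ, 1 / 2 < w.re → Λ w = Lam S bad tr ω w) {K : ℝ} (hK : 0 ≤ K)
    (hH : ∀ σ : ℝ, 0 < σ → σ ≤ 1 → ∫⁻ t : ℝ,
        ENNReal.ofReal (‖Λ ((σ : ℂ) + t * Complex.I)‖ ^ 2 / (1 + t ^ 2)) ≤ ENNReal.ofReal K) :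
    WSq (rem (ap S (tn S bad tr ω)) n L 2) := by
  have P := pair E
  set a := ap S (tn S bad tr ω) with ha
  obtain ⟨δ, hδ, M, hd, hM⟩ := gg_near (L := L) hm hn hΛd hΛe
  obtain ⟨M', hM'⟩ := gg_near_bdd hδ hd hM
  obtain ⟨C, hC⟩ := gg_poly (ρ := n) (L := L) E hΛd hΛ hK hH
  obtain ⟨C', hC'⟩ := inv_bound (f := rem a n L 2) (rem_meas P.am 2) (fun u hu => by
      have h1 : ContinuousAt (EP.intU (rem a n L 1)) u :=
        intU_cont (rem_meas P.am 1) (rem_loc P.al 0) hu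
      refine h1.congr ?_
      filter_upwards [Ioi_mem_nhds hu] with v hv
      exact rem_intU P.am P.al 1 hv)
    ((rem_LInt one_pos).mpr (ap_half E 2 1 (by norm_num)))
    (h := gg Λ n L) (fun w hw => gg_diff hΛd hw) (i := 1) (A := 1) (β := 1) (δ := δ / 2)
    (by positivity) (by norm_num) hM' hC (fun w hw => by
      have := lapC_rem_half (ρ := n) (L := L) E (k := 2) (fun w hw => lapC_ria_two E hw)
        (w := w) (by rw [hw]; norm_num)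
      unfold gg
      rw [hΛ w (by rw [hw]; norm_num)]
      exact this)
  obtain ⟨B, hB⟩ := rem_loc (ρ := n) (L := L) P.al 1 1
  refine wsq_of_poly (C0 := |B| + 2 * |C'|) (k := 2) fun u hu => ?_
  have h1 : (1 : ℝ) ≤ (1 + u) ^ 2 := by nlinarith
  rcases le_or_gt u 1 with h2 | h2
  · have h3 := hB u hu h2
    have h4 : |B| * 1 ≤ |B| * (1 + u) ^ 2 := mul_le_mul_of_nonneg_left h1 (abs_nonneg B)
    have h5 : 0 ≤ 2 * |C'| * (1 + u) ^ 2 := by positivity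
    have := le_abs_self B
    rw [add_mul]
    linarith
  · have h3 := hC' u h2.le
    have h4 : u ^ (1 + 1) + u ^ 1 ≤ 2 * (1 + u) ^ 2 := by
      have e : u ^ (1 + 1) + u ^ 1 = u ^ 2 + u := by ring
      rw [e]
      nlinarith [sq_nonneg u]
    have h5 : C' * (u ^ (1 + 1) + u ^ 1) ≤ |C'| * (2 * (1 + u) ^ 2) := by
      calc C' * (u ^ (1 + 1) + u ^ 1) ≤ |C'| * (u ^ (1 + 1) + u ^ 1) :=
            mul_le_mul_of_nonneg_right (le_abs_self _) (by positivity)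
        _ ≤ _ := mul_le_mul_of_nonneg_left h4 (abs_nonneg _)
    have h6 : 0 ≤ |B| * (1 + u) ^ 2 := by positivity
    rw [add_mul]
    linarith

end Pool.Agent.W263.MS
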