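import Pool.Agent.W263.MS.Hardy2

/-! The mean square is equivalent to the Hardy class condition. -/

set_option autoImplicit false

namespace Pool.Agent.W263.MS

open MeasureTheory Filter Topology Set Classical
open Pool.Agent.W263.BSD Pool.Agent.W263.EP Pool.Agent.W263.MN Pool.Agent.W263.LG
open Pool.Agent.H341R2 (NormSys)
open scoped ENNReal

variable {S : NormSys} {bad : Set S.X} {tr : S.X → ℕ → ℝ} {ω : ℝ} {D : ℝ}
  {F Λ : ℂ → ℂ} {ρ L : ℝ} {n : ℤ}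

theorem lapC_congr' {f g : ℝ → ℝ} {w : ℂ} (h : ∀ u, 0 < u → f u = g u) : lapC f w = lapC g w := by
  unfold lapC
  refine setIntegral_congr_fun measurableSet_Ioi fun u hu => ?_
  simp only [h u hu]

theorem wsq_congr {f g : ℝ → ℝ} (h : ∀ u, 0 < u → f u = g u) (hf : WSq f) : WSq g := by
  intro σ hσ
  refine lt_of_le_of_lt (le_of_eq ?_) (hf σ hσ)
  refine setLIntegral_congr_fun measurableSet_Ioi fun u hu => ?_
  simp only [h u hu]

/-- going down by one, on one line -/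
theorem down_line {a : ℝ → ℝ} (hm : Measurable a) (hl : Loc a) {k : ℕ}
    (hW : WSq (rem a ρ L (k + 1))) {σ : ℝ} (hσ : 0 < σ) {C : ℝ≥0∞}
    (hC : ∫⁻ y : ℝ, ENNReal.ofReal (‖((σ : ℂ) + y * Complex.I) *
      lapC (rem a ρ L (k + 1)) ((σ : ℂ) + y * Complex.I)‖ ^ 2) ≤ C) :
    ∫⁻ u in Ioi (0 : ℝ), ENNReal.ofReal ((rem a ρ L k u * Real.exp (-(σ * u))) ^ 2) ≤
      ENNReal.ofReal (Real.exp (2 * σ)) * C := by
  have hint : ∀ u, 0 < u → EP.intU (rem a ρ L k) u = rem a ρ L (k + 1) u := fun u hu =>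
    rem_intU hm hl k hu
  have hm' : Measurable (EP.intU (rem a ρ L k)) := EP.intU_meas (rem_meas hm k)
  have h0 : ∀ u, u ≤ 0 → EP.intU (rem a ρ L k) u = 0 := by
    intro u hu
    unfold EP.intU
    rw [Ioc_eq_empty (by linarith)]
    simp
  have hW' : WSq (EP.intU (rem a ρ L k)) := wsq_congr (fun u hu => (hint u hu).symm) hW
  obtain ⟨hPi, hP2⟩ := P_of_wsq hm' h0 hW' hσ
  have hI : ∀ w > 0, LInt (EP.intU (rem a ρ L k)) w := fun w hw => LInt_of_sq hm' hW' hw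
  have hlap : ∀ w : ℂ, lapC (EP.intU (rem a ρ L k)) w = lapC (rem a ρ L (k + 1)) w := fun w =>
    lapC_congr' hint
  refine line_sq (rem_meas hm k) (rem_int hm hl k) hσ hPi hP2 ?_ ?_
  · refine continuous_iff_continuousAt.mpr fun y => ?_
    have h1 : ContinuousAt (lapC (EP.intU (rem a ρ L k))) ((σ : ℂ) + y * Complex.I) :=
      (lapC_differentiableAt hm' hI (by simpa using hσ)).continuousAt
    exact ContinuousAt.comp (f := fun y : ℝ => (σ : ℂ) + y * Complex.I) h1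
      (by fun_prop : Continuous fun y : ℝ => (σ : ℂ) + y * Complex.I).continuousAt
  · simp only [hlap]
    exact hC

theorem wsq_of_le_one {h : ℝ → ℝ} (hh : ∀ σ : ℝ, 0 < σ → σ ≤ 1 →
    ∫⁻ u in Ioi (0 : ℝ), ENNReal.ofReal ((h u * Real.exp (-(σ * u))) ^ 2) < ⊤) : WSq h := by
  intro σ hσ
  rcases le_or_gt σ 1 with h1 | h1
  · exact hh σ hσ h1
  · refine lt_of_le_of_lt (setLIntegral_mono' measurableSet_Ioi fun u hu => ?_) (hh 1 one_pos le_rfl)
    have hu0 : (0 : ℝ) < u := hu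
    refine ENNReal.ofReal_le_ofReal ?_
    rw [mul_pow, mul_pow]
    refine mul_le_mul_of_nonneg_left ?_ (sq_nonneg _)
    refine pow_le_pow_left₀ (Real.exp_pos _).le (Real.exp_le_exp.mpr ?_) 2
    nlinarith

theorem norm_sq_line (σ y : ℝ) : ‖(σ : ℂ) + y * Complex.I‖ ^ 2 = σ ^ 2 + y ^ 2 := by
  rw [Complex.sq_norm, Complex.normSq_apply]
  simp
  ring

/-- **From the Hardy class to the mean square.** -/
theorem hardy_sq (E : TData S (tn S bad tr ω) D)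
    (he : ∀ s : ℂ, (ω + 2) / 2 < s.re → F s = LF S bad tr s)
    (hm : MeromorphicAt F (((ω + 1) / 2 : ℝ) : ℂ))
    (hn : meromorphicOrderAt F (((ω + 1) / 2 : ℝ) : ℂ) = n) (hL : CLim ((ω + 1) / 2) F n L)
    (hH : HardyLog ((ω + 1) / 2) F) :
    ∫⁻ u in Ioi (0 : ℝ), ENNReal.ofReal (rem (ap S (tn S bad tr ω)) n L 0 u ^ 2) < ⊤ := by
  have P := pair E
  obtain ⟨Λ, hΛd, hΛe, hΛ, K, hK, hH'⟩ := hardy_norm E he hH
  set a := ap S (tn S bad tr ω) with ha
  have hF : IsFull S bad tr ω F := ⟨fun s hs => (F_diff hΛd hΛe hs).differentiableWithinAt,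
    fun s hs => by
      have h1 := hΛe (s - ((ω : ℂ) + 1) / 2) (by
        rw [Complex.sub_re, ← c_cast, Complex.ofReal_re]; linarith)
      rw [add_sub_cancel] at h1
      rw [← h1]
      exact Complex.exp_ne_zero _, he⟩
  have W2 := rem_two_poly (L := L) E hm hn hΛd hΛe hΛ hK hH'
  have I2 : ∀ w > 0, LInt (rem a n L 2) w := fun w hw => LInt_of_sq (rem_meas P.am 2) W2 hw
  obtain ⟨C, hC0, hC⟩ := int_log
  -- lines for the remainder of the logarithm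
  have hg : ∀ σ : ℝ, 0 < σ → σ ≤ 1 → ∫⁻ y : ℝ,
      ENNReal.ofReal (‖gg Λ n L ((σ : ℂ) + y * Complex.I)‖ ^ 2 / (1 + y ^ 2)) ≤
      ENNReal.ofReal (3 * K + 3 * (n : ℝ) ^ 2 * C + 3 * L ^ 2 * Real.pi) := fun σ hσ hσ1 =>
    comb_le hσ (fun y => rfl) hK hC0 (hH' σ hσ hσ1) (hC σ hσ hσ1)
  -- from level two to level one
  have W1 : WSq (rem a n L 1) := by
    refine wsq_of_le_one fun σ hσ hσ1 => ?_
    refine lt_of_le_of_lt (down_line P.am P.al (k := 1) W2 hσ (C := ENNReal.ofReal (1 / σ ^ 4) *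
      ENNReal.ofReal (3 * K + 3 * (n : ℝ) ^ 2 * C + 3 * L ^ 2 * Real.pi)) ?_) ?_
    · refine le_trans ?_ (mul_le_mul' le_rfl (hg σ hσ hσ1))
      rw [← lintegral_const_mul' _ _ ENNReal.ofReal_ne_top]
      refine lintegral_mono fun y => ?_
      rw [← ENNReal.ofReal_mul (by positivity)]
      refine ENNReal.ofReal_le_ofReal ?_
      set w : ℂ := (σ : ℂ) + y * Complex.I with hw
      have hwre : 0 < w.re := by rw [hw]; simpa using hσ
      have h1 := lapC_rem_all (k := 2) E (fun w hw => lapC_ria_two E hw) hΛd hΛ I2 hwre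
      have hwn : 0 < ‖w‖ := hwre.trans_le (re_le w)
      have h2 : ‖w * lapC (rem a n L 2) w‖ * ‖w‖ ^ 2 = ‖gg Λ n L w‖ := by
        unfold gg
        rw [← h1, norm_mul, norm_mul, norm_pow]
        ring
      have h3 : ‖w * lapC (rem a n L 2) w‖ = ‖gg Λ n L w‖ / ‖w‖ ^ 2 := by
        rw [← h2, mul_div_cancel_right₀ _ (by positivity)]
      have h4 : ‖w‖ ^ 2 = σ ^ 2 + y ^ 2 := norm_sq_line σ y
      rw [show (1 + 1 : ℕ) = 2 from rfl, h3, div_pow, h4, one_div_mul_eq_div, div_div]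
      have h5 : σ ^ 4 * (1 + y ^ 2) ≤ (σ ^ 2 + y ^ 2) ^ 2 := by
        have h6 : σ ^ 2 * (1 + y ^ 2) ≤ σ ^ 2 + y ^ 2 := by
          have : σ ^ 2 * y ^ 2 ≤ 1 * y ^ 2 := by gcongr; nlinarith
          linarith
        have h7 : σ ^ 2 ≤ σ ^ 2 + y ^ 2 := by linarith [sq_nonneg y]
        calc σ ^ 4 * (1 + y ^ 2) = σ ^ 2 * (σ ^ 2 * (1 + y ^ 2)) := by ring
          _ ≤ (σ ^ 2 + y ^ 2) * (σ ^ 2 + y ^ 2) := by gcongr
          _ = _ := by ring
      have h8 : (1 + y ^ 2) * σ ^ 4 = σ ^ 4 * (1 + y ^ 2) := by ring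
      rw [h8]
      exact div_le_div_of_nonneg_left (by positivity) (by positivity) h5
    · exact ENNReal.mul_lt_top ENNReal.ofReal_lt_top
        (ENNReal.mul_lt_top ENNReal.ofReal_lt_top ENNReal.ofReal_lt_top)
  have I1 : ∀ w > 0, LInt (rem a n L 1) w := fun w hw => LInt_of_sq (rem_meas P.am 1) W1 hw
  have hconv : ∀ w > 0, LInt (EP.ria a 1) w := fun w hw => (rem_LInt hw).mp (I1 w hw)
  have hid : ∀ w : ℂ, 0 < w.re → w ^ 2 * lapC (rem a n L 1) w = gg Λ n L w := fun w hw =>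
    lapC_rem_all (k := 1) E (fun w _ => lapC_ria_one w) hΛd hΛ I1 hw
  -- near the centre
  obtain ⟨δ, hδ, M, hd, hM⟩ := gg_near (L := L) hm hn hΛd hΛe
  have hgzero : Tendsto (fun x : ℝ => gg Λ n L x) (𝓝[>] 0) (𝓝 0) := by
    have h1 : LimL (fun w => F (((ω : ℂ) + 1) / 2 + w)) n L := hL.shift
    have h2 : Tendsto (fun w : ℝ => w ^ 2 * lap (rem a n L 1) w) (𝓝[>] 0) (𝓝 0) :=
      (limL_iff (k := 1) (dataP E hF.isCont) hconv).mp h1
    have h3 : Tendsto (fun w : ℝ => ((w ^ 2 * lap (rem a n L 1) w : ℝ) : ℂ)) (𝓝[>] 0)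
        (𝓝 ((0 : ℝ) : ℂ)) := (Complex.continuous_ofReal.tendsto 0).comp h2
    rw [Complex.ofReal_zero] at h3
    refine h3.congr' ?_
    filter_upwards [self_mem_nhdsWithin] with x hx
    have hx0 : (0 : ℝ) < x := hx
    rw [← hid x (by simpa using hx0), lapC_ofReal]
    push_cast
    rfl
  have hnear : ∀ w : ℂ, 0 < w.re → ‖w‖ < δ → ‖gg Λ n L w‖ ≤ M * ‖w‖ := fun w hw hwδ =>
    near_zero hδ hd hM hgzero hw hwδ
  obtain ⟨K2, hK20, hK2⟩ := transform_bound (Λ := Λ) (g := gg Λ n L)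
    (G := fun w => w * lapC (rem a n L 1) w) (ρ := n) (L := L) hδ (fun w _ => rfl)
    (fun w hw => by rw [← mul_assoc, ← pow_two, hid w hw]) hnear
  -- the bound on all lines
  set I0 : ℝ := ∫ y : ℝ, (1 + |y|) ^ (1 / 2 : ℝ) / (1 + y ^ 2) with hI0
  have hlines : ∀ σ : ℝ, 0 < σ → σ ≤ 1 → ∫⁻ y : ℝ, ENNReal.ofReal (‖((σ : ℂ) + y * Complex.I) *
      lapC (rem a n L 1) ((σ : ℂ) + y * Complex.I)‖ ^ 2) ≤
      ENNReal.ofReal (2 * K2 ^ 2) * (ENNReal.ofReal I0 + ENNReal.ofReal K) := by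
    intro σ hσ hσ1
    have hm1 : Measurable fun y : ℝ => ENNReal.ofReal ((1 + |y|) ^ (1 / 2 : ℝ) / (1 + y ^ 2)) := by
      fun_prop
    have key : ∀ y : ℝ, ENNReal.ofReal (‖((σ : ℂ) + y * Complex.I) *
        lapC (rem a n L 1) ((σ : ℂ) + y * Complex.I)‖ ^ 2) ≤ ENNReal.ofReal (2 * K2 ^ 2) *
        (ENNReal.ofReal ((1 + |y|) ^ (1 / 2 : ℝ) / (1 + y ^ 2)) +
          ENNReal.ofReal (‖Λ ((σ : ℂ) + y * Complex.I)‖ ^ 2 / (1 + y ^ 2))) := by
      intro y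
      rw [← ENNReal.ofReal_add (by positivity) (by positivity), ← ENNReal.ofReal_mul (by positivity)]
      refine ENNReal.ofReal_le_ofReal ?_
      have h1 := hK2 σ hσ hσ1 y
      set p : ℝ := (1 + |y|) ^ (1 / 4 : ℝ) with hp
      have e1 : p ^ 2 = (1 + |y|) ^ (1 / 2 : ℝ) := by
        rw [hp, ← Real.rpow_natCast, ← Real.rpow_mul (by positivity)]
        norm_num
      rw [← e1]
      set A := ‖Λ ((σ : ℂ) + y * Complex.I)‖ with hA
      have hp0 : 0 ≤ p := by positivity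
      have hy : 0 < 1 + |y| := by positivity
      calc ‖((σ : ℂ) + y * Complex.I) * lapC (rem a n L 1) ((σ : ℂ) + y * Complex.I)‖ ^ 2 ≤
          (K2 * (A + p) / (1 + |y|)) ^ 2 := pow_le_pow_left₀ (norm_nonneg _) h1 2
        _ = K2 ^ 2 * (A + p) ^ 2 / (1 + |y|) ^ 2 := by rw [div_pow, mul_pow]
        _ ≤ K2 ^ 2 * (2 * (p ^ 2 + A ^ 2)) / (1 + y ^ 2) := by
            have h2 : (A + p) ^ 2 ≤ 2 * (p ^ 2 + A ^ 2) := by nlinarith [sq_nonneg (A - p)]
            have h3 : 1 + y ^ 2 ≤ (1 + |y|) ^ 2 := by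
              have := sq_abs y
              nlinarith [abs_nonneg y]
            gcongr
        _ = _ := by ring
    refine (lintegral_mono key).trans ?_
    rw [lintegral_const_mul' _ _ ENNReal.ofReal_ne_top, lintegral_add_left hm1,
      ← ofReal_integral_eq_lintegral_ofReal int_root (Eventually.of_forall fun y => by positivity)]
    exact mul_le_mul' le_rfl (add_le_add le_rfl (hH' σ hσ hσ1))
  have hfin : ∀ σ : ℝ, 0 < σ → σ ≤ 1 →
      ∫⁻ u in Ioi (0 : ℝ), ENNReal.ofReal ((rem a n L 0 u * Real.exp (-(σ * u))) ^ 2) ≤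
      ENNReal.ofReal (Real.exp 2) * (ENNReal.ofReal (2 * K2 ^ 2) *
        (ENNReal.ofReal I0 + ENNReal.ofReal K)) := by
    intro σ hσ hσ1
    refine (down_line P.am P.al (k := 0) W1 hσ (hlines σ hσ hσ1)).trans ?_
    refine mul_le_mul' (ENNReal.ofReal_le_ofReal (Real.exp_le_exp.mpr (by linarith))) le_rfl
  refine lt_of_le_of_lt (sq_of_all (rem_meas P.am 0) hfin) ?_
  exact ENNReal.mul_lt_top ENNReal.ofReal_lt_top (ENNReal.mul_lt_top ENNReal.ofReal_lt_top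
    (ENNReal.add_lt_top.mpr ⟨ENNReal.ofReal_lt_top, ENNReal.ofReal_lt_top⟩))

end Pool.Agent.W263.MS
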