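import Pool.Agent.W743.BE.Land
import Pool.Agent.W263.MN.BC

/-! A pointwise bound for an analytic logarithm in a half plane, with the nearby zeros exposed. -/

set_option autoImplicit false

namespace Pool.Agent.W263.MS

open MeasureTheory Filter Topology Set Metric
open Pool.Agent.W743.BE

/-- `|u|^(-p)` cut off at `1` -/
noncomputable def psi (p : ℝ) (u : ℝ) : ℝ := (Icc (-1 : ℝ) 1).indicator (fun u => |u| ^ (-p)) u

theorem psi_nonneg (p u : ℝ) : 0 ≤ psi p u := by
  unfold psi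
  exact Set.indicator_nonneg (fun _ _ => Real.rpow_nonneg (abs_nonneg _) _) _

theorem psi_meas (p : ℝ) : Measurable (psi p) := by
  unfold psi
  exact Measurable.indicator (by fun_prop) measurableSet_Icc

theorem psi_integrable {p : ℝ} (hp : p < 1) : Integrable (psi p) := by
  have h1 : IntegrableOn (fun u : ℝ => |u| ^ (-p)) (Ioc 0 1) := by
    have h2 := intervalIntegral.intervalIntegrable_rpow' (a := 0) (b := 1) (r := -p) (by linarith)
    rw [intervalIntegrable_iff_integrableOn_Ioc_of_le zero_le_one] at h2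
    exact h2.congr_fun (fun u hu => by simp only []; rw [abs_of_pos hu.1]) measurableSet_Ioc
  have h2 : IntegrableOn (fun u : ℝ => |u| ^ (-p)) (Icc 0 1) := by
    rw [integrableOn_Icc_iff_integrableOn_Ioc]; exact h1
  have h3 : IntegrableOn (fun u : ℝ => |u| ^ (-p)) (Icc (-1) 0) := by
    have h4 : IntegrableOn ((fun u : ℝ => |u| ^ (-p)) ∘ Neg.neg) (Neg.neg ⁻¹' (Icc (0 : ℝ) 1)) :=
      (Measure.measurePreserving_neg (volume : Measure ℝ)).integrableOn_comp_preimage
        (Homeomorph.neg ℝ).measurableEmbedding |>.mpr h2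
    have e1 : Neg.neg ⁻¹' (Icc (0 : ℝ) 1) = Icc (-1) 0 := by
      ext x; simp only [mem_preimage, mem_Icc]
      constructor
      · rintro ⟨a, b⟩; exact ⟨by linarith, by linarith⟩
      · rintro ⟨a, b⟩; exact ⟨by linarith, by linarith⟩
    rw [e1] at h4
    refine h4.congr_fun (fun u _ => ?_) measurableSet_Icc
    simp only [Function.comp, abs_neg]
  have h4 : IntegrableOn (fun u : ℝ => |u| ^ (-p)) (Icc (-1) 1) := by
    have := h3.union h2
    rwa [Icc_union_Icc_eq_Icc (by norm_num) (by norm_num)] at this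
  exact (integrable_indicator_iff measurableSet_Icc).mpr h4

theorem rpow_le_psi {p : ℝ} (hp : 0 ≤ p) (u : ℝ) : |u| ^ (-p) ≤ 1 + psi p u := by
  by_cases h : u ∈ Icc (-1 : ℝ) 1
  · unfold psi
    rw [indicator_of_mem h]
    linarith
  · have h1 : 1 ≤ |u| := by
      by_contra h2
      push Not at h2
      rw [abs_lt] at h2
      exact h ⟨h2.1.le, h2.2.le⟩
    have h2 : |u| ^ (-p) ≤ 1 := Real.rpow_le_one_of_one_le_of_nonpos h1 (by linarith)
    have := psi_nonneg p u
    linarith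

/-- the window integral of `|x - b|^(-p)` is bounded -/
theorem window {p : ℝ} (hp : 0 ≤ p) (hp1 : p < 1) {a b β : ℝ} (hab : a ≤ b) :
    IntegrableOn (fun x => |x - β| ^ (-p)) (Icc a b) ∧
      ∫ x in Icc a b, |x - β| ^ (-p) ≤ (b - a) + ∫ u, psi p u := by
  have h1 : Integrable (fun x => psi p (x - β)) := (psi_integrable hp1).comp_sub_right β
  have hm : Measurable (fun x : ℝ => |x - β| ^ (-p)) := by fun_prop
  have h2 : IntegrableOn (fun x => 1 + psi p (x - β)) (Icc a b) :=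
    (continuousOn_const.integrableOn_compact isCompact_Icc).add h1.integrableOn
  have h3 : IntegrableOn (fun x => |x - β| ^ (-p)) (Icc a b) := by
    refine h2.mono' hm.aestronglyMeasurable (Eventually.of_forall fun x => ?_)
    rw [Real.norm_eq_abs, abs_of_nonneg (Real.rpow_nonneg (abs_nonneg _) _)]
    exact rpow_le_psi hp _
  refine ⟨h3, ?_⟩
  calc ∫ x in Icc a b, |x - β| ^ (-p) ≤ ∫ x in Icc a b, (1 + psi p (x - β)) :=
        integral_mono h3 h2 fun x => rpow_le_psi hp _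
    _ = (b - a) + ∫ x in Icc a b, psi p (x - β) := by
        rw [integral_add (integrable_const _) h1.integrableOn]
        congr 1
        rw [integral_const, smul_eq_mul, mul_one, Measure.real, Measure.restrict_apply_univ,
          Real.volume_Icc, ENNReal.toReal_ofReal (by linarith)]
    _ ≤ (b - a) + ∫ x, psi p (x - β) := by
        gcongr
        · exact Eventually.of_forall fun x => psi_nonneg _ _
        · exact Measure.restrict_le_self
    _ = _ := by rw [integral_sub_right_eq_self (fun x => psi p x) β]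

/-- multisets as finite families -/
theorem fam (s : Multiset ℂ) : ∃ (n : ℕ) (ρ : Fin n → ℂ), Multiset.card s = n ∧
    (∀ z, z ∈ s → ∃ i, ρ i = z) ∧ ∀ f : ℂ → ℝ, (s.map f).sum = ∑ i, f (ρ i) := by
  induction s using Multiset.induction_on with
  | empty => exact ⟨0, fun i => i.elim0, by simp, by simp, by simp⟩
  | cons a s ih =>
    obtain ⟨n, ρ, h1, h2, h3⟩ := ih
    refine ⟨n + 1, Fin.cons a ρ, by simp [h1], ?_, ?_⟩
    · intro z hz
      rw [Multiset.mem_cons] at hz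
      rcases hz with rfl | hz
      · exact ⟨0, by simp⟩
      · obtain ⟨i, hi⟩ := h2 z hz
        exact ⟨i.succ, by simp [hi]⟩
    · intro f
      rw [Multiset.map_cons, Multiset.sum_cons, h3, Fin.sum_univ_succ]
      simp

theorem inv_norm_le {u t : ℝ} (hu : u ≠ 0) (ht : t ≠ 0) {z : ℂ} (hz1 : z.re = u) (hz2 : z.im = t) :
    1 / ‖z‖ ≤ |u| ^ (-(3 / 4) : ℝ) * |t| ^ (-(1 / 4) : ℝ) := by
  have hu' : 0 < |u| := abs_pos.mpr hu
  have ht' : 0 < |t| := abs_pos.mpr ht
  have h1 : |u| ≤ ‖z‖ := by rw [← hz1]; exact Complex.abs_re_le_norm z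
  have h2 : |t| ≤ ‖z‖ := by rw [← hz2]; exact Complex.abs_im_le_norm z
  have hz : 0 < ‖z‖ := hu'.trans_le h1
  have h3 : |u| ^ (3 / 4 : ℝ) * |t| ^ (1 / 4 : ℝ) ≤ ‖z‖ := by
    calc |u| ^ (3 / 4 : ℝ) * |t| ^ (1 / 4 : ℝ) ≤ ‖z‖ ^ (3 / 4 : ℝ) * ‖z‖ ^ (1 / 4 : ℝ) := by gcongr
      _ = ‖z‖ := by
        rw [← Real.rpow_add hz]
        norm_num
  have h4 : |u| ^ (-(3 / 4) : ℝ) * |t| ^ (-(1 / 4) : ℝ) =
      1 / (|u| ^ (3 / 4 : ℝ) * |t| ^ (1 / 4 : ℝ)) := by
    rw [Real.rpow_neg hu'.le, Real.rpow_neg ht'.le, one_div (_ * _), mul_inv]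
  rw [h4]
  exact one_div_le_one_div_of_le (by positivity) h3

/-- horizontal integral of `1 / |x + i y - ρ|` -/
theorem horiz {a b y : ℝ} {ρ : ℂ} (hab : a ≤ b) (hy : y ≠ ρ.im) :
    ∫ x in Icc a b, 1 / ‖(x : ℂ) + y * Complex.I - ρ‖ ≤
      ((b - a) + ∫ u, psi (3 / 4) u) * |y - ρ.im| ^ (-(1 / 4) : ℝ) := by
  obtain ⟨h1, h2⟩ := window (p := 3 / 4) (by norm_num) (by norm_num) (β := ρ.re) hab
  have ht : y - ρ.im ≠ 0 := sub_ne_zero.mpr hy
  have h3 : ∫ x in Icc a b, 1 / ‖(x : ℂ) + y * Complex.I - ρ‖ ≤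
      ∫ x in Icc a b, |x - ρ.re| ^ (-(3 / 4) : ℝ) * |y - ρ.im| ^ (-(1 / 4) : ℝ) := by
    have hc : Continuous fun x : ℝ => 1 / ‖(x : ℂ) + y * Complex.I - ρ‖ := by
      refine continuous_const.div (by fun_prop) fun x h0 => ht ?_
      rw [norm_eq_zero] at h0
      have := congrArg Complex.im h0
      simpa using this
    refine integral_mono_ae hc.integrableOn_Icc (h1.mul_const _) ?_
    have h4 : ∀ᵐ x : ℝ ∂(volume.restrict (Icc a b)), x ≠ ρ.re := by
      refine ae_restrict_of_ae ?_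
      rw [ae_iff]
      simp
    filter_upwards [h4] with x hx
    exact inv_norm_le (sub_ne_zero.mpr hx) ht (by simp) (by simp)
  refine h3.trans ?_
  rw [integral_mul_const]
  exact mul_le_mul_of_nonneg_right h2 (Real.rpow_nonneg (abs_nonneg _) _)

theorem log_le_qr {y : ℝ} (hy : 1 ≤ y) : Real.log y ≤ 4 * y ^ (1 / 4 : ℝ) := by
  have h0 : 0 < y := by linarith
  have h1 : Real.log y = 4 * Real.log (y ^ (1 / 4 : ℝ)) := by
    rw [Real.log_rpow h0]; ring
  have h2 : Real.log (y ^ (1 / 4 : ℝ)) ≤ y ^ (1 / 4 : ℝ) - 1 :=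
    Real.log_le_sub_one_of_pos (by positivity)
  linarith

/-- **Pointwise bound.** -/
theorem ptw {f Λ : ℂ → ℂ} {C m KΛ : ℝ} {A : ℕ} (hm : 0 < m)
    (hf : ∀ w : ℂ, -1 < w.re → DifferentiableAt ℂ f w)
    (hf0 : ∀ w : ℂ, 0 < w.re → f w ≠ 0)
    (hg : ∀ w : ℂ, -1 < w.re → ‖f w‖ ≤ C * (1 + ‖w‖) ^ A)
    (hlow : ∀ w : ℂ, w.re = 2 → m ≤ ‖f w‖)
    (hΛ : ∀ w : ℂ, 0 < w.re → HasDerivAt Λ (deriv f w / f w) w)
    (hΛ2 : ∀ w : ℂ, w.re = 2 → ‖Λ w‖ ≤ KΛ) :
    ∃ K : ℝ, 0 ≤ K ∧ ∀ y0 : ℝ, ∃ (n : ℕ) (t : Fin n → ℝ), (n : ℝ) ≤ K * (1 + |y0|) ^ (1 / 4 : ℝ) ∧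
      ∀ σ : ℝ, 0 < σ → σ ≤ 1 → ∀ y : ℝ, |y - y0| ≤ 1 / 2 → (∀ i, y ≠ t i) →
        ‖Λ ((σ : ℂ) + y * Complex.I)‖ ≤ K * (1 + |y0|) ^ (1 / 4 : ℝ) +
          K * ∑ i, |y - t i| ^ (-(1 / 4) : ℝ) := by
  set q : ℝ := 1 / Real.log (29 / 10 / (5 / 2)) with hq
  have hlog1 : 0 < Real.log (29 / 10 / (5 / 2) : ℝ) := Real.log_pos (by norm_num)
  have hq0 : 0 < q := by rw [hq]; positivity
  set lr : ℝ := Real.log (5 / 2 / (29 / 10 - 5 / 2)) with hlr
  have hlr0 : 0 ≤ lr := Real.log_nonneg (by norm_num)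
  set KB : ℝ := |Real.log ((|C| + 1) / m)| + A * (Real.log 6 + 4) with hKB
  have hlog6 : 0 ≤ Real.log 6 := Real.log_nonneg (by norm_num)
  have hKB0 : 0 ≤ KB := by positivity
  set KE : ℝ := 2 * (KB + KB * q * lr + 1) * (11 / 5) / (5 / 2 - 11 / 5) / (11 / 5 - 21 / 10) with hKE
  have hKE0 : 0 ≤ KE := by
    rw [hKE]
    have : (0 : ℝ) ≤ 5 / 2 - 11 / 5 := by norm_num
    have : (0 : ℝ) ≤ 11 / 5 - 21 / 10 := by norm_num
    positivity
  set Cp : ℝ := ∫ u, psi (3 / 4) u with hCp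
  have hCp0 : 0 ≤ Cp := integral_nonneg fun u => psi_nonneg _ _
  refine ⟨|KΛ| + 2 * KE + q * KB + 2 + Cp, by positivity, fun y0 => ?_⟩
  set Y : ℝ := (1 + |y0|) ^ (1 / 4 : ℝ) with hY
  have hY1 : 1 ≤ Y := Real.one_le_rpow (by linarith [abs_nonneg y0]) (by norm_num)
  set c : ℂ := 2 + y0 * Complex.I with hc
  have hcre : c.re = 2 := by simp [hc]
  have hcim : c.im = y0 := by simp [hc]
  have hcn : ‖c‖ ≤ 2 + |y0| := by
    rw [hc]
    refine (norm_add_le _ _).trans ?_
    rw [norm_mul, Complex.norm_I, mul_one, Complex.norm_real, Real.norm_eq_abs]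
    simp
  set M : ℝ := |C| * (6 + |y0|) ^ A + 1 with hM
  have hM1 : 1 ≤ M := by
    have : 0 ≤ |C| * (6 + |y0|) ^ A := by positivity
    linarith
  have hball : ∀ z ∈ closedBall c (29 / 10), -1 < z.re := by
    intro z hz
    rw [mem_closedBall, dist_eq_norm] at hz
    have h1 := (abs_le.mp ((Complex.abs_re_le_norm (z - c)).trans hz)).1
    rw [Complex.sub_re, hcre] at h1
    linarith
  have hb : ∀ z ∈ closedBall c (29 / 10), ‖f z‖ ≤ M := by
    intro z hz
    refine (hg z (hball z hz)).trans ?_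
    rw [mem_closedBall, dist_eq_norm] at hz
    have h1 : ‖z‖ ≤ 5 + |y0| := by
      calc ‖z‖ = ‖(z - c) + c‖ := by congr 1; ring
        _ ≤ ‖z - c‖ + ‖c‖ := norm_add_le _ _
        _ ≤ 29 / 10 + (2 + |y0|) := add_le_add hz hcn
        _ ≤ _ := by linarith
    calc C * (1 + ‖z‖) ^ A ≤ |C| * (1 + ‖z‖) ^ A :=
          mul_le_mul_of_nonneg_right (le_abs_self C) (by positivity)
      _ ≤ |C| * (6 + |y0|) ^ A := by
          refine mul_le_mul_of_nonneg_left ?_ (abs_nonneg C)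
          exact pow_le_pow_left₀ (by positivity) (by linarith) A
      _ ≤ M := by rw [hM]; linarith
  have hfan : AnalyticOnNhd ℂ f (closedBall c (29 / 10)) := by
    intro z hz
    refine Complex.analyticAt_iff_eventually_differentiableAt.mpr ?_
    have ho : IsOpen {w : ℂ | -1 < w.re} := isOpen_lt continuous_const Complex.continuous_re
    filter_upwards [ho.mem_nhds (hball z hz)] with w hw using hf w hw
  have hmc : m ≤ ‖f c‖ := hlow c hcre
  have hfc : 0 < ‖f c‖ := hm.trans_le hmc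
  have hcmem : c ∈ closedBall c (29 / 10) := mem_closedBall_self (by norm_num)
  obtain ⟨s, hcard, hs⟩ := landau2 (f := f) (c := c) (r := 5 / 2) (r1 := 11 / 5) (r2 := 21 / 10)
    (R := 29 / 10) (M := M) (by norm_num) (by norm_num) (by norm_num) (by norm_num) (by norm_num)
    hM1 (hb c hcmem) hfan (norm_pos_iff.mp hfc) hb
  set B : ℝ := Real.log (M / ‖f c‖) with hB
  have hB0 : 0 ≤ B := Real.log_nonneg (by rw [le_div_iff₀ hfc]; linarith [hb c hcmem])
  have hBY : B ≤ KB * Y := by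
    have h6 : 0 < (6 : ℝ) + |y0| := by positivity
    have e1 : M / ‖f c‖ ≤ (|C| + 1) / m * (6 + |y0|) ^ A := by
      have h7 : M ≤ (|C| + 1) * (6 + |y0|) ^ A := by
        have h8 : (1 : ℝ) ≤ (6 + |y0|) ^ A := one_le_pow₀ (by linarith [abs_nonneg y0])
        rw [hM]; nlinarith [abs_nonneg C]
      calc M / ‖f c‖ ≤ M / m := div_le_div_of_nonneg_left (by linarith) hm hmc
        _ ≤ (|C| + 1) * (6 + |y0|) ^ A / m := by gcongr
        _ = _ := by ring
    have e2 : B ≤ Real.log ((|C| + 1) / m) + A * Real.log (6 + |y0|) := by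
      rw [hB]
      refine (Real.log_le_log (by positivity) e1).trans (le_of_eq ?_)
      rw [Real.log_mul (by positivity) (by positivity), Real.log_pow]
    have e3 : Real.log (6 + |y0|) ≤ (Real.log 6 + 4) * Y := by
      have h8 : Real.log (6 + |y0|) ≤ Real.log (6 * (1 + |y0|)) :=
        Real.log_le_log h6 (by linarith [abs_nonneg y0])
      rw [Real.log_mul (by norm_num) (by positivity)] at h8
      have h9 := log_le_qr (y := 1 + |y0|) (by linarith [abs_nonneg y0])
      rw [← hY] at h9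
      nlinarith
    have e4 : (A : ℝ) * Real.log (6 + |y0|) ≤ A * ((Real.log 6 + 4) * Y) :=
      mul_le_mul_of_nonneg_left e3 (Nat.cast_nonneg A)
    have e5 := le_abs_self (Real.log ((|C| + 1) / m))
    have e6 : |Real.log ((|C| + 1) / m)| ≤ |Real.log ((|C| + 1) / m)| * Y :=
      le_mul_of_one_le_right (abs_nonneg _) hY1
    rw [hKB]
    linarith
  set E : ℝ := 2 * (B + B / Real.log (29 / 10 / (5 / 2)) * lr + 1) * (11 / 5) /
    (5 / 2 - 11 / 5) / (11 / 5 - 21 / 10) with hE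
  have hBq : B / Real.log (29 / 10 / (5 / 2)) = B * q := by rw [hq]; ring
  have hEY : E ≤ KE * Y := by
    have h1 : B + B / Real.log (29 / 10 / (5 / 2)) * lr + 1 ≤ (KB + KB * q * lr + 1) * Y := by
      rw [hBq]
      have h2 : B * q * lr ≤ KB * Y * q * lr := by gcongr
      nlinarith
    rw [hE, hKE]
    have e : 2 * (KB + KB * q * lr + 1) * (11 / 5) / (5 / 2 - 11 / 5) / (11 / 5 - 21 / 10) * Y =
        2 * ((KB + KB * q * lr + 1) * Y) * (11 / 5) / (5 / 2 - 11 / 5) / (11 / 5 - 21 / 10) := by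
      ring
    rw [e]
    have : (0 : ℝ) < 5 / 2 - 11 / 5 := by norm_num
    have : (0 : ℝ) < 11 / 5 - 21 / 10 := by norm_num
    gcongr
  obtain ⟨n, ρ, hn, hmem, hsum⟩ := fam s
  refine ⟨n, fun i => (ρ i).im, ?_, ?_⟩
  · rw [← hn]
    refine hcard.trans ?_
    rw [hBq]
    have h1 : B * q ≤ KB * Y * q := by gcongr
    have h2 : 0 ≤ (|KΛ| + 2 * KE + 2 + Cp) * Y := by positivity
    linarith
  · intro σ hσ hσ1 y hy hyt
    set z : ℝ → ℂ := fun x => (x : ℂ) + y * Complex.I with hz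
    have hzre : ∀ x, (z x).re = x := fun x => by simp [hz]
    have hzim : ∀ x, (z x).im = y := fun x => by simp [hz]
    have hzc : Continuous z := by rw [hz]; fun_prop
    have hzd : ∀ x : ℝ, HasDerivAt z 1 x := fun x => by
      rw [hz]
      exact (Complex.ofRealCLM.hasDerivAt (x := x)).add_const _
    have ho : IsOpen {w : ℂ | 0 < w.re} := isOpen_lt continuous_const Complex.continuous_re
    have hdc : ContinuousOn (fun w => deriv f w / f w) {w : ℂ | 0 < w.re} := by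
      have hfo : DifferentiableOn ℂ f {w : ℂ | 0 < w.re} := fun w hw => by
        have hw' : 0 < w.re := hw
        exact (hf w (by linarith)).differentiableWithinAt
      exact ((hfo.deriv ho).continuousOn).div hfo.continuousOn fun w hw => hf0 w hw
    have hder : ∀ x ∈ uIcc σ 2, HasDerivAt (fun x => Λ (z x)) (deriv f (z x) / f (z x)) x := by
      intro x hx
      rw [uIcc_of_le (by linarith)] at hx
      have h1 := (hΛ (z x) (by rw [hzre]; linarith [hx.1])).scomp x (hzd x)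
      rwa [one_smul] at h1
    have hint : IntervalIntegrable (fun x => deriv f (z x) / f (z x)) volume σ 2 := by
      refine ContinuousOn.intervalIntegrable ?_
      rw [uIcc_of_le (by linarith)]
      refine hdc.comp hzc.continuousOn fun x hx => ?_
      show 0 < (z x).re
      rw [hzre]; linarith [hx.1]
    have hFTC := intervalIntegral.integral_eq_sub_of_hasDerivAt hder hint
    -- the majorant
    have hcont : ∀ i, Continuous fun x : ℝ => 1 / ‖z x - ρ i‖ := by
      intro i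
      refine continuous_const.div (by fun_prop) fun x h0 => hyt i ?_
      rw [norm_eq_zero] at h0
      have h1 := congrArg Complex.im h0
      rw [Complex.sub_im, hzim, Complex.zero_im] at h1
      linarith
    have hmaj : ∀ x ∈ Ioc σ 2, ‖deriv f (z x) / f (z x)‖ ≤ (∑ i, 1 / ‖z x - ρ i‖) + E := by
      intro x hx
      have hzb : z x ∈ closedBall c (21 / 10) := by
        rw [mem_closedBall, dist_eq_norm]
        have h1 : ‖z x - c‖ ^ 2 = (x - 2) ^ 2 + (y - y0) ^ 2 := by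
          rw [← Complex.normSq_eq_norm_sq, Complex.normSq_apply, Complex.sub_re, Complex.sub_im,
            hzre, hzim, hcre, hcim]
          ring
        have h2 : (x - 2) ^ 2 ≤ 4 := by nlinarith [hx.1, hx.2]
        have h3 : (y - y0) ^ 2 ≤ 1 / 4 := by
          have := abs_le.mp hy
          nlinarith [this.1, this.2]
        have h4 : ‖z x - c‖ ^ 2 ≤ (21 / 10) ^ 2 := by rw [h1]; norm_num; linarith
        exact (pow_le_pow_iff_left₀ (norm_nonneg _) (by norm_num) two_ne_zero).mp h4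
      obtain ⟨_, h5⟩ := hs (z x) hzb (fun ρ' hρ' he => by
        obtain ⟨i, hi⟩ := hmem ρ' hρ'
        refine hyt i ?_
        show y = (ρ i).im
        rw [hi, ← he, hzim])
      rw [hsum] at h5
      exact h5
    have hmi : IntervalIntegrable (fun x => (∑ i, 1 / ‖z x - ρ i‖) + E) volume σ 2 :=
      ((continuous_finsetSum _ fun i _ => hcont i).add continuous_const).intervalIntegrable _ _
    have h1 := intervalIntegral.norm_integral_le_of_norm_le (by linarith : σ ≤ 2)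
      (Eventually.of_forall hmaj) hmi
    rw [hFTC] at h1
    have h2 : ∫ x in σ..2, ((∑ i, 1 / ‖z x - ρ i‖) + E) =
        (∑ i, ∫ x in σ..2, 1 / ‖z x - ρ i‖) + E * (2 - σ) := by
      rw [intervalIntegral.integral_add
        ((continuous_finsetSum _ fun i _ => hcont i).intervalIntegrable _ _)
        (continuous_const.intervalIntegrable _ _),
        intervalIntegral.integral_finsetSum fun i _ => (hcont i).intervalIntegrable _ _,
        intervalIntegral.integral_const, smul_eq_mul]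
      ring
    have h3 : ∀ i, ∫ x in σ..2, 1 / ‖z x - ρ i‖ ≤ (2 + Cp) * |y - (ρ i).im| ^ (-(1 / 4) : ℝ) := by
      intro i
      rw [intervalIntegral.integral_of_le (by linarith), ← integral_Icc_eq_integral_Ioc]
      refine (horiz (by linarith) (hyt i)).trans ?_
      refine mul_le_mul_of_nonneg_right ?_ (Real.rpow_nonneg (abs_nonneg _) _)
      linarith
    have h4 : (∑ i, ∫ x in σ..2, 1 / ‖z x - ρ i‖) ≤
        (2 + Cp) * ∑ i, |y - (ρ i).im| ^ (-(1 / 4) : ℝ) := by
      rw [Finset.mul_sum]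
      exact Finset.sum_le_sum fun i _ => h3 i
    have h5 : ‖Λ (z 2)‖ ≤ |KΛ| := (hΛ2 (z 2) (hzre 2)).trans (le_abs_self _)
    have h6 : ‖Λ (z σ)‖ ≤ ‖Λ (z 2)‖ + ‖Λ (z 2) - Λ (z σ)‖ := by
      calc ‖Λ (z σ)‖ = ‖Λ (z 2) - (Λ (z 2) - Λ (z σ))‖ := by congr 1; ring
        _ ≤ _ := norm_sub_le _ _
    have hE0 : 0 ≤ E := by
      have : (0 : ℝ) ≤ 5 / 2 - 11 / 5 := by norm_num
      have : (0 : ℝ) ≤ 11 / 5 - 21 / 10 := by norm_num
      rw [hE, hBq]
      positivity
    have h7 : E * (2 - σ) ≤ 2 * (KE * Y) := by nlinarith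
    set Sg : ℝ := ∑ i, |y - (ρ i).im| ^ (-(1 / 4) : ℝ) with hSg
    have hSgn : 0 ≤ Sg := Finset.sum_nonneg fun i _ => Real.rpow_nonneg (abs_nonneg _) _
    have h8 : ‖Λ (z σ)‖ ≤ |KΛ| + ((2 + Cp) * Sg + 2 * (KE * Y)) := by
      rw [h2] at h1
      linarith
    have h9 : |KΛ| ≤ |KΛ| * Y := le_mul_of_one_le_right (abs_nonneg _) hY1
    have h10 : 0 ≤ (q * KB + 2 + Cp) * Y := by positivity
    have h11 : 0 ≤ (|KΛ| + 2 * KE + q * KB) * Sg := by positivity
    show ‖Λ (z σ)‖ ≤ _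
    linarith

end Pool.Agent.W263.MS
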