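import Pool.Agent.W263.MS.Hp
import Pool.Agent.W263.MS.Ptw

/-! Integrals over vertical lines with the weight `1 / (1 + y²)`. -/

set_option autoImplicit false

namespace Pool.Agent.W263.MS

open MeasureTheory Filter Topology Set
open scoped ENNReal

theorem int_one : ∫⁻ y : ℝ, ENNReal.ofReal (1 / (1 + y ^ 2)) = ENNReal.ofReal Real.pi := by
  have e : ∀ y : ℝ, 1 / (1 + y ^ 2) = (1 + y ^ 2)⁻¹ := fun y => one_div _
  simp only [e]
  rw [← ofReal_integral_eq_lintegral_ofReal integrable_inv_one_add_sq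
    (Eventually.of_forall fun y => by positivity), integral_univ_inv_one_add_sq]

/-- the growth kernel is integrable -/
theorem int_root : Integrable fun y : ℝ => (1 + |y|) ^ (1 / 2 : ℝ) / (1 + y ^ 2) := by
  have h1 : Integrable (fun y : ℝ => (1 + |y|) ^ (-(3 / 2 : ℝ))) := Pool.Agent.W263.MN.integrable_decay
  refine (h1.const_mul 2).mono' ?_ (Eventually.of_forall fun y => ?_)
  · have : Continuous fun y : ℝ => (1 + |y|) ^ (1 / 2 : ℝ) / (1 + y ^ 2) := by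
      refine Continuous.div ?_ (by fun_prop) (fun y => by positivity)
      exact (by fun_prop : Continuous fun y : ℝ => 1 + |y|).rpow_const fun y => Or.inr (by norm_num)
    exact this.aestronglyMeasurable
  · have h0 : 0 < 1 + |y| := by positivity
    rw [Real.norm_eq_abs, abs_of_nonneg (by positivity), div_le_iff₀ (by positivity)]
    have h2 : (1 + |y|) ^ 2 ≤ 2 * (1 + y ^ 2) := by
      have := sq_abs y
      nlinarith [sq_nonneg (1 - |y|)]
    have h3 : (1 + |y|) ^ (1 / 2 : ℝ) = (1 + |y|) ^ (-(3 / 2 : ℝ)) * (1 + |y|) ^ 2 := by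
      rw [← Real.rpow_natCast (1 + |y|) 2, ← Real.rpow_add h0]
      norm_num
    rw [h3]
    have h4 : 0 ≤ (1 + |y|) ^ (-(3 / 2 : ℝ)) := by positivity
    calc _ ≤ (1 + |y|) ^ (-(3 / 2 : ℝ)) * (2 * (1 + y ^ 2)) := mul_le_mul_of_nonneg_left h2 h4
      _ = _ := by ring

/-- the logarithm on vertical lines -/
theorem log_sq_le {σ y : ℝ} (hσ : 0 < σ) (hσ1 : σ ≤ 1) (hy : y ≠ 0) :
    ‖Complex.log ((σ : ℂ) + y * Complex.I)‖ ^ 2 ≤
      100 * (1 + |y|) ^ (1 / 2 : ℝ) + 48 * |y| ^ (-(1 / 2) : ℝ) := by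
  set w : ℂ := (σ : ℂ) + y * Complex.I with hw
  have hre : w.re = σ := by simp [hw]
  have him : w.im = y := by simp [hw]
  have hy0 : 0 < |y| := abs_pos.mpr hy
  have hyw : |y| ≤ ‖w‖ := by rw [← him]; exact Complex.abs_im_le_norm w
  have hwy : ‖w‖ ≤ 1 + |y| := by
    refine (Complex.norm_le_abs_re_add_abs_im w).trans ?_
    rw [hre, him, abs_of_pos hσ]
    linarith
  have hw0 : 0 < ‖w‖ := hy0.trans_le hyw
  set p : ℝ := (1 + |y|) ^ (1 / 4 : ℝ) with hp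
  set q : ℝ := |y| ^ (-(1 / 4) : ℝ) with hq
  have hp1 : 1 ≤ p := Real.one_le_rpow (by linarith) (by norm_num)
  have hq0 : 0 < q := Real.rpow_pos_of_pos hy0 _
  have h1 : Real.log ‖w‖ ≤ 4 * p := (Real.log_le_log hw0 hwy).trans (log_le_qr (by linarith))
  have h2 : -(4 * q) ≤ Real.log ‖w‖ := by
    have h3 : Real.log |y| ≤ Real.log ‖w‖ := Real.log_le_log hy0 hyw
    have h4 : Real.log |y| = -(4 * Real.log q) := by
      rw [hq, Real.log_rpow hy0]; ring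
    have h5 : Real.log q ≤ q := (Real.log_le_sub_one_of_pos hq0).trans (by linarith)
    linarith
  have h3 : ‖Complex.log w‖ ≤ 4 * p + 4 * q + Real.pi := by
    refine (Complex.norm_le_abs_re_add_abs_im _).trans ?_
    rw [Complex.log_re, Complex.log_im]
    have h6 := Complex.abs_arg_le_pi w
    have h7 : |Real.log ‖w‖| ≤ 4 * p + 4 * q := by
      rw [abs_le]
      constructor <;> linarith
    linarith
  have h4 : ‖Complex.log w‖ ≤ 8 * p + 4 * q := by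
    have := Real.pi_lt_four
    linarith
  have e1 : p ^ 2 = (1 + |y|) ^ (1 / 2 : ℝ) := by
    rw [hp, ← Real.rpow_natCast, ← Real.rpow_mul (by positivity)]
    norm_num
  have e2 : q ^ 2 = |y| ^ (-(1 / 2) : ℝ) := by
    rw [hq, ← Real.rpow_natCast, ← Real.rpow_mul (by positivity)]
    norm_num
  rw [← e1, ← e2]
  calc ‖Complex.log w‖ ^ 2 ≤ (8 * p + 4 * q) ^ 2 := pow_le_pow_left₀ (norm_nonneg _) h4 2
    _ ≤ _ := by nlinarith [sq_nonneg (p - q), sq_nonneg (p - 2 * q)]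

theorem int_log : ∃ C : ℝ, 0 ≤ C ∧ ∀ σ : ℝ, 0 < σ → σ ≤ 1 → ∫⁻ y : ℝ,
    ENNReal.ofReal (‖Complex.log ((σ : ℂ) + y * Complex.I)‖ ^ 2 / (1 + y ^ 2)) ≤
      ENNReal.ofReal C := by
  set κ : ℝ → ℝ := fun y => 148 * ((1 + |y|) ^ (1 / 2 : ℝ) / (1 + y ^ 2)) +
    48 * psi (1 / 2) y with hκ
  have hκi : Integrable κ := (int_root.const_mul _).add ((psi_integrable (by norm_num)).const_mul _)
  have hκ0 : ∀ y, 0 ≤ κ y := fun y => by
    have := psi_nonneg (1 / 2) y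
    rw [hκ]
    positivity
  refine ⟨∫ y, κ y, integral_nonneg hκ0, fun σ hσ hσ1 => ?_⟩
  rw [ofReal_integral_eq_lintegral_ofReal hκi (Eventually.of_forall hκ0)]
  refine lintegral_mono_ae ?_
  have hae : ∀ᵐ y : ℝ, y ≠ 0 := by
    rw [ae_iff]
    simp
  filter_upwards [hae] with y hy
  refine ENNReal.ofReal_le_ofReal ?_
  have h1 := log_sq_le hσ hσ1 hy
  have h2 := rpow_le_psi (show (0 : ℝ) ≤ 1 / 2 by norm_num) y
  have h3 : (1 : ℝ) ≤ (1 + |y|) ^ (1 / 2 : ℝ) := Real.one_le_rpow (by linarith [abs_nonneg y])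
    (by norm_num)
  have h4 := psi_nonneg (1 / 2) y
  rw [div_le_iff₀ (by positivity), hκ]
  simp only []
  rw [add_mul, mul_assoc, div_mul_cancel₀ _ (by positivity : (1 + y ^ 2 : ℝ) ≠ 0)]
  have h5 : 48 * psi (1 / 2) y ≤ 48 * psi (1 / 2) y * (1 + y ^ 2) := by
    refine le_mul_of_one_le_right (by positivity) ?_
    nlinarith [sq_nonneg y]
  linarith

theorem three_add {f1 f2 f3 : ℝ → ℝ≥0∞} (h1 : Measurable f1) (h2 : Measurable f2) {a b c : ℝ≥0∞}
    (ha : a ≠ ⊤) (hb : b ≠ ⊤) (hc : c ≠ ⊤) : ∫⁻ y, (a * f1 y + b * f2 y + c * f3 y) =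
      a * (∫⁻ y, f1 y) + b * (∫⁻ y, f2 y) + c * (∫⁻ y, f3 y) := by
  have m1 : Measurable fun y => a * f1 y := h1.const_mul _
  have m2 : Measurable fun y => b * f2 y := h2.const_mul _
  have m3 : Measurable fun y => a * f1 y + b * f2 y := m1.add m2
  rw [lintegral_add_left m3, lintegral_add_left m1, lintegral_const_mul' _ _ ha,
    lintegral_const_mul' _ _ hb, lintegral_const_mul' _ _ hc]

/-- combination of three bounds -/
theorem comb_le {g Λ : ℂ → ℂ} {ρ L K C σ : ℝ} (hσ : 0 < σ)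
    (hg : ∀ y : ℝ, g ((σ : ℂ) + y * Complex.I) = Λ ((σ : ℂ) + y * Complex.I) -
      ρ * Complex.log ((σ : ℂ) + y * Complex.I) - L)
    (hK : 0 ≤ K) (hC : 0 ≤ C)
    (h1 : ∫⁻ y : ℝ, ENNReal.ofReal (‖Λ ((σ : ℂ) + y * Complex.I)‖ ^ 2 / (1 + y ^ 2)) ≤
      ENNReal.ofReal K)
    (h2 : ∫⁻ y : ℝ, ENNReal.ofReal (‖Complex.log ((σ : ℂ) + y * Complex.I)‖ ^ 2 / (1 + y ^ 2)) ≤
      ENNReal.ofReal C) :
    ∫⁻ y : ℝ, ENNReal.ofReal (‖g ((σ : ℂ) + y * Complex.I)‖ ^ 2 / (1 + y ^ 2)) ≤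
      ENNReal.ofReal (3 * K + 3 * ρ ^ 2 * C + 3 * L ^ 2 * Real.pi) := by
  have hlm : Measurable fun y : ℝ =>
      ENNReal.ofReal (‖Complex.log ((σ : ℂ) + y * Complex.I)‖ ^ 2 / (1 + y ^ 2)) := by
    have : Measurable fun y : ℝ => Complex.log ((σ : ℂ) + y * Complex.I) :=
      Complex.measurable_log.comp (by fun_prop)
    fun_prop
  have key : ∀ y : ℝ, ENNReal.ofReal (‖g ((σ : ℂ) + y * Complex.I)‖ ^ 2 / (1 + y ^ 2)) ≤
      (ENNReal.ofReal (3 * ρ ^ 2) *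
        ENNReal.ofReal (‖Complex.log ((σ : ℂ) + y * Complex.I)‖ ^ 2 / (1 + y ^ 2)) +
      ENNReal.ofReal (3 * L ^ 2) * ENNReal.ofReal (1 / (1 + y ^ 2))) +
      ENNReal.ofReal 3 * ENNReal.ofReal (‖Λ ((σ : ℂ) + y * Complex.I)‖ ^ 2 / (1 + y ^ 2)) := by
    intro y
    rw [← ENNReal.ofReal_mul (by positivity), ← ENNReal.ofReal_mul (by positivity),
      ← ENNReal.ofReal_mul (by norm_num), ← ENNReal.ofReal_add (by positivity) (by positivity),
      ← ENNReal.ofReal_add (by positivity) (by positivity)]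
    refine ENNReal.ofReal_le_ofReal ?_
    rw [hg y]
    set A := ‖Λ ((σ : ℂ) + y * Complex.I)‖
    set B := ‖Complex.log ((σ : ℂ) + y * Complex.I)‖
    have h3 : ‖Λ ((σ : ℂ) + y * Complex.I) - ρ * Complex.log ((σ : ℂ) + y * Complex.I) - L‖ ≤
        A + |ρ| * B + |L| := by
      refine (norm_sub_le _ _).trans ?_
      rw [Complex.norm_real, Real.norm_eq_abs]
      gcongr
      refine (norm_sub_le _ _).trans ?_
      rw [norm_mul, Complex.norm_real, Real.norm_eq_abs]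
    have h4 : ‖Λ ((σ : ℂ) + y * Complex.I) - ρ * Complex.log ((σ : ℂ) + y * Complex.I) - L‖ ^ 2 ≤
        3 * ρ ^ 2 * B ^ 2 + 3 * L ^ 2 + 3 * A ^ 2 := by
      refine (pow_le_pow_left₀ (norm_nonneg _) h3 2).trans ?_
      have e1 : |ρ| ^ 2 = ρ ^ 2 := sq_abs ρ
      have e2 : |L| ^ 2 = L ^ 2 := sq_abs L
      have e3 : (|ρ| * B) ^ 2 = ρ ^ 2 * B ^ 2 := by rw [mul_pow, e1]
      nlinarith [sq_nonneg (A - |ρ| * B), sq_nonneg (A - |L|), sq_nonneg (|ρ| * B - |L|)]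
    have h5 : (0 : ℝ) < 1 + y ^ 2 := by positivity
    have h6 : 3 * ρ ^ 2 * (B ^ 2 / (1 + y ^ 2)) + 3 * L ^ 2 * (1 / (1 + y ^ 2)) +
        3 * (A ^ 2 / (1 + y ^ 2)) = (3 * ρ ^ 2 * B ^ 2 + 3 * L ^ 2 + 3 * A ^ 2) / (1 + y ^ 2) := by
      field_simp
    rw [h6]
    exact div_le_div_of_nonneg_right h4 h5.le
  have hm1 : Measurable fun y : ℝ => ENNReal.ofReal (1 / (1 + y ^ 2)) := by fun_prop
  refine (lintegral_mono key).trans ?_
  rw [three_add hlm hm1 ENNReal.ofReal_ne_top ENNReal.ofReal_ne_top ENNReal.ofReal_ne_top, int_one]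
  have hpi := Real.pi_pos
  have e : ENNReal.ofReal (3 * K + 3 * ρ ^ 2 * C + 3 * L ^ 2 * Real.pi) =
      ENNReal.ofReal (3 * ρ ^ 2) * ENNReal.ofReal C +
        ENNReal.ofReal (3 * L ^ 2) * ENNReal.ofReal Real.pi + ENNReal.ofReal 3 * ENNReal.ofReal K := by
    rw [← ENNReal.ofReal_mul (by positivity), ← ENNReal.ofReal_mul (by positivity),
      ← ENNReal.ofReal_mul (by norm_num), ← ENNReal.ofReal_add (by positivity) (by positivity),
      ← ENNReal.ofReal_add (by positivity) (by positivity)]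
    congr 1
    ring
  rw [e]
  gcongr

end Pool.Agent.W263.MS
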