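import Pool.Agent.W263.MS.Pl3
import Pool.Agent.Helper469.Univalent

/-! Pointwise bounds for functions with bounded square integrals on vertical lines. -/

set_option autoImplicit false

namespace Pool.Agent.W263.MS

open MeasureTheory Filter Topology Set
open scoped ENNReal

theorem square_le {g : ℂ → ℝ≥0∞} {r : ℝ} :
    ∫⁻ z in Metric.ball (0 : ℂ) r, g z ≤ ∫⁻ x in Ioo (-r) r, ∫⁻ y in Ioo (-r) r,
      g ((x : ℂ) + y * Complex.I) := by
  set S : Set ℂ := {z : ℂ | z.re ∈ Ioo (-r) r ∧ z.im ∈ Ioo (-r) r} with hS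
  have hsub : Metric.ball (0 : ℂ) r ⊆ S := by
    intro z hz
    rw [Metric.mem_ball, dist_zero_right] at hz
    have h1 := Complex.abs_re_le_norm z
    have h2 := Complex.abs_im_le_norm z
    exact ⟨abs_lt.mp (h1.trans_lt hz), abs_lt.mp (h2.trans_lt hz)⟩
  have h1 : ∫⁻ z in Metric.ball (0 : ℂ) r, g z ≤ ∫⁻ z, S.indicator g z := by
    rw [← lintegral_indicator measurableSet_ball]
    exact lintegral_mono (indicator_le_indicator_of_subset hsub fun _ => zero_le)
  refine h1.trans ?_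
  have hmp := Complex.volume_preserving_equiv_real_prod.symm
  rw [← hmp.lintegral_comp_emb Complex.measurableEquivRealProd.symm.measurableEmbedding]
  refine (lintegral_prod_le _).trans ?_
  rw [← lintegral_indicator measurableSet_Ioo]
  refine lintegral_mono fun x => ?_
  by_cases hx : x ∈ Ioo (-r) r
  · rw [indicator_of_mem hx, ← lintegral_indicator measurableSet_Ioo]
    refine lintegral_mono fun y => ?_
    have e : Complex.measurableEquivRealProd.symm (x, y) = (x : ℂ) + y * Complex.I := by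
      apply Complex.ext <;> simp [Complex.measurableEquivRealProd]
    simp only [e]
    by_cases hy : y ∈ Ioo (-r) r
    · rw [indicator_of_mem hy]
      exact indicator_le_self' (fun _ _ => zero_le) _
    · rw [indicator_of_notMem hy, indicator_of_notMem]
      intro h
      exact hy (by simpa using h.2)
  · rw [indicator_of_notMem hx]
    have : ∀ y : ℝ, S.indicator g (Complex.measurableEquivRealProd.symm (x, y)) = 0 := by
      intro y
      refine indicator_of_notMem ?_ _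
      have e : Complex.measurableEquivRealProd.symm (x, y) = (x : ℂ) + y * Complex.I := by
        apply Complex.ext <;> simp [Complex.measurableEquivRealProd]
      rw [e]
      intro h
      exact hx (by simpa using h.1)
    simp only [this, lintegral_zero, le_refl]

/-- **Pointwise bound.** -/
theorem hardy_ptw {Λ : ℂ → ℂ} (hΛ : ∀ w : ℂ, 0 < w.re → DifferentiableAt ℂ Λ w) {K : ℝ}
    (hK : 0 ≤ K) (h : ∀ σ : ℝ, 0 < σ → σ ≤ 1 → ∫⁻ y : ℝ,
      ENNReal.ofReal (‖Λ ((σ : ℂ) + y * Complex.I)‖ ^ 2 / (1 + y ^ 2)) ≤ ENNReal.ofReal K)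
    {w : ℂ} (hw : 0 < w.re) (hw1 : w.re ≤ 2 / 3) :
    ‖Λ w‖ ≤ 2 * (K + 1) * ((1 + ‖w‖) * (1 / w.re)) := by
  set σ := w.re with hσ
  set t := w.im with ht
  set r : ℝ := σ / 2 with hr
  have hr0 : 0 < r := by positivity
  have hr1 : r ≤ 1 / 3 := by rw [hr]; linarith
  have hdiff : DifferentiableOn ℂ (fun ζ : ℂ => Λ (w + ζ) ^ 2) (Metric.ball 0 r) := by
    intro ζ hζ
    rw [Metric.mem_ball, dist_zero_right] at hζ
    have h1 : 0 < (w + ζ).re := by
      rw [Complex.add_re]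
      have := (abs_le.mp ((Complex.abs_re_le_norm ζ).trans hζ.le)).1
      rw [hr] at this
      linarith
    exact (DifferentiableAt.pow (DifferentiableAt.comp (g := Λ) (f := fun ζ : ℂ => w + ζ) ζ
      (hΛ _ h1) (by fun_prop)) 2).differentiableWithinAt
  have hmd := Pool.Agent.Helper469.Univalent.mean_disc _ r hr0 hdiff
  simp only [add_zero] at hmd
  set B : ℝ := 2 * (1 + ‖w‖) ^ 2 with hB
  have hB0 : 0 ≤ B := by positivity
  have htw : |t| ≤ ‖w‖ := Complex.abs_im_le_norm w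
  have hinner : ∀ x ∈ Ioo (-r) r, ∫⁻ y in Ioo (-r) r,
      ENNReal.ofReal ‖Λ (w + ((x : ℂ) + y * Complex.I)) ^ 2‖ ≤ ENNReal.ofReal (B * K) := by
    intro x hx
    have hx1 : 0 < σ + x := by
      have := hx.1
      rw [hr] at this
      linarith
    have hx2 : σ + x ≤ 1 := by
      have := hx.2
      linarith
    have h2 : ∀ y ∈ Ioo (-r) r, ENNReal.ofReal ‖Λ (w + ((x : ℂ) + y * Complex.I)) ^ 2‖ ≤
        ENNReal.ofReal B * (fun y' : ℝ => ENNReal.ofReal (‖Λ (((σ + x : ℝ) : ℂ) + y' * Complex.I)‖ ^ 2 /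
          (1 + y' ^ 2))) (t + y) := by
      intro y hy
      simp only []
      rw [← ENNReal.ofReal_mul hB0]
      refine ENNReal.ofReal_le_ofReal ?_
      have e : w + ((x : ℂ) + y * Complex.I) = ((σ + x : ℝ) : ℂ) + ((t + y : ℝ) : ℂ) * Complex.I := by
        apply Complex.ext
        · simp [hσ]
        · simp [ht]
      rw [e, norm_pow]
      have h3 : 1 + (t + y) ^ 2 ≤ B := by
        have h4 : |t + y| ≤ 1 + ‖w‖ := by
          refine (abs_add_le _ _).trans ?_
          have h5 : |y| ≤ r := (abs_lt.mpr hy).le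
          linarith
        have h6 : (t + y) ^ 2 ≤ (1 + ‖w‖) ^ 2 := by
          rw [← sq_abs]
          exact pow_le_pow_left₀ (abs_nonneg _) h4 2
        have h7 : (1 : ℝ) ≤ (1 + ‖w‖) ^ 2 := by
          have := norm_nonneg w
          nlinarith
        rw [hB]
        linarith
      have h8 : 0 < 1 + (t + y) ^ 2 := by positivity
      rw [← mul_div_assoc, le_div_iff₀ h8, mul_comm]
      exact mul_le_mul_of_nonneg_right h3 (by positivity)
    calc _ ≤ ∫⁻ y in Ioo (-r) r, ENNReal.ofReal B * (fun y' : ℝ =>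
          ENNReal.ofReal (‖Λ (((σ + x : ℝ) : ℂ) + y' * Complex.I)‖ ^ 2 / (1 + y' ^ 2))) (t + y) :=
          setLIntegral_mono' measurableSet_Ioo h2
      _ ≤ ∫⁻ y, ENNReal.ofReal B * (fun y' : ℝ =>
          ENNReal.ofReal (‖Λ (((σ + x : ℝ) : ℂ) + y' * Complex.I)‖ ^ 2 / (1 + y' ^ 2))) (t + y) :=
          setLIntegral_le_lintegral _ _
      _ = ENNReal.ofReal B * ∫⁻ y, (fun y' : ℝ =>
          ENNReal.ofReal (‖Λ (((σ + x : ℝ) : ℂ) + y' * Complex.I)‖ ^ 2 / (1 + y' ^ 2))) (t + y) :=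
          lintegral_const_mul' _ _ ENNReal.ofReal_ne_top
      _ ≤ _ := by
          rw [lintegral_add_left_eq_self (fun y' : ℝ =>
            ENNReal.ofReal (‖Λ (((σ + x : ℝ) : ℂ) + y' * Complex.I)‖ ^ 2 / (1 + y' ^ 2))) t,
            ENNReal.ofReal_mul hB0]
          exact mul_le_mul' le_rfl (h _ hx1 hx2)
  have h9 : ∫⁻ ζ in Metric.ball (0 : ℂ) r, ENNReal.ofReal ‖Λ (w + ζ) ^ 2‖ ≤
      ENNReal.ofReal (2 * r * (B * K)) := by
    refine (square_le (g := fun ζ => ENNReal.ofReal ‖Λ (w + ζ) ^ 2‖)).trans ?_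
    refine (setLIntegral_mono' measurableSet_Ioo hinner).trans ?_
    rw [setLIntegral_const, Real.volume_Ioo, mul_comm, ← ENNReal.ofReal_mul (by linarith)]
    refine ENNReal.ofReal_le_ofReal (le_of_eq ?_)
    ring
  have h10 := hmd.trans h9
  rw [ENNReal.ofReal_le_ofReal_iff (by positivity), norm_pow] at h10
  have hpi := Real.pi_gt_three
  have h11 : ‖Λ w‖ ^ 2 ≤ (2 * (K + 1) * ((1 + ‖w‖) * (1 / σ))) ^ 2 := by
    have h12 : 3 * r ^ 2 * ‖Λ w‖ ^ 2 ≤ 2 * r * (B * K) := by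
      refine le_trans ?_ h10
      gcongr
    have h13 : r * ‖Λ w‖ ^ 2 ≤ B * K := by
      have h14 : r * (3 * r * ‖Λ w‖ ^ 2) ≤ r * (2 * (B * K)) := by
        calc _ = 3 * r ^ 2 * ‖Λ w‖ ^ 2 := by ring
          _ ≤ _ := h12
          _ = _ := by ring
      have h15 := le_of_mul_le_mul_left h14 hr0
      have h16 : 0 ≤ B * K := by positivity
      linarith
    have h17 : σ * ‖Λ w‖ ^ 2 ≤ 4 * K * (1 + ‖w‖) ^ 2 := by
      rw [hr, hB] at h13
      linarith
    have h18 : (2 * (K + 1) * ((1 + ‖w‖) * (1 / σ))) ^ 2 =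
        4 * (K + 1) ^ 2 * (1 + ‖w‖) ^ 2 / σ ^ 2 := by
      field_simp
      ring
    rw [h18, le_div_iff₀ (by positivity)]
    have h19 : ‖Λ w‖ ^ 2 * σ ^ 2 ≤ 4 * K * (1 + ‖w‖) ^ 2 := by
      have : ‖Λ w‖ ^ 2 * σ ^ 2 = σ * (σ * ‖Λ w‖ ^ 2) := by ring
      rw [this]
      calc σ * (σ * ‖Λ w‖ ^ 2) ≤ 1 * (σ * ‖Λ w‖ ^ 2) := by gcongr; linarith
        _ ≤ _ := by rw [one_mul]; exact h17
    refine h19.trans ?_
    have h20 : K ≤ (K + 1) ^ 2 := by nlinarith
    gcongr
  exact (abs_le_of_sq_le_sq' h11 (by positivity)).2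

end Pool.Agent.W263.MS
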