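import Pool.Agent.Helper76.HPlanch
import Pool.Agent.W263.LG.Abs

/-! From square integrals of the transform on vertical lines to the square integral. -/

set_option autoImplicit false

namespace Pool.Agent.W263.MS

open MeasureTheory Filter Topology Set
open Pool.Agent.W263.BSD Pool.Agent.W263.EP
open scoped ENNReal FourierTransform

/-- change of variables `y = 2 π ξ` -/
theorem lintegral_two_pi {g : ℝ → ℝ≥0∞} (hg : Measurable g) :
    ∫⁻ ξ : ℝ, g (2 * Real.pi * ξ) ≤ ∫⁻ y, g y := by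
  have hpi : (2 * Real.pi : ℝ) ≠ 0 := by positivity
  have h1 : ∫⁻ ξ : ℝ, g (2 * Real.pi * ξ) = ∫⁻ y, g y ∂(Measure.map (fun x => 2 * Real.pi * x) volume) :=
    (lintegral_map hg (by fun_prop)).symm
  have h2 : Measure.map (fun x => 2 * Real.pi * x) (volume : Measure ℝ) =
      ENNReal.ofReal |(2 * Real.pi)⁻¹| • volume := Real.map_volume_mul_left hpi
  rw [h1, h2, lintegral_smul_measure, smul_eq_mul]
  refine mul_le_of_le_one_left' ?_
  rw [ENNReal.ofReal_le_one, abs_of_pos (by positivity)]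
  refine inv_le_one_of_one_le₀ ?_
  linarith [Real.pi_gt_three]

theorem exp_sub_one_le (z : ℂ) (hz : 0 ≤ z.re) : ‖Complex.exp z - 1‖ ≤ ‖z‖ * Real.exp z.re := by
  have h := Convex.norm_image_sub_le_of_norm_hasDerivWithin_le (𝕜 := ℂ) (f := Complex.exp)
    (f' := Complex.exp) (s := {w : ℂ | w.re ≤ z.re}) (x := 0) (y := z) (C := Real.exp z.re)
    (fun w _ => (Complex.hasDerivAt_exp w).hasDerivWithinAt)
    (fun w hw => by
      rw [Complex.norm_exp]
      exact Real.exp_le_exp.mpr hw)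
    (convex_halfSpace_re_le _) (by simpa using hz) (by simp)
  rw [Complex.exp_zero, sub_zero] at h
  linarith [h]

theorem four_lin {T P : ℝ → ℂ} (hT : Integrable T) (hP : Integrable P) (a b : ℂ) (ξ : ℝ) :
    𝓕 (fun u => a * T u - b * P u) ξ = a * 𝓕 T ξ - b * 𝓕 P ξ := by
  have key : ∀ {Q : ℝ → ℂ}, Integrable Q →
      Integrable (fun v : ℝ => Complex.exp (((-2 * Real.pi * v * ξ : ℝ) : ℂ) * Complex.I) • Q v) := by
    intro Q hQ
    refine hQ.norm.mono' ?_ (Eventually.of_forall fun v => ?_)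
    · have hc : Continuous (fun v : ℝ =>
          Complex.exp (((-2 * Real.pi * v * ξ : ℝ) : ℂ) * Complex.I)) := by fun_prop
      exact hc.aestronglyMeasurable.smul hQ.aestronglyMeasurable
    · rw [norm_smul, Complex.norm_exp_ofReal_mul_I, one_mul]
  rw [Real.fourier_real_eq_integral_exp_smul, Real.fourier_real_eq_integral_exp_smul,
    Real.fourier_real_eq_integral_exp_smul, ← integral_const_mul, ← integral_const_mul,
    ← integral_sub ((key hT).const_mul _) ((key hP).const_mul _)]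
  refine integral_congr_ae (Eventually.of_forall fun v => ?_)
  simp only [smul_eq_mul]
  ring

section

variable {h : ℝ → ℝ} {C0 : ℝ}

theorem P_bound (h0 : ∀ u, u ≤ 0 → h u = 0) (hb : ∀ u, 0 < u → |h u| ≤ C0 * (1 + u)) {σ : ℝ}
    (hσ : 0 < σ) (u : ℝ) : ‖(h u : ℂ) * Complex.exp (-(σ * u))‖ ≤
      |C0| * (1 + 2 / σ) * Real.exp (-(σ / 2 * |u|)) := by
  rw [norm_mul, Complex.norm_real, Real.norm_eq_abs, Complex.norm_exp]
  have e1 : (-((σ : ℂ) * u)).re = -(σ * u) := by simp
  rw [e1]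
  rcases le_or_gt u 0 with hu | hu
  · rw [h0 u hu, abs_zero, zero_mul]
    positivity
  · rw [abs_of_pos hu]
    have h1 : |h u| ≤ |C0| * (1 + u) :=
      (hb u hu).trans (mul_le_mul_of_nonneg_right (le_abs_self _) (by linarith))
    have h2 : 1 + u ≤ (1 + 2 / σ) * Real.exp (σ / 2 * u) := by
      have h3 : σ / 2 * u + 1 ≤ Real.exp (σ / 2 * u) := Real.add_one_le_exp _
      have h4 : u = 2 / σ * (σ / 2 * u) := by field_simp
      have h5 : 0 ≤ σ / 2 * u := by positivity
      have h6 : 0 < 2 / σ := by positivity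
      calc 1 + u = 1 + 2 / σ * (σ / 2 * u) := by rw [← h4]
        _ ≤ (1 + 2 / σ) * (σ / 2 * u + 1) := by nlinarith
        _ ≤ _ := by gcongr
    calc |h u| * Real.exp (-(σ * u)) ≤
        |C0| * ((1 + 2 / σ) * Real.exp (σ / 2 * u)) * Real.exp (-(σ * u)) := by
          gcongr
          exact h1.trans (mul_le_mul_of_nonneg_left h2 (abs_nonneg _))
      _ = |C0| * (1 + 2 / σ) * (Real.exp (σ / 2 * u) * Real.exp (-(σ * u))) := by ring
      _ = _ := by
          rw [← Real.exp_add]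
          congr 2
          ring

theorem P_int (hm : Measurable h) (h0 : ∀ u, u ≤ 0 → h u = 0)
    (hb : ∀ u, 0 < u → |h u| ≤ C0 * (1 + u)) {σ : ℝ} (hσ : 0 < σ) :
    Integrable (fun u : ℝ => (h u : ℂ) * Complex.exp (-(σ * u))) ∧
      MemLp (fun u : ℝ => (h u : ℂ) * Complex.exp (-(σ * u))) 2 := by
  have hmeas : AEStronglyMeasurable (fun u : ℝ => (h u : ℂ) * Complex.exp (-(σ * u))) volume :=
    Measurable.aestronglyMeasurable (by fun_prop)
  have hi : ∀ c : ℝ, 0 < c → Integrable (fun u : ℝ => Real.exp (-(c * |u|))) := by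
    intro c hc
    have h1 : IntegrableOn (fun u : ℝ => Real.exp (-(c * |u|))) (Ioi 0) := by
      refine (exp_neg_integrableOn_Ioi 0 hc).congr_fun (fun u hu => ?_) measurableSet_Ioi
      have hu' : (0 : ℝ) < u := hu
      simp only [abs_of_pos hu', neg_mul]
    have h2 : IntegrableOn (fun u : ℝ => Real.exp (-(c * |u|))) (Iio 0) := by
      have h4 : IntegrableOn ((fun u : ℝ => Real.exp (-(c * |u|))) ∘ Neg.neg)
          (Neg.neg ⁻¹' (Ioi (0 : ℝ))) :=
        (Measure.measurePreserving_neg (volume : Measure ℝ)).integrableOn_comp_preimage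
          (Homeomorph.neg ℝ).measurableEmbedding |>.mpr h1
      have e1 : Neg.neg ⁻¹' (Ioi (0 : ℝ)) = Iio 0 := by
        ext x; simp only [mem_preimage, mem_Ioi, mem_Iio]
        constructor
        · intro a; linarith
        · intro a; linarith
      rw [e1] at h4
      refine h4.congr_fun (fun u _ => ?_) measurableSet_Iio
      simp only [Function.comp, abs_neg]
    have h3 : IntegrableOn (fun u : ℝ => Real.exp (-(c * |u|))) (Iic 0) := by
      rw [integrableOn_Iic_iff_integrableOn_Iio]; exact h2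
    have h5 := h3.union h1
    rwa [Iic_union_Ioi, integrableOn_univ] at h5
  constructor
  · exact ((hi (σ / 2) (by positivity)).const_mul _).mono' hmeas
      (Eventually.of_forall (P_bound h0 hb hσ))
  · rw [memLp_two_iff_integrable_sq_norm hmeas]
    refine ((hi σ hσ).const_mul ((|C0| * (1 + 2 / σ)) ^ 2)).mono' (hmeas.norm.pow 2)
      (Eventually.of_forall fun u => ?_)
    rw [norm_pow, norm_norm]
    calc _ ≤ (|C0| * (1 + 2 / σ) * Real.exp (-(σ / 2 * |u|))) ^ 2 :=
          pow_le_pow_left₀ (norm_nonneg _) (P_bound h0 hb hσ u) 2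
      _ = _ := by
          rw [mul_pow, ← Real.exp_nat_mul]
          congr 2
          push_cast
          ring

theorem fourier_P (h0 : ∀ u, u ≤ 0 → h u = 0) (σ ξ : ℝ) :
    𝓕 (fun u : ℝ => (h u : ℂ) * Complex.exp (-(σ * u))) ξ =
      lapC h ((σ : ℂ) + (2 * Real.pi * ξ : ℝ) * Complex.I) := by
  rw [Real.fourier_real_eq_integral_exp_smul]
  unfold lapC
  rw [← integral_indicator measurableSet_Ioi]
  refine integral_congr_ae (Eventually.of_forall fun u => ?_)
  simp only [smul_eq_mul]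
  by_cases hu : u ∈ Ioi (0 : ℝ)
  · rw [indicator_of_mem hu, mul_comm, mul_assoc, ← Complex.exp_add]
    congr 2
    push_cast
    ring
  · rw [indicator_of_notMem hu, h0 u (not_lt.mp hu)]
    simp

/-- square integral of the difference quotients -/
theorem quot_sq (hm : Measurable h) (h0 : ∀ u, u ≤ 0 → h u = 0)
    (hb : ∀ u, 0 < u → |h u| ≤ C0 * (1 + u)) {σ δ : ℝ} (hσ : 0 < σ) (hδ : 0 < δ) {C : ℝ≥0∞}
    (hmG : Continuous fun y : ℝ => lapC h ((σ : ℂ) + y * Complex.I))
    (hC : ∫⁻ y : ℝ, ENNReal.ofReal (‖((σ : ℂ) + y * Complex.I) *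
      lapC h ((σ : ℂ) + y * Complex.I)‖ ^ 2) ≤ C) :
    ∫⁻ u : ℝ, ENNReal.ofReal (((h (u + δ) - h u) / δ * Real.exp (-(σ * u))) ^ 2) ≤
      ENNReal.ofReal (Real.exp (2 * σ * δ)) * C := by
  set P : ℝ → ℂ := fun u : ℝ => (h u : ℂ) * Complex.exp (-(σ * u)) with hP
  obtain ⟨hPi, hP2⟩ := P_int hm h0 hb hσ
  set T : ℝ → ℂ := fun u => P (u + δ) with hT
  have hTi : Integrable T := hPi.comp_add_right δ
  have hT2 : MemLp T 2 := hP2.comp_measurePreserving (measurePreserving_add_right volume δ)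
  set F : ℝ → ℂ := fun u => ((Real.exp (σ * δ) / δ : ℝ) : ℂ) * T u - ((1 / δ : ℝ) : ℂ) * P u with hF
  have hFi : Integrable F := (hTi.const_mul _).sub (hPi.const_mul _)
  have hF2 : MemLp F 2 := (hT2.const_mul _).sub (hP2.const_mul _)
  have hFv : ∀ u, F u = (((h (u + δ) - h u) / δ * Real.exp (-(σ * u)) : ℝ) : ℂ) := by
    intro u
    rw [hF, hT, hP]
    simp only []
    have e1 : Complex.exp (-((σ : ℂ) * ((u + δ : ℝ) : ℂ))) =
        ((Real.exp (-(σ * u)) * Real.exp (-(σ * δ)) : ℝ) : ℂ) := by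
      rw [← Real.exp_add, Complex.ofReal_exp]
      congr 1
      push_cast
      ring
    have e2 : Complex.exp (-((σ : ℂ) * (u : ℂ))) = ((Real.exp (-(σ * u)) : ℝ) : ℂ) := by
      rw [Complex.ofReal_exp]
      congr 1
      push_cast
      ring
    have e3 : Real.exp (σ * δ) * Real.exp (-(σ * δ)) = 1 := by
      rw [← Real.exp_add, add_neg_cancel, Real.exp_zero]
    rw [e1, e2, ← Complex.ofReal_mul, ← Complex.ofReal_mul, ← Complex.ofReal_mul,
      ← Complex.ofReal_mul, ← Complex.ofReal_sub]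
    congr 1
    have hδ' := hδ.ne'
    field_simp
    linear_combination (h (u + δ)) * e3
  have hfour : ∀ ξ : ℝ, 𝓕 F ξ = ((Complex.exp (((σ : ℂ) + (2 * Real.pi * ξ : ℝ) * Complex.I) * δ) - 1)
      / δ) * lapC h ((σ : ℂ) + (2 * Real.pi * ξ : ℝ) * Complex.I) := by
    intro ξ
    have e0 := fourier_P h0 σ ξ
    have e1 : 𝓕 T ξ = Complex.exp (2 * Real.pi * ξ * δ * Complex.I) * 𝓕 P ξ := by
      rw [Real.fourier_real_eq_integral_exp_smul, Real.fourier_real_eq_integral_exp_smul,
        ← integral_const_mul]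
      rw [← integral_add_right_eq_self (fun v : ℝ => Complex.exp (2 * Real.pi * ξ * δ * Complex.I) *
        Complex.exp (((-2 * Real.pi * v * ξ : ℝ) : ℂ) * Complex.I) • P v) δ]
      refine integral_congr_ae (Eventually.of_forall fun v => ?_)
      have e2 : Complex.exp (((-2 * Real.pi * v * ξ : ℝ) : ℂ) * Complex.I) =
          Complex.exp (2 * Real.pi * ξ * δ * Complex.I) *
            Complex.exp (((-2 * Real.pi * (v + δ) * ξ : ℝ) : ℂ) * Complex.I) := by
        rw [← Complex.exp_add]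
        congr 1
        push_cast
        ring
      show Complex.exp (((-2 * Real.pi * v * ξ : ℝ) : ℂ) * Complex.I) * P (v + δ) =
        Complex.exp (2 * Real.pi * ξ * δ * Complex.I) *
          (Complex.exp (((-2 * Real.pi * (v + δ) * ξ : ℝ) : ℂ) * Complex.I) * P (v + δ))
      rw [e2, mul_assoc]
    rw [hF, four_lin hTi hPi, e1]
    rw [hP, e0]
    have e4 : Complex.exp (((σ : ℂ) + (2 * Real.pi * ξ : ℝ) * Complex.I) * δ) =
        (Real.exp (σ * δ) : ℂ) * Complex.exp (2 * Real.pi * ξ * δ * Complex.I) := by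
      rw [Complex.ofReal_exp, ← Complex.exp_add]
      congr 1
      push_cast
      ring
    rw [e4]
    have hδ' : (δ : ℂ) ≠ 0 := by exact_mod_cast hδ.ne'
    push_cast
    field_simp
  have hpl := Pool.Agent.Helper76.NormalHP.plancherel_lintegral F hFi hF2
  have hL : ∫⁻ u : ℝ, ENNReal.ofReal (((h (u + δ) - h u) / δ * Real.exp (-(σ * u))) ^ 2) =
      ∫⁻ t, ‖F t‖ₑ ^ 2 := by
    refine lintegral_congr fun u => ?_
    rw [hFv u, ← ofReal_norm, Complex.norm_real, Real.norm_eq_abs, ← ENNReal.ofReal_pow (abs_nonneg _),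
      sq_abs]
  rw [hL, ← hpl]
  have hR : ∀ ξ : ℝ, ‖𝓕 F ξ‖ₑ ^ 2 ≤ ENNReal.ofReal (Real.exp (2 * σ * δ)) *
      (fun y : ℝ => ENNReal.ofReal (‖((σ : ℂ) + y * Complex.I) *
        lapC h ((σ : ℂ) + y * Complex.I)‖ ^ 2)) (2 * Real.pi * ξ) := by
    intro ξ
    simp only []
    rw [hfour ξ, ← ofReal_norm, ← ENNReal.ofReal_pow (norm_nonneg _),
      ← ENNReal.ofReal_mul (by positivity)]
    refine ENNReal.ofReal_le_ofReal ?_
    set w : ℂ := (σ : ℂ) + (2 * Real.pi * ξ : ℝ) * Complex.I with hw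
    have hwre : (w * δ).re = σ * δ := by
      rw [hw]; simp
    have e5 := exp_sub_one_le (w * δ) (by rw [hwre]; positivity)
    rw [hwre, norm_mul w, Complex.norm_real, Real.norm_eq_abs, abs_of_pos hδ] at e5
    have e6 : ‖(Complex.exp (w * δ) - 1) / δ * lapC h w‖ ≤ Real.exp (σ * δ) * ‖w * lapC h w‖ := by
      rw [norm_mul, norm_div, Complex.norm_real, Real.norm_eq_abs, abs_of_pos hδ, norm_mul w]
      have e7 : ‖Complex.exp (w * δ) - 1‖ / δ ≤ ‖w‖ * Real.exp (σ * δ) := by
        rw [div_le_iff₀ hδ]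
        linarith
      calc _ ≤ (‖w‖ * Real.exp (σ * δ)) * ‖lapC h w‖ :=
            mul_le_mul_of_nonneg_right e7 (norm_nonneg _)
        _ = _ := by ring
    calc _ ≤ (Real.exp (σ * δ) * ‖w * lapC h w‖) ^ 2 := pow_le_pow_left₀ (norm_nonneg _) e6 2
      _ = _ := by
        rw [mul_pow, ← Real.exp_nat_mul]
        congr 2
        push_cast
        ring
  refine (lintegral_mono hR).trans ?_
  rw [lintegral_const_mul' _ _ ENNReal.ofReal_ne_top]
  gcongr
  refine le_trans ?_ hC
  refine lintegral_two_pi ?_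
  have : Continuous fun y : ℝ => ‖((σ : ℂ) + y * Complex.I) *
      lapC h ((σ : ℂ) + y * Complex.I)‖ ^ 2 :=
    (((by fun_prop : Continuous fun y : ℝ => (σ : ℂ) + y * Complex.I).mul hmG).norm).pow 2
  exact this.measurable.ennreal_ofReal

end

/-- almost everywhere derivative -/
theorem ae_deriv {D : ℝ → ℝ} (hi : ∀ U, IntegrableOn D (Ioc 0 U)) :
    ∀ᵐ u : ℝ, 0 < u → HasDerivAt (EP.intU D) (D u) u := by
  set f : ℝ → ℝ := (Ioi (0 : ℝ)).indicator D with hf
  have hloc : LocallyIntegrable f := by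
    rw [locallyIntegrable_iff]
    intro K hK
    obtain ⟨U, hU⟩ := hK.isBounded.subset_closedBall 0
    have h1 : IntegrableOn f (Icc (-U) U) := by
      rw [hf, IntegrableOn, integrable_indicator_iff measurableSet_Ioi, IntegrableOn,
        Measure.restrict_restrict measurableSet_Ioi]
      refine (hi U).mono_set ?_
      intro x hx
      exact ⟨hx.1, hx.2.2⟩
    refine h1.mono_set fun x hx => ?_
    have := hU hx
    rw [Real.closedBall_eq_Icc] at this
    simpa using this
  filter_upwards [_root_.LocallyIntegrable.ae_hasDerivAt_integral hloc] with u hu hu0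
  have h1 := hu 0
  have h2 : f u = D u := by rw [hf]; exact indicator_of_mem (show u ∈ Ioi (0 : ℝ) from hu0) D
  rw [h2] at h1
  refine h1.congr_of_eventuallyEq ?_
  filter_upwards [isOpen_Ioi.mem_nhds (show u ∈ Ioi (0 : ℝ) from hu0)] with x hx
  have hx0 : (0 : ℝ) < x := hx
  unfold EP.intU
  rw [intervalIntegral.integral_of_le hx0.le]
  refine setIntegral_congr_fun measurableSet_Ioc fun t ht => ?_
  rw [hf]
  exact (indicator_of_mem (show t ∈ Ioi (0 : ℝ) from ht.1) D).symm

/-- **Square integrability from the lines.** -/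
theorem sq_of_lines {D : ℝ → ℝ} (hD : Measurable D) (hi : ∀ U, IntegrableOn D (Ioc 0 U))
    {C0 C : ℝ} (hb : ∀ u, 0 < u → |EP.intU D u| ≤ C0 * (1 + u))
    (hm : ∀ σ : ℝ, 0 < σ → Continuous fun y : ℝ => lapC (EP.intU D) ((σ : ℂ) + y * Complex.I))
    (hC : ∀ σ : ℝ, 0 < σ → σ ≤ 1 → ∫⁻ y : ℝ, ENNReal.ofReal (‖((σ : ℂ) + y * Complex.I) *
      lapC (EP.intU D) ((σ : ℂ) + y * Complex.I)‖ ^ 2) ≤ ENNReal.ofReal C) :
    ∫⁻ u in Ioi (0 : ℝ), ENNReal.ofReal (D u ^ 2) ≤ ENNReal.ofReal (Real.exp 2 * |C|) := by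
  set h : ℝ → ℝ := EP.intU D with hh
  have hmh : Measurable h := EP.intU_meas hD
  have h0 : ∀ u, u ≤ 0 → h u = 0 := by
    intro u hu
    rw [hh]
    unfold EP.intU
    rw [Ioc_eq_empty (by linarith)]
    simp
  set δ : ℕ → ℝ := fun n => 1 / ((n : ℝ) + 1) with hδ
  have hδ0 : ∀ n, 0 < δ n := fun n => by rw [hδ]; positivity
  have hδ1 : ∀ n, δ n ≤ 1 := fun n => by
    rw [hδ]
    simp only []
    rw [div_le_one (by positivity)]
    linarith [(Nat.cast_nonneg n : (0 : ℝ) ≤ n)]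
  have hδt : Tendsto δ atTop (𝓝 0) := tendsto_one_div_add_atTop_nhds_zero_nat
  set q : ℕ → ℝ → ℝ := fun n u => (h (u + δ n) - h u) / δ n * Real.exp (-(δ n * u)) with hq
  have hqm : ∀ n, Measurable (fun u => ENNReal.ofReal (q n u ^ 2)) := fun n => by
    rw [hq]
    have : Measurable fun u : ℝ => h (u + δ n) := hmh.comp (measurable_id.add_const _)
    fun_prop
  have hqb : ∀ n, ∫⁻ u in Ioi (0 : ℝ), ENNReal.ofReal (q n u ^ 2) ≤
      ENNReal.ofReal (Real.exp 2 * |C|) := by
    intro n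
    refine (setLIntegral_le_lintegral _ _).trans ?_
    refine (quot_sq hmh h0 hb (hδ0 n) (hδ0 n) (hm _ (hδ0 n)) (hC _ (hδ0 n) (hδ1 n))).trans ?_
    rw [ENNReal.ofReal_mul (Real.exp_pos 2).le]
    refine mul_le_mul' (ENNReal.ofReal_le_ofReal (Real.exp_le_exp.mpr ?_))
      (ENNReal.ofReal_le_ofReal (le_abs_self C))
    have := hδ0 n
    have := hδ1 n
    nlinarith
  have hae : ∀ᵐ u : ℝ ∂(volume.restrict (Ioi 0)), Tendsto (fun n => ENNReal.ofReal (q n u ^ 2)) atTop
      (𝓝 (ENNReal.ofReal (D u ^ 2))) := by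
    filter_upwards [ae_restrict_of_ae (ae_deriv hi), ae_restrict_mem measurableSet_Ioi] with u h1 h2
    refine (ENNReal.continuous_ofReal.tendsto _).comp ?_
    refine Tendsto.pow ?_ 2
    have h3 := (hasDerivAt_iff_tendsto_slope_zero.mp (h1 h2))
    have h4 : Tendsto δ atTop (𝓝[≠] 0) := tendsto_nhdsWithin_iff.mpr
      ⟨hδt, Eventually.of_forall fun n => (hδ0 n).ne'⟩
    have h5 := h3.comp h4
    have h6 : Tendsto (fun n => Real.exp (-(δ n * u))) atTop (𝓝 (Real.exp (-(0 * u)))) :=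
      (Real.continuous_exp.tendsto _).comp ((hδt.mul_const u).neg)
    have h7 := h5.mul h6
    rw [zero_mul, neg_zero, Real.exp_zero, mul_one] at h7
    refine h7.congr fun n => ?_
    simp only [Function.comp, hq, smul_eq_mul]
    ring
  calc ∫⁻ u in Ioi (0 : ℝ), ENNReal.ofReal (D u ^ 2) =
        ∫⁻ u in Ioi (0 : ℝ), liminf (fun n => ENNReal.ofReal (q n u ^ 2)) atTop := by
        refine lintegral_congr_ae ?_
        filter_upwards [hae] with u hu
        exact hu.liminf_eq.symm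
    _ ≤ liminf (fun n => ∫⁻ u in Ioi (0 : ℝ), ENNReal.ofReal (q n u ^ 2)) atTop :=
        lintegral_liminf_le hqm
    _ ≤ _ := by
        refine liminf_le_of_frequently_le' ?_
        exact Frequently.of_forall hqb

end Pool.Agent.W263.MS
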