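import Pool.Agent.W263.MS.Ptw
import Pool.Agent.W263.MN.Inv

/-! Square integrals over vertical lines. -/

set_option autoImplicit false

namespace Pool.Agent.W263.MS

open MeasureTheory Filter Topology Set Metric
open scoped ENNReal

/-- averaging over windows -/
theorem tonelli_window {g : ℝ → ℝ≥0∞} (hg : Measurable g) :
    ∫⁻ y, g y = ∫⁻ y0, ∫⁻ y in Icc (y0 - 1 / 2) (y0 + 1 / 2), g y := by
  have e1 : ∀ y0 : ℝ, ∫⁻ y in Icc (y0 - 1 / 2) (y0 + 1 / 2), g y =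
      ∫⁻ y, (Icc (y0 - 1 / 2) (y0 + 1 / 2)).indicator g y := fun y0 =>
    (lintegral_indicator measurableSet_Icc g).symm
  simp_rw [e1]
  have hm : Measurable (fun p : ℝ × ℝ => (Icc (p.1 - 1 / 2) (p.1 + 1 / 2)).indicator g p.2) := by
    have e2 : (fun p : ℝ × ℝ => (Icc (p.1 - 1 / 2) (p.1 + 1 / 2)).indicator g p.2) =
        {p : ℝ × ℝ | p.1 - 1 / 2 ≤ p.2 ∧ p.2 ≤ p.1 + 1 / 2}.indicator (fun p => g p.2) := by
      funext p
      by_cases h : p.2 ∈ Icc (p.1 - 1 / 2) (p.1 + 1 / 2)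
      · rw [indicator_of_mem h, indicator_of_mem (show p ∈ {p : ℝ × ℝ | p.1 - 1 / 2 ≤ p.2 ∧
          p.2 ≤ p.1 + 1 / 2} from h)]
      · rw [indicator_of_notMem h, indicator_of_notMem (show p ∉ {p : ℝ × ℝ | p.1 - 1 / 2 ≤ p.2 ∧
          p.2 ≤ p.1 + 1 / 2} from h)]
    rw [e2]
    refine (hg.comp measurable_snd).indicator ?_
    exact (measurableSet_le (by fun_prop : Measurable fun p : ℝ × ℝ => p.1 - 1 / 2)
      measurable_snd).inter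
      (measurableSet_le measurable_snd (by fun_prop : Measurable fun p : ℝ × ℝ => p.1 + 1 / 2))
  rw [lintegral_lintegral_swap hm.aemeasurable]
  refine lintegral_congr fun y => ?_
  have e3 : ∀ y0 : ℝ, (Icc (y0 - 1 / 2) (y0 + 1 / 2)).indicator g y =
      (Icc (y - 1 / 2) (y + 1 / 2)).indicator (fun _ => g y) y0 := by
    intro y0
    by_cases h : y ∈ Icc (y0 - 1 / 2) (y0 + 1 / 2)
    · have h' : y0 ∈ Icc (y - 1 / 2) (y + 1 / 2) := ⟨by linarith [h.2], by linarith [h.1]⟩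
      rw [indicator_of_mem h, indicator_of_mem h']
    · have h' : y0 ∉ Icc (y - 1 / 2) (y + 1 / 2) := fun h' =>
        h ⟨by linarith [h'.2], by linarith [h'.1]⟩
      rw [indicator_of_notMem h, indicator_of_notMem h']
  simp_rw [e3]
  rw [lintegral_indicator measurableSet_Icc, setLIntegral_const, Real.volume_Icc]
  have e4 : y + 1 / 2 - (y - 1 / 2) = 1 := by ring
  rw [e4, ENNReal.ofReal_one, mul_one]

/-- local square integrals -/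
theorem window_sq {Λ : ℂ → ℂ} {K : ℝ} (hK : 0 ≤ K)
    (h : ∀ y0 : ℝ, ∃ (n : ℕ) (t : Fin n → ℝ), (n : ℝ) ≤ K * (1 + |y0|) ^ (1 / 4 : ℝ) ∧
      ∀ σ : ℝ, 0 < σ → σ ≤ 1 → ∀ y : ℝ, |y - y0| ≤ 1 / 2 → (∀ i, y ≠ t i) →
        ‖Λ ((σ : ℂ) + y * Complex.I)‖ ≤ K * (1 + |y0|) ^ (1 / 4 : ℝ) +
          K * ∑ i, |y - t i| ^ (-(1 / 4) : ℝ)) :
    ∃ K' : ℝ, 0 ≤ K' ∧ ∀ σ : ℝ, 0 < σ → σ ≤ 1 → ∀ y0 : ℝ,
      ∫⁻ y in Icc (y0 - 1 / 2) (y0 + 1 / 2), ENNReal.ofReal (‖Λ ((σ : ℂ) + y * Complex.I)‖ ^ 2) ≤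
        ENNReal.ofReal (K' * (1 + |y0|) ^ (1 / 2 : ℝ)) := by
  set Cp : ℝ := ∫ u, psi (1 / 2) u with hCp
  have hCp0 : 0 ≤ Cp := integral_nonneg fun u => psi_nonneg _ _
  refine ⟨2 * K ^ 2 + 2 * K ^ 4 * (1 + Cp), by positivity, fun σ hσ hσ1 y0 => ?_⟩
  obtain ⟨n, t, hn, hb⟩ := h y0
  set Y : ℝ := (1 + |y0|) ^ (1 / 4 : ℝ) with hY
  have hY0 : 0 ≤ Y := by positivity
  have hY2 : Y ^ 2 = (1 + |y0|) ^ (1 / 2 : ℝ) := by
    rw [hY, ← Real.rpow_natCast, ← Real.rpow_mul (by positivity)]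
    norm_num
  set g : ℝ → ℝ := fun y => 2 * K ^ 2 * Y ^ 2 + 2 * K ^ 2 * n * ∑ i, |y - t i| ^ (-(1 / 2) : ℝ)
    with hg
  have hw := fun i => window (p := 1 / 2) (by norm_num) (by norm_num) (β := t i)
    (show y0 - 1 / 2 ≤ y0 + 1 / 2 by linarith)
  have hsum : IntegrableOn (fun y => ∑ i, |y - t i| ^ (-(1 / 2) : ℝ))
      (Icc (y0 - 1 / 2) (y0 + 1 / 2)) := integrable_finsetSum _ fun i _ => (hw i).1
  have hgi : IntegrableOn g (Icc (y0 - 1 / 2) (y0 + 1 / 2)) :=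
    (continuousOn_const.integrableOn_compact isCompact_Icc).add (hsum.const_mul _)
  have hg0 : ∀ y, 0 ≤ g y := fun y => by
    have : 0 ≤ ∑ i, |y - t i| ^ (-(1 / 2) : ℝ) :=
      Finset.sum_nonneg fun i _ => Real.rpow_nonneg (abs_nonneg _) _
    rw [hg]; positivity
  have hpt : ∀ y : ℝ, |y - y0| ≤ 1 / 2 → (∀ i, y ≠ t i) →
      ‖Λ ((σ : ℂ) + y * Complex.I)‖ ^ 2 ≤ g y := by
    intro y hy hyt
    have h1 := hb σ hσ hσ1 y hy hyt
    have h2 : (∑ i, |y - t i| ^ (-(1 / 4) : ℝ)) ^ 2 ≤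
        n * ∑ i, |y - t i| ^ (-(1 / 2) : ℝ) := by
      have h3 := sq_sum_le_card_mul_sum_sq (s := Finset.univ)
        (f := fun i : Fin n => |y - t i| ^ (-(1 / 4) : ℝ))
      rw [Finset.card_univ, Fintype.card_fin] at h3
      refine h3.trans (le_of_eq ?_)
      congr 1
      refine Finset.sum_congr rfl fun i _ => ?_
      rw [← Real.rpow_natCast, ← Real.rpow_mul (abs_nonneg _)]
      norm_num
    set s : ℝ := ∑ i, |y - t i| ^ (-(1 / 4) : ℝ) with hs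
    have hs0 : 0 ≤ s := Finset.sum_nonneg fun i _ => Real.rpow_nonneg (abs_nonneg _) _
    calc ‖Λ ((σ : ℂ) + y * Complex.I)‖ ^ 2 ≤ (K * Y + K * s) ^ 2 :=
          pow_le_pow_left₀ (norm_nonneg _) h1 2
      _ ≤ 2 * K ^ 2 * Y ^ 2 + 2 * K ^ 2 * s ^ 2 := by nlinarith [sq_nonneg (K * Y - K * s)]
      _ ≤ 2 * K ^ 2 * Y ^ 2 + 2 * K ^ 2 * (n * ∑ i, |y - t i| ^ (-(1 / 2) : ℝ)) := by gcongr
      _ = g y := by rw [hg]; ring
  have hae : ∀ᵐ y : ℝ ∂(volume.restrict (Icc (y0 - 1 / 2) (y0 + 1 / 2))),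
      ENNReal.ofReal (‖Λ ((σ : ℂ) + y * Complex.I)‖ ^ 2) ≤ ENNReal.ofReal (g y) := by
    have h1 : ∀ᵐ y : ℝ ∂(volume.restrict (Icc (y0 - 1 / 2) (y0 + 1 / 2))), ∀ i, y ≠ t i := by
      rw [ae_all_iff]
      intro i
      refine ae_restrict_of_ae ?_
      rw [ae_iff]
      simp
    filter_upwards [h1, ae_restrict_mem measurableSet_Icc] with y h2 h3
    exact ENNReal.ofReal_le_ofReal (hpt y (abs_le.mpr ⟨by linarith [h3.1], by linarith [h3.2]⟩) h2)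
  refine (lintegral_mono_ae hae).trans ?_
  rw [← ofReal_integral_eq_lintegral_ofReal hgi (Eventually.of_forall hg0)]
  refine ENNReal.ofReal_le_ofReal ?_
  have h1 : ∫ y in Icc (y0 - 1 / 2) (y0 + 1 / 2), g y =
      2 * K ^ 2 * Y ^ 2 + 2 * K ^ 2 * n * ∑ i, ∫ y in Icc (y0 - 1 / 2) (y0 + 1 / 2),
        |y - t i| ^ (-(1 / 2) : ℝ) := by
    rw [hg, integral_add (continuousOn_const.integrableOn_compact isCompact_Icc)
      (hsum.const_mul _), integral_const_mul (2 * K ^ 2 * (n : ℝ)),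
      integral_finsetSum _ fun i _ => (hw i).1]
    congr 1
    rw [integral_const, smul_eq_mul, Measure.real, Measure.restrict_apply_univ, Real.volume_Icc,
      ENNReal.toReal_ofReal (by linarith)]
    ring
  rw [h1]
  have h2 : ∑ i, ∫ y in Icc (y0 - 1 / 2) (y0 + 1 / 2), |y - t i| ^ (-(1 / 2) : ℝ) ≤
      n * (1 + Cp) := by
    have h3 : ∀ i ∈ (Finset.univ : Finset (Fin n)),
        ∫ y in Icc (y0 - 1 / 2) (y0 + 1 / 2), |y - t i| ^ (-(1 / 2) : ℝ) ≤ 1 + Cp := fun i _ => by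
      refine (hw i).2.trans (le_of_eq ?_)
      rw [hCp]; ring
    have := Finset.sum_le_card_nsmul _ _ _ h3
    rwa [Finset.card_univ, Fintype.card_fin, nsmul_eq_mul] at this
  have hn0 : (0 : ℝ) ≤ n := Nat.cast_nonneg n
  have h3 : 2 * K ^ 2 * n * ∑ i, ∫ y in Icc (y0 - 1 / 2) (y0 + 1 / 2),
      |y - t i| ^ (-(1 / 2) : ℝ) ≤ 2 * K ^ 2 * (K * Y) * ((K * Y) * (1 + Cp)) := by
    calc _ ≤ 2 * K ^ 2 * n * (n * (1 + Cp)) := by gcongr
      _ ≤ _ := by gcongr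
  rw [← hY2]
  calc _ ≤ 2 * K ^ 2 * Y ^ 2 + 2 * K ^ 2 * (K * Y) * ((K * Y) * (1 + Cp)) := by gcongr
    _ = _ := by ring

/-- the global square integral -/
theorem glob_sq {Λ G : ℂ → ℂ} {K K' : ℝ} (hK : 0 ≤ K) (hK' : 0 ≤ K')
    (hm : ∀ σ : ℝ, 0 < σ → Continuous fun y : ℝ => G ((σ : ℂ) + y * Complex.I))
    (hG : ∀ σ : ℝ, 0 < σ → σ ≤ 1 → ∀ y : ℝ, ‖G ((σ : ℂ) + y * Complex.I)‖ ≤
      K * (‖Λ ((σ : ℂ) + y * Complex.I)‖ + (1 + |y|) ^ (1 / 4 : ℝ)) / (1 + |y|))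
    (hΛ : ∀ σ : ℝ, 0 < σ → σ ≤ 1 → ∀ y0 : ℝ,
      ∫⁻ y in Icc (y0 - 1 / 2) (y0 + 1 / 2), ENNReal.ofReal (‖Λ ((σ : ℂ) + y * Complex.I)‖ ^ 2) ≤
        ENNReal.ofReal (K' * (1 + |y0|) ^ (1 / 2 : ℝ))) :
    ∃ C : ℝ, ∀ σ : ℝ, 0 < σ → σ ≤ 1 →
      ∫⁻ y : ℝ, ENNReal.ofReal (‖G ((σ : ℂ) + y * Complex.I)‖ ^ 2) ≤ ENNReal.ofReal C := by
  refine ⟨∫ y0 : ℝ, 8 * K ^ 2 * (K' + 2) * (1 + |y0|) ^ (-(3 / 2 : ℝ)), fun σ hσ hσ1 => ?_⟩
  have hmeas : Measurable fun y : ℝ => ENNReal.ofReal (‖G ((σ : ℂ) + y * Complex.I)‖ ^ 2) :=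
    ((hm σ hσ).norm.pow 2).measurable.ennreal_ofReal
  rw [tonelli_window hmeas, ofReal_integral_eq_lintegral_ofReal
    (MN.integrable_decay.const_mul _) (Eventually.of_forall fun y0 => by positivity)]
  refine lintegral_mono fun y0 => ?_
  set Y : ℝ := 1 + |y0| with hY
  have hY0 : 0 < Y := by rw [hY]; positivity
  have hY1 : 1 ≤ Y := by rw [hY]; linarith [abs_nonneg y0]
  have hpt : ∀ y ∈ Icc (y0 - 1 / 2) (y0 + 1 / 2),
      ENNReal.ofReal (‖G ((σ : ℂ) + y * Complex.I)‖ ^ 2) ≤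
        ENNReal.ofReal (8 * K ^ 2 / Y ^ 2) *
          (ENNReal.ofReal (‖Λ ((σ : ℂ) + y * Complex.I)‖ ^ 2) +
            ENNReal.ofReal (2 * Y ^ (1 / 2 : ℝ))) := by
    intro y hy
    have h1 := hG σ hσ hσ1 y
    have hyy : |y - y0| ≤ 1 / 2 := abs_le.mpr ⟨by linarith [hy.1], by linarith [hy.2]⟩
    have h2 : |y0| ≤ |y| + 1 / 2 := by
      have := abs_sub_abs_le_abs_sub y0 y
      rw [abs_sub_comm] at this
      linarith
    have h3 : |y| ≤ |y0| + 1 / 2 := by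
      have := abs_sub_abs_le_abs_sub y y0
      linarith
    have h4 : Y / 2 ≤ 1 + |y| := by rw [hY]; linarith [abs_nonneg y0]
    have h5 : 1 + |y| ≤ 2 * Y := by rw [hY]; linarith [abs_nonneg y0]
    have h6 : 0 < 1 + |y| := by positivity
    set l : ℝ := ‖Λ ((σ : ℂ) + y * Complex.I)‖ with hl
    have hl0 : 0 ≤ l := norm_nonneg _
    set q : ℝ := (1 + |y|) ^ (1 / 4 : ℝ) with hq
    have hq0 : 0 ≤ q := by positivity
    have hq2 : q ^ 2 ≤ 2 * Y ^ (1 / 2 : ℝ) := by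
      have e1 : q ^ 2 = (1 + |y|) ^ (1 / 2 : ℝ) := by
        rw [hq, ← Real.rpow_natCast, ← Real.rpow_mul h6.le]
        norm_num
      rw [e1]
      calc (1 + |y|) ^ (1 / 2 : ℝ) ≤ (2 * Y) ^ (1 / 2 : ℝ) := by gcongr
        _ = 2 ^ (1 / 2 : ℝ) * Y ^ (1 / 2 : ℝ) := Real.mul_rpow (by norm_num) hY0.le
        _ ≤ 2 * Y ^ (1 / 2 : ℝ) := by
            refine mul_le_mul_of_nonneg_right ?_ (by positivity)
            calc (2 : ℝ) ^ (1 / 2 : ℝ) ≤ 2 ^ (1 : ℝ) :=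
                  Real.rpow_le_rpow_of_exponent_le (by norm_num) (by norm_num)
              _ = 2 := Real.rpow_one 2
    have h7 : ‖G ((σ : ℂ) + y * Complex.I)‖ ^ 2 ≤ 8 * K ^ 2 / Y ^ 2 *
        (l ^ 2 + 2 * Y ^ (1 / 2 : ℝ)) := by
      calc ‖G ((σ : ℂ) + y * Complex.I)‖ ^ 2 ≤ (K * (l + q) / (1 + |y|)) ^ 2 :=
            pow_le_pow_left₀ (norm_nonneg _) h1 2
        _ = K ^ 2 * (l + q) ^ 2 / (1 + |y|) ^ 2 := by rw [div_pow, mul_pow]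
        _ ≤ K ^ 2 * (2 * (l ^ 2 + q ^ 2)) / (Y / 2) ^ 2 := by
            gcongr
            nlinarith [sq_nonneg (l - q)]
        _ = 8 * K ^ 2 / Y ^ 2 * (l ^ 2 + q ^ 2) := by field_simp; ring
        _ ≤ _ := by gcongr
    rw [← ENNReal.ofReal_add (by positivity) (by positivity),
      ← ENNReal.ofReal_mul (by positivity)]
    exact ENNReal.ofReal_le_ofReal h7
  refine (setLIntegral_mono' measurableSet_Icc hpt).trans ?_
  rw [lintegral_const_mul' _ _ ENNReal.ofReal_ne_top, lintegral_add_right _ measurable_const,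
    setLIntegral_const, Real.volume_Icc]
  have e4 : y0 + 1 / 2 - (y0 - 1 / 2) = 1 := by ring
  rw [e4, ENNReal.ofReal_one, mul_one]
  calc _ ≤ ENNReal.ofReal (8 * K ^ 2 / Y ^ 2) * (ENNReal.ofReal (K' * Y ^ (1 / 2 : ℝ)) +
        ENNReal.ofReal (2 * Y ^ (1 / 2 : ℝ))) := by
        gcongr
        exact hΛ σ hσ hσ1 y0
    _ = ENNReal.ofReal (8 * K ^ 2 / Y ^ 2 * (K' * Y ^ (1 / 2 : ℝ) + 2 * Y ^ (1 / 2 : ℝ))) := by
        rw [← ENNReal.ofReal_add (by positivity) (by positivity),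
          ← ENNReal.ofReal_mul (by positivity)]
    _ ≤ _ := by
        refine ENNReal.ofReal_le_ofReal (le_of_eq ?_)
        have e5 : Y ^ (-(3 / 2 : ℝ)) = Y ^ (1 / 2 : ℝ) / Y ^ 2 := by
          rw [← Real.rpow_natCast, ← Real.rpow_sub hY0]
          norm_num
        rw [e5]
        ring

end Pool.Agent.W263.MS
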