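import Pool.Agent.W263.MS.Trans
import Pool.Agent.W263.MS.Sq
import Pool.Agent.W263.MS.Pl

/-! The mean square theorem under the Riemann hypothesis. -/

set_option autoImplicit false

namespace Pool.Agent.W263.MS

open MeasureTheory Filter Topology Set Classical
open Pool.Agent.W263.BSD Pool.Agent.W263.EP Pool.Agent.W263.MN Pool.Agent.W263.LG
open Pool.Agent.H341R2 (NormSys)

theorem near_zero {g g' : ℂ → ℂ} {δ M : ℝ} (hδ : 0 < δ)
    (hd : ∀ w : ℂ, 0 < w.re → ‖w‖ < δ → HasDerivAt g (g' w) w)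
    (hb : ∀ w : ℂ, 0 < w.re → ‖w‖ < δ → ‖g' w‖ ≤ M)
    (h0 : Tendsto (fun x : ℝ => g x) (𝓝[>] 0) (𝓝 0)) {w : ℂ} (hw : 0 < w.re) (hwδ : ‖w‖ < δ) :
    ‖g w‖ ≤ M * ‖w‖ := by
  set U : Set ℂ := {z : ℂ | 0 < z.re} ∩ Metric.ball 0 δ with hU
  have hUc : Convex ℝ U := (convex_halfSpace_re_gt 0).inter (convex_ball _ _)
  have hmem : ∀ z : ℂ, z ∈ U ↔ 0 < z.re ∧ ‖z‖ < δ := fun z => by
    rw [hU, mem_inter_iff, Metric.mem_ball, dist_zero_right]
    rfl
  have h1 : ∀ᶠ x : ℝ in 𝓝[>] 0, ‖g w - g x‖ ≤ M * ‖w - x‖ := by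
    filter_upwards [Ioo_mem_nhdsGT hδ] with x hx
    have hxU : (x : ℂ) ∈ U := (hmem _).mpr ⟨by simpa using hx.1, by
      rw [Complex.norm_real, Real.norm_eq_abs, abs_of_pos hx.1]; exact hx.2⟩
    exact hUc.norm_image_sub_le_of_norm_hasDerivWithin_le
      (fun z hz => (hd z ((hmem z).mp hz).1 ((hmem z).mp hz).2).hasDerivWithinAt)
      (fun z hz => hb z ((hmem z).mp hz).1 ((hmem z).mp hz).2) hxU ((hmem w).mpr ⟨hw, hwδ⟩)
  have h2 : Tendsto (fun x : ℝ => ‖g w - g x‖) (𝓝[>] 0) (𝓝 ‖g w - 0‖) :=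
    (tendsto_const_nhds.sub h0).norm
  have h3 : Tendsto (fun x : ℝ => M * ‖w - (x : ℂ)‖) (𝓝[>] 0) (𝓝 (M * ‖w - ((0 : ℝ) : ℂ)‖)) := by
    have : Continuous fun x : ℝ => M * ‖w - (x : ℂ)‖ := by fun_prop
    exact tendsto_nhdsWithin_of_tendsto_nhds (this.tendsto 0)
  have h4 := le_of_tendsto_of_tendsto h2 h3 h1
  simpa using h4

theorem transform_bound {Λ g G : ℂ → ℂ} {ρ L δ M : ℝ} (hδ : 0 < δ)
    (hg : ∀ w : ℂ, 0 < w.re → g w = Λ w - ρ * Complex.log w - L)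
    (hG : ∀ w : ℂ, 0 < w.re → w * G w = g w)
    (hnear : ∀ w : ℂ, 0 < w.re → ‖w‖ < δ → ‖g w‖ ≤ M * ‖w‖) :
    ∃ K : ℝ, 0 ≤ K ∧ ∀ σ : ℝ, 0 < σ → σ ≤ 1 → ∀ y : ℝ, ‖G ((σ : ℂ) + y * Complex.I)‖ ≤
      K * (‖Λ ((σ : ℂ) + y * Complex.I)‖ + (1 + |y|) ^ (1 / 4 : ℝ)) / (1 + |y|) := by
  set K1 : ℝ := 1 + |ρ| * (4 + |Real.log δ| + Real.pi) + |L| with hK1
  have hK1n : 0 ≤ K1 := by have := Real.pi_pos; positivity
  refine ⟨|M| * (1 + δ) + K1 * (1 / δ + 1), by positivity, fun σ hσ hσ1 y => ?_⟩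
  set w : ℂ := (σ : ℂ) + y * Complex.I with hw
  have hre : w.re = σ := by simp [hw]
  have him : w.im = y := by simp [hw]
  have hwre : 0 < w.re := by rw [hre]; exact hσ
  have hyw : |y| ≤ ‖w‖ := by rw [← him]; exact Complex.abs_im_le_norm w
  have hwy : ‖w‖ ≤ 1 + |y| := by
    refine (Complex.norm_le_abs_re_add_abs_im w).trans ?_
    rw [hre, him, abs_of_pos hσ]
    linarith
  have hw0 : 0 < ‖w‖ := norm_pos_iff.mpr (by
    intro h
    rw [h, Complex.zero_re] at hwre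
    exact lt_irrefl _ hwre)
  set q : ℝ := (1 + |y|) ^ (1 / 4 : ℝ) with hq
  have hy1 : (1 : ℝ) ≤ 1 + |y| := by linarith [abs_nonneg y]
  have hq1 : 1 ≤ q := Real.one_le_rpow hy1 (by norm_num)
  have hl0 : 0 ≤ ‖Λ w‖ := norm_nonneg _
  have hGw : ‖G w‖ = ‖g w‖ / ‖w‖ := by
    rw [← hG w hwre, norm_mul, mul_div_cancel_left₀ _ hw0.ne']
  rw [le_div_iff₀ (by linarith)]
  rcases lt_or_ge ‖w‖ δ with h | h
  · have h1 : ‖G w‖ ≤ |M| := by
      rw [hGw, div_le_iff₀ hw0]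
      exact (hnear w hwre h).trans (mul_le_mul_of_nonneg_right (le_abs_self M) hw0.le)
    have h2 : 1 + |y| ≤ 1 + δ := by linarith
    have h3 : ‖G w‖ * (1 + |y|) ≤ |M| * (1 + δ) := by gcongr
    have h4 : |M| * (1 + δ) ≤ |M| * (1 + δ) * (‖Λ w‖ + q) :=
      le_mul_of_one_le_right (by positivity) (by linarith)
    have h5 : 0 ≤ K1 * (1 / δ + 1) * (‖Λ w‖ + q) := by positivity
    linarith
  · have hlog : ‖Complex.log w‖ ≤ (4 + |Real.log δ| + Real.pi) * q := by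
      have h1 : ‖Complex.log w‖ ≤ |Real.log ‖w‖| + Real.pi := by
        refine (Complex.norm_le_abs_re_add_abs_im _).trans ?_
        rw [Complex.log_re, Complex.log_im]
        have := Complex.abs_arg_le_pi w
        linarith
      have h2 : |Real.log ‖w‖| ≤ (4 + |Real.log δ|) * q := by
        have h3 : Real.log ‖w‖ ≤ 4 * q := (Real.log_le_log hw0 hwy).trans (log_le_qr hy1)
        have h4 : Real.log δ ≤ Real.log ‖w‖ := Real.log_le_log hδ h
        have h5 := neg_abs_le (Real.log δ)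
        have h6 := abs_nonneg (Real.log δ)
        rw [abs_le]
        constructor
        · nlinarith
        · nlinarith
      have h3 : Real.pi ≤ Real.pi * q := le_mul_of_one_le_right Real.pi_pos.le hq1
      linarith
    have hgw : ‖g w‖ ≤ K1 * (‖Λ w‖ + q) := by
      rw [hg w hwre]
      have h1 : ‖Λ w - ρ * Complex.log w - L‖ ≤ ‖Λ w‖ + |ρ| * ‖Complex.log w‖ + |L| := by
        refine (norm_sub_le _ _).trans ?_
        rw [Complex.norm_real, Real.norm_eq_abs]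
        gcongr
        refine (norm_sub_le _ _).trans ?_
        rw [norm_mul, Complex.norm_real, Real.norm_eq_abs]
      have h2 : |ρ| * ‖Complex.log w‖ ≤ |ρ| * ((4 + |Real.log δ| + Real.pi) * q) := by gcongr
      have h3 : |L| ≤ |L| * q := le_mul_of_one_le_right (abs_nonneg L) hq1
      have h4 : 0 ≤ (|ρ| * (4 + |Real.log δ| + Real.pi) + |L|) * ‖Λ w‖ := by
        have := Real.pi_pos; positivity
      rw [hK1]
      nlinarith
    have h1 : 1 + |y| ≤ (1 / δ + 1) * ‖w‖ := by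
      have : 1 ≤ 1 / δ * ‖w‖ := by rw [one_div_mul_eq_div, le_div_iff₀ hδ]; linarith
      linarith
    have h2 : ‖G w‖ * (1 + |y|) ≤ ‖g w‖ * (1 / δ + 1) := by
      calc ‖G w‖ * (1 + |y|) ≤ ‖G w‖ * ((1 / δ + 1) * ‖w‖) := by gcongr
        _ = (‖g w‖ / ‖w‖ * ‖w‖) * (1 / δ + 1) := by rw [hGw]; ring
        _ = _ := by rw [div_mul_cancel₀ _ hw0.ne']
    have h3 : ‖g w‖ * (1 / δ + 1) ≤ K1 * (‖Λ w‖ + q) * (1 / δ + 1) := by gcongr
    have h4 : 0 ≤ |M| * (1 + δ) * (‖Λ w‖ + q) := by positivity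
    linarith

variable {S : NormSys} {Bs : Finset S.X} {tr : S.X → ℕ → ℝ} {ω : ℝ} {D : ℝ} {F G : ℂ → ℂ}
  {ρ L : ℝ} {n : ℤ}

/-- **Theorem (mean square).** On the Riemann hypothesis and polynomial growth the remainder is
square integrable. -/
theorem ms_of_RH (E : TData S (tn S (Bs : Set S.X) tr ω) D)
    (hF : IsFull S (Bs : Set S.X) tr ω F)
    (hd : ∀ s : ℂ, (ω + 1) / 2 - 1 < s.re → DifferentiableAt ℂ F s)
    (hn : meromorphicOrderAt F (((ω + 1) / 2 : ℝ) : ℂ) = n) (hL : CLim ((ω + 1) / 2) F n L)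
    (hg : ∃ (C : ℝ) (A : ℕ), ∀ s : ℂ, (ω + 1) / 2 - 1 < s.re → ‖F s‖ ≤ C * (1 + ‖s‖) ^ A) :
    ∫⁻ u in Ioi (0 : ℝ), ENNReal.ofReal (rem (ap S (tn S (Bs : Set S.X) tr ω)) n L 0 u ^ 2) < ⊤ := by
  have P := pair E
  obtain ⟨C, A, hC⟩ := hg
  have hcre : ((((ω + 1) / 2 : ℝ)) : ℂ).re = (ω + 1) / 2 := Complex.ofReal_re _
  have hA : AnalyticAt ℂ F (((ω + 1) / 2 : ℝ) : ℂ) := by
    refine Complex.analyticAt_iff_eventually_differentiableAt.mpr ?_
    filter_upwards [(isOpen_half ((ω + 1) / 2 - 1)).mem_nhds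
      (show (ω + 1) / 2 - 1 < ((((ω + 1) / 2 : ℝ)) : ℂ).re by rw [hcre]; linarith)] with z hz
      using hd z hz
  have hm : MeromorphicAt F (((ω + 1) / 2 : ℝ) : ℂ) := hA.meromorphicAt
  obtain ⟨⟨C1, hC1⟩, _⟩ := growth_rem E hF hm hn hL ⟨C, A, fun s hs => hC s (by linarith)⟩
  have hlow := lower_rem (S := S) (k := 1) (K := C1) (ρ := n) (L := L)
    (hC1.mono fun x hx => (abs_le.mp hx).1)
  have hconv := conv_of_rem (dataP E hF.isCont) hlow
  set a := ap S (tn S (Bs : Set S.X) tr ω) with ha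
  set D0 : ℝ → ℝ := rem a n L 0 with hD0
  have hrem : ∀ u, 0 < u → EP.intU D0 u = rem a n L 1 u := fun u hu => rem_intU P.am P.al 0 hu
  have hlapC : ∀ w : ℂ, lapC (EP.intU D0) w = lapC (rem a n L 1) w := by
    intro w
    unfold lapC
    refine setIntegral_congr_fun measurableSet_Ioi fun u hu => ?_
    simp only [hrem u hu]
  have hLI : ∀ w > 0, LInt (EP.intU D0) w := fun w hw =>
    (LInt_congr fun u hu => (hrem u hu)).mpr ((rem_LInt hw).mpr (hconv w hw))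
  -- linear bound
  have hb : ∃ C0 : ℝ, ∀ u, 0 < u → |EP.intU D0 u| ≤ C0 * (1 + u) := by
    have h1 : ∀ᶠ u : ℝ in atTop, |rem a n L 1 u| ≤ C1 * u := by
      filter_upwards [ev_exp hC1, eventually_gt_atTop 0] with u h2 hu
      rw [ha, rem_MK 1 hu, abs_mul, abs_of_nonneg (pk_nonneg _ hu.le)]
      have e1 : pk 1 u = u := by unfold pk; norm_num
      rw [e1, mul_comm]
      exact mul_le_mul_of_nonneg_right h2 hu.le
    obtain ⟨U, hU⟩ := eventually_atTop.mp h1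
    obtain ⟨B, hB⟩ := rem_loc (ρ := n) (L := L) P.al 0 (max U 1)
    refine ⟨|B| + |C1|, fun u hu => ?_⟩
    rw [hrem u hu]
    rcases le_or_gt u (max U 1) with h2 | h2
    · have h3 := hB u hu h2
      have h4 := le_abs_self B
      have h5 := abs_nonneg B
      have h6 := abs_nonneg C1
      nlinarith
    · have h3 := hU u ((le_max_left _ _).trans h2.le)
      have h4 := le_abs_self C1
      have h5 := abs_nonneg B
      have h6 := abs_nonneg C1
      nlinarith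
  obtain ⟨C0, hb⟩ := hb
  -- the functions
  set f : ℂ → ℂ := fun w => F (((ω : ℂ) + 1) / 2 + w) with hf
  have hreadd : ∀ w : ℂ, (((ω : ℂ) + 1) / 2 + w).re = (ω + 1) / 2 + w.re := fun w => by
    rw [Complex.add_re, ← c_cast, Complex.ofReal_re]
  have hLd : ∀ w : ℂ, 0 < w.re → HasDerivAt (Lam S (Bs : Set S.X) tr ω) (deriv f w / f w) w :=
    fun w hw => Lam_deriv E hF hconv hw
  obtain ⟨KL, hKL⟩ := Lam_bdd E
  obtain ⟨m, hm0, hmlow⟩ := LF_low E
  obtain ⟨K, hK0, hK⟩ := ptw (f := f) (Λ := Lam S (Bs : Set S.X) tr ω)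
    (C := |C| * (1 + ‖((ω : ℂ) + 1) / 2‖) ^ A) (A := A) hm0
    (fun w hw => by
      have h1 := hd (((ω : ℂ) + 1) / 2 + w) (by rw [hreadd]; linarith)
      exact DifferentiableAt.comp (g := F) w h1 (by fun_prop))
    (fun w hw => hF.2.1 _ (by rw [hreadd]; linarith))
    (fun w hw => by
      have h1 := hC (((ω : ℂ) + 1) / 2 + w) (by rw [hreadd]; linarith)
      refine h1.trans ?_
      have h2 : 1 + ‖((ω : ℂ) + 1) / 2 + w‖ ≤ (1 + ‖((ω : ℂ) + 1) / 2‖) * (1 + ‖w‖) := by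
        have := norm_add_le (((ω : ℂ) + 1) / 2) w
        have : 0 ≤ ‖((ω : ℂ) + 1) / 2‖ * ‖w‖ := by positivity
        linarith
      calc C * (1 + ‖((ω : ℂ) + 1) / 2 + w‖) ^ A ≤ |C| * (1 + ‖((ω : ℂ) + 1) / 2 + w‖) ^ A :=
            mul_le_mul_of_nonneg_right (le_abs_self C) (by positivity)
        _ ≤ |C| * ((1 + ‖((ω : ℂ) + 1) / 2‖) * (1 + ‖w‖)) ^ A := by gcongr
        _ = _ := by rw [mul_pow]; ring)
    (fun w hw => by
      have h1 := hmlow (((ω : ℂ) + 1) / 2 + w) (by rw [hreadd, hw])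
      rw [← hF.2.2 (((ω : ℂ) + 1) / 2 + w) (by rw [hreadd, hw]; linarith)] at h1
      exact h1)
    hLd hKL
  obtain ⟨K', hK'0, hK'⟩ := window_sq hK0 hK
  -- near the centre
  obtain ⟨δ, hδ, M, hM⟩ := near_centre (c := (ω + 1) / 2) (G := F) hm hn
    (fun s hs => hd s (by linarith)) (fun s _ => rfl)
  set g : ℂ → ℂ := fun w => Lam S (Bs : Set S.X) tr ω w - (n : ℝ) * Complex.log w - L with hgdef
  have hgd : ∀ w : ℂ, 0 < w.re → HasDerivAt g (deriv f w / f w - n / w) w := by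
    intro w hw
    have h1 := (hLd w hw).sub
      ((Complex.hasDerivAt_log (Or.inl hw)).const_mul (((n : ℝ) : ℂ)))
    have h2 := h1.sub_const (L : ℂ)
    refine h2.congr_deriv ?_
    push_cast
    rw [div_eq_mul_inv (n : ℂ) w]
  have hgzero : Tendsto (fun x : ℝ => g x) (𝓝[>] 0) (𝓝 0) := by
    have h1 : LimL (fun w => F (((ω : ℂ) + 1) / 2 + w)) n L := hL.shift
    have h2 : Tendsto (fun w : ℝ => w ^ 2 * lap (rem a n L 1) w) (𝓝[>] 0) (𝓝 0) :=
      (limL_iff (k := 1) (dataP E hF.isCont) hconv).mp h1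
    have h3 : Tendsto (fun w : ℝ => ((w ^ 2 * lap (rem a n L 1) w : ℝ) : ℂ)) (𝓝[>] 0)
        (𝓝 ((0 : ℝ) : ℂ)) := (Complex.continuous_ofReal.tendsto 0).comp h2
    rw [Complex.ofReal_zero] at h3
    refine h3.congr' ?_
    filter_upwards [self_mem_nhdsWithin] with x hx
    have hx0 : (0 : ℝ) < x := hx
    have h4 := lapC_rem (ρ := n) (L := L) hconv (w := (x : ℂ)) (by simpa using hx0)
    rw [lapC_ofReal] at h4
    rw [hgdef]
    simp only []
    rw [← h4]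
    push_cast
    rfl
  have hnear : ∀ w : ℂ, 0 < w.re → ‖w‖ < δ → ‖g w‖ ≤ M * ‖w‖ := by
    intro w hw hwδ
    refine near_zero hδ (fun z hz _ => hgd z hz) (fun z hz hzδ => ?_) hgzero hw hwδ
    have h1 := hM (((ω : ℂ) + 1) / 2 + z) (by rw [hreadd]; linarith) (by
      rw [c_cast, add_sub_cancel_left]; exact hzδ)
    rw [c_cast, add_sub_cancel_left] at h1
    have h2 : deriv f z = deriv F (((ω : ℂ) + 1) / 2 + z) := by
      rw [hf]
      exact deriv_comp_const_add _ _ _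
    rw [h2]
    exact h1
  obtain ⟨K2, hK20, hK2⟩ := transform_bound (Λ := Lam S (Bs : Set S.X) tr ω) (g := g)
    (G := fun w => w * lapC (EP.intU D0) w) (ρ := n) (L := L) hδ (fun w _ => rfl)
    (fun w hw => by
      rw [hlapC, ← mul_assoc, ← pow_two, lapC_rem hconv hw]) hnear
  have hcont : ∀ σ : ℝ, 0 < σ → Continuous fun y : ℝ =>
      lapC (EP.intU D0) ((σ : ℂ) + y * Complex.I) := by
    intro σ hσ
    refine continuous_iff_continuousAt.mpr fun y => ?_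
    have h1 : ContinuousAt (lapC (EP.intU D0)) ((σ : ℂ) + y * Complex.I) :=
      (lapC_differentiableAt (EP.intU_meas (rem_meas P.am 0)) hLI (by simpa using hσ)).continuousAt
    exact ContinuousAt.comp (f := fun y : ℝ => (σ : ℂ) + y * Complex.I) h1
      (by fun_prop : Continuous fun y : ℝ => (σ : ℂ) + y * Complex.I).continuousAt
  obtain ⟨C3, hC3⟩ := glob_sq (Λ := Lam S (Bs : Set S.X) tr ω)
    (G := fun w => w * lapC (EP.intU D0) w) hK20 hK'0
    (fun σ hσ => (by fun_prop : Continuous fun y : ℝ => (σ : ℂ) + y * Complex.I).mul (hcont σ hσ))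
    hK2 hK'
  exact (sq_of_lines (rem_meas P.am 0) (rem_int P.am P.al 0) hb hcont hC3).trans_lt
    ENNReal.ofReal_lt_top

end Pool.Agent.W263.MS
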