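import Pool.Agent.W263.MS.Pl

/-! Plancherel on single vertical lines. -/

set_option autoImplicit false

namespace Pool.Agent.W263.MS

open MeasureTheory Filter Topology Set
open Pool.Agent.W263.BSD Pool.Agent.W263.EP
open scoped ENNReal FourierTransform

/-- square integral of the difference quotients -/
theorem quot_sq' {h : ℝ → ℝ} (h0 : ∀ u, u ≤ 0 → h u = 0) {σ δ : ℝ} (hσ : 0 < σ) (hδ : 0 < δ)
    {C : ℝ≥0∞} (hPi : Integrable (fun u : ℝ => (h u : ℂ) * Complex.exp (-(σ * u))))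
    (hP2 : MemLp (fun u : ℝ => (h u : ℂ) * Complex.exp (-(σ * u))) 2)
    (hmG : Continuous fun y : ℝ => lapC h ((σ : ℂ) + y * Complex.I))
    (hC : ∫⁻ y : ℝ, ENNReal.ofReal (‖((σ : ℂ) + y * Complex.I) *
      lapC h ((σ : ℂ) + y * Complex.I)‖ ^ 2) ≤ C) :
    ∫⁻ u : ℝ, ENNReal.ofReal (((h (u + δ) - h u) / δ * Real.exp (-(σ * u))) ^ 2) ≤
      ENNReal.ofReal (Real.exp (2 * σ * δ)) * C := by
  set P : ℝ → ℂ := fun u : ℝ => (h u : ℂ) * Complex.exp (-(σ * u)) with hP
  set T : ℝ → ℂ := fun u => P (u + δ) with hT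
  have hTi : Integrable T := hPi.comp_add_right δ
  have hT2 : MemLp T 2 := hP2.comp_measurePreserving (measurePreserving_add_right volume δ)
  set F : ℝ → ℂ := fun u => ((Real.exp (σ * δ) / δ : ℝ) : ℂ) * T u - ((1 / δ : ℝ) : ℂ) * P u with hF
  have hFi : Integrable F := (hTi.const_mul _).sub (hPi.const_mul _)
  have hF2 : MemLp F 2 := (hT2.const_mul _).sub (hP2.const_mul _)
  have hFv : ∀ u, F u = (((h (u + δ) - h u) / δ * Real.exp (-(σ * u)) : ℝ) : ℂ) := by
    intro u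
    rw [hF, hT, hP]
    simp only []
    have e1 : Complex.exp (-((σ : ℂ) * ((u + δ : ℝ) : ℂ))) =
        ((Real.exp (-(σ * u)) * Real.exp (-(σ * δ)) : ℝ) : ℂ) := by
      rw [← Real.exp_add, Complex.ofReal_exp]
      congr 1
      push_cast
      ring
    have e2 : Complex.exp (-((σ : ℂ) * (u : ℂ))) = ((Real.exp (-(σ * u)) : ℝ) : ℂ) := by
      rw [Complex.ofReal_exp]
      congr 1
      push_cast
      ring
    have e3 : Real.exp (σ * δ) * Real.exp (-(σ * δ)) = 1 := by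
      rw [← Real.exp_add, add_neg_cancel, Real.exp_zero]
    rw [e1, e2, ← Complex.ofReal_mul, ← Complex.ofReal_mul, ← Complex.ofReal_mul,
      ← Complex.ofReal_mul, ← Complex.ofReal_sub]
    congr 1
    have hδ' := hδ.ne'
    field_simp
    linear_combination (h (u + δ)) * e3
  have hfour : ∀ ξ : ℝ, 𝓕 F ξ = ((Complex.exp (((σ : ℂ) + (2 * Real.pi * ξ : ℝ) * Complex.I) * δ) - 1)
      / δ) * lapC h ((σ : ℂ) + (2 * Real.pi * ξ : ℝ) * Complex.I) := by
    intro ξ
    have e0 := fourier_P h0 σ ξ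
    have e1 : 𝓕 T ξ = Complex.exp (2 * Real.pi * ξ * δ * Complex.I) * 𝓕 P ξ := by
      rw [Real.fourier_real_eq_integral_exp_smul, Real.fourier_real_eq_integral_exp_smul,
        ← integral_const_mul]
      rw [← integral_add_right_eq_self (fun v : ℝ => Complex.exp (2 * Real.pi * ξ * δ * Complex.I) *
        Complex.exp (((-2 * Real.pi * v * ξ : ℝ) : ℂ) * Complex.I) • P v) δ]
      refine integral_congr_ae (Eventually.of_forall fun v => ?_)
      have e2 : Complex.exp (((-2 * Real.pi * v * ξ : ℝ) : ℂ) * Complex.I) =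
          Complex.exp (2 * Real.pi * ξ * δ * Complex.I) *
            Complex.exp (((-2 * Real.pi * (v + δ) * ξ : ℝ) : ℂ) * Complex.I) := by
        rw [← Complex.exp_add]
        congr 1
        push_cast
        ring
      show Complex.exp (((-2 * Real.pi * v * ξ : ℝ) : ℂ) * Complex.I) * P (v + δ) =
        Complex.exp (2 * Real.pi * ξ * δ * Complex.I) *
          (Complex.exp (((-2 * Real.pi * (v + δ) * ξ : ℝ) : ℂ) * Complex.I) * P (v + δ))
      rw [e2, mul_assoc]
    rw [hF, four_lin hTi hPi, e1]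
    rw [hP, e0]
    have e4 : Complex.exp (((σ : ℂ) + (2 * Real.pi * ξ : ℝ) * Complex.I) * δ) =
        (Real.exp (σ * δ) : ℂ) * Complex.exp (2 * Real.pi * ξ * δ * Complex.I) := by
      rw [Complex.ofReal_exp, ← Complex.exp_add]
      congr 1
      push_cast
      ring
    rw [e4]
    have hδ' : (δ : ℂ) ≠ 0 := by exact_mod_cast hδ.ne'
    push_cast
    field_simp
  have hpl := Pool.Agent.Helper76.NormalHP.plancherel_lintegral F hFi hF2
  have hL : ∫⁻ u : ℝ, ENNReal.ofReal (((h (u + δ) - h u) / δ * Real.exp (-(σ * u))) ^ 2) =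
      ∫⁻ t, ‖F t‖ₑ ^ 2 := by
    refine lintegral_congr fun u => ?_
    rw [hFv u, ← ofReal_norm, Complex.norm_real, Real.norm_eq_abs, ← ENNReal.ofReal_pow (abs_nonneg _),
      sq_abs]
  rw [hL, ← hpl]
  have hR : ∀ ξ : ℝ, ‖𝓕 F ξ‖ₑ ^ 2 ≤ ENNReal.ofReal (Real.exp (2 * σ * δ)) *
      (fun y : ℝ => ENNReal.ofReal (‖((σ : ℂ) + y * Complex.I) *
        lapC h ((σ : ℂ) + y * Complex.I)‖ ^ 2)) (2 * Real.pi * ξ) := by
    intro ξ
    simp only []
    rw [hfour ξ, ← ofReal_norm, ← ENNReal.ofReal_pow (norm_nonneg _),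
      ← ENNReal.ofReal_mul (by positivity)]
    refine ENNReal.ofReal_le_ofReal ?_
    set w : ℂ := (σ : ℂ) + (2 * Real.pi * ξ : ℝ) * Complex.I with hw
    have hwre : (w * δ).re = σ * δ := by
      rw [hw]; simp
    have e5 := exp_sub_one_le (w * δ) (by rw [hwre]; positivity)
    rw [hwre, norm_mul w, Complex.norm_real, Real.norm_eq_abs, abs_of_pos hδ] at e5
    have e6 : ‖(Complex.exp (w * δ) - 1) / δ * lapC h w‖ ≤ Real.exp (σ * δ) * ‖w * lapC h w‖ := by
      rw [norm_mul, norm_div, Complex.norm_real, Real.norm_eq_abs, abs_of_pos hδ, norm_mul w]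
      have e7 : ‖Complex.exp (w * δ) - 1‖ / δ ≤ ‖w‖ * Real.exp (σ * δ) := by
        rw [div_le_iff₀ hδ]
        linarith
      calc _ ≤ (‖w‖ * Real.exp (σ * δ)) * ‖lapC h w‖ :=
            mul_le_mul_of_nonneg_right e7 (norm_nonneg _)
        _ = _ := by ring
    calc _ ≤ (Real.exp (σ * δ) * ‖w * lapC h w‖) ^ 2 := pow_le_pow_left₀ (norm_nonneg _) e6 2
      _ = _ := by
        rw [mul_pow, ← Real.exp_nat_mul]
        congr 2
        push_cast
        ring
  refine (lintegral_mono hR).trans ?_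
  rw [lintegral_const_mul' _ _ ENNReal.ofReal_ne_top]
  gcongr
  refine le_trans ?_ hC
  refine lintegral_two_pi ?_
  have : Continuous fun y : ℝ => ‖((σ : ℂ) + y * Complex.I) *
      lapC h ((σ : ℂ) + y * Complex.I)‖ ^ 2 :=
    (((by fun_prop : Continuous fun y : ℝ => (σ : ℂ) + y * Complex.I).mul hmG).norm).pow 2
  exact this.measurable.ennreal_ofReal


/-- **Square integrability from one line.** -/
theorem line_sq {D : ℝ → ℝ} (hD : Measurable D) (hi : ∀ U, IntegrableOn D (Ioc 0 U)) {σ : ℝ}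
    (hσ : 0 < σ) {C : ℝ≥0∞}
    (hPi : Integrable (fun u : ℝ => (EP.intU D u : ℂ) * Complex.exp (-(σ * u))))
    (hP2 : MemLp (fun u : ℝ => (EP.intU D u : ℂ) * Complex.exp (-(σ * u))) 2)
    (hm : Continuous fun y : ℝ => lapC (EP.intU D) ((σ : ℂ) + y * Complex.I))
    (hC : ∫⁻ y : ℝ, ENNReal.ofReal (‖((σ : ℂ) + y * Complex.I) *
      lapC (EP.intU D) ((σ : ℂ) + y * Complex.I)‖ ^ 2) ≤ C) :
    ∫⁻ u in Ioi (0 : ℝ), ENNReal.ofReal ((D u * Real.exp (-(σ * u))) ^ 2) ≤
      ENNReal.ofReal (Real.exp (2 * σ)) * C := by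
  set h : ℝ → ℝ := EP.intU D with hh
  have hmh : Measurable h := EP.intU_meas hD
  have h0 : ∀ u, u ≤ 0 → h u = 0 := by
    intro u hu
    rw [hh]
    unfold EP.intU
    rw [Ioc_eq_empty (by linarith)]
    simp
  set δ : ℕ → ℝ := fun n => 1 / ((n : ℝ) + 1) with hδ
  have hδ0 : ∀ n, 0 < δ n := fun n => by rw [hδ]; positivity
  have hδ1 : ∀ n, δ n ≤ 1 := fun n => by
    rw [hδ]
    simp only []
    rw [div_le_one (by positivity)]
    linarith [(Nat.cast_nonneg n : (0 : ℝ) ≤ n)]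
  have hδt : Tendsto δ atTop (𝓝 0) := tendsto_one_div_add_atTop_nhds_zero_nat
  set q : ℕ → ℝ → ℝ := fun n u => (h (u + δ n) - h u) / δ n * Real.exp (-(σ * u)) with hq
  have hqm : ∀ n, Measurable (fun u => ENNReal.ofReal (q n u ^ 2)) := fun n => by
    rw [hq]
    have : Measurable fun u : ℝ => h (u + δ n) := hmh.comp (measurable_id.add_const _)
    fun_prop
  have hqb : ∀ n, ∫⁻ u in Ioi (0 : ℝ), ENNReal.ofReal (q n u ^ 2) ≤
      ENNReal.ofReal (Real.exp (2 * σ)) * C := by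
    intro n
    refine (setLIntegral_le_lintegral _ _).trans ?_
    refine (quot_sq' h0 hσ (hδ0 n) hPi hP2 hm hC).trans ?_
    refine mul_le_mul' (ENNReal.ofReal_le_ofReal (Real.exp_le_exp.mpr ?_)) le_rfl
    have := hδ0 n
    have := hδ1 n
    nlinarith
  have hae : ∀ᵐ u : ℝ ∂(volume.restrict (Ioi 0)), Tendsto (fun n => ENNReal.ofReal (q n u ^ 2)) atTop
      (𝓝 (ENNReal.ofReal ((D u * Real.exp (-(σ * u))) ^ 2))) := by
    filter_upwards [ae_restrict_of_ae (ae_deriv hi), ae_restrict_mem measurableSet_Ioi] with u h1 h2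
    refine (ENNReal.continuous_ofReal.tendsto _).comp ?_
    refine Tendsto.pow ?_ 2
    have h3 := (hasDerivAt_iff_tendsto_slope_zero.mp (h1 h2))
    have h4 : Tendsto δ atTop (𝓝[≠] 0) := tendsto_nhdsWithin_iff.mpr
      ⟨hδt, Eventually.of_forall fun n => (hδ0 n).ne'⟩
    have h5 := h3.comp h4
    have h7 := h5.mul_const (Real.exp (-(σ * u)))
    refine h7.congr fun n => ?_
    simp only [Function.comp, hq, smul_eq_mul]
    ring
  calc ∫⁻ u in Ioi (0 : ℝ), ENNReal.ofReal ((D u * Real.exp (-(σ * u))) ^ 2) =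
        ∫⁻ u in Ioi (0 : ℝ), liminf (fun n => ENNReal.ofReal (q n u ^ 2)) atTop := by
        refine lintegral_congr_ae ?_
        filter_upwards [hae] with u hu
        exact hu.liminf_eq.symm
    _ ≤ liminf (fun n => ∫⁻ u in Ioi (0 : ℝ), ENNReal.ofReal (q n u ^ 2)) atTop :=
        lintegral_liminf_le hqm
    _ ≤ _ := by
        refine liminf_le_of_frequently_le' ?_
        exact Frequently.of_forall hqb

/-- all lines to the right of zero -/
theorem sq_of_all {D : ℝ → ℝ} (hD : Measurable D) {C : ℝ≥0∞}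
    (h : ∀ σ : ℝ, 0 < σ → σ ≤ 1 →
      ∫⁻ u in Ioi (0 : ℝ), ENNReal.ofReal ((D u * Real.exp (-(σ * u))) ^ 2) ≤ C) :
    ∫⁻ u in Ioi (0 : ℝ), ENNReal.ofReal (D u ^ 2) ≤ C := by
  set δ : ℕ → ℝ := fun n => 1 / ((n : ℝ) + 1) with hδ
  have hδ0 : ∀ n, 0 < δ n := fun n => by rw [hδ]; positivity
  have hδ1 : ∀ n, δ n ≤ 1 := fun n => by
    rw [hδ]
    simp only []
    rw [div_le_one (by positivity)]
    linarith [(Nat.cast_nonneg n : (0 : ℝ) ≤ n)]
  have hδt : Tendsto δ atTop (𝓝 0) := tendsto_one_div_add_atTop_nhds_zero_nat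
  have hlim : ∀ u : ℝ, Tendsto (fun n => ENNReal.ofReal ((D u * Real.exp (-(δ n * u))) ^ 2)) atTop
      (𝓝 (ENNReal.ofReal (D u ^ 2))) := by
    intro u
    refine (ENNReal.continuous_ofReal.tendsto _).comp ?_
    refine Tendsto.pow ?_ 2
    have h6 : Tendsto (fun n => Real.exp (-(δ n * u))) atTop (𝓝 (Real.exp (-(0 * u)))) :=
      (Real.continuous_exp.tendsto _).comp ((hδt.mul_const u).neg)
    have h7 := h6.const_mul (D u)
    rwa [zero_mul, neg_zero, Real.exp_zero, mul_one] at h7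
  calc ∫⁻ u in Ioi (0 : ℝ), ENNReal.ofReal (D u ^ 2) =
        ∫⁻ u in Ioi (0 : ℝ), liminf (fun n => ENNReal.ofReal ((D u * Real.exp (-(δ n * u))) ^ 2))
          atTop := by
        refine lintegral_congr fun u => ?_
        exact (hlim u).liminf_eq.symm
    _ ≤ liminf (fun n => ∫⁻ u in Ioi (0 : ℝ),
          ENNReal.ofReal ((D u * Real.exp (-(δ n * u))) ^ 2)) atTop :=
        lintegral_liminf_le fun n => by fun_prop
    _ ≤ _ := by
        refine liminf_le_of_frequently_le' ?_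
        exact Frequently.of_forall fun n => h _ (hδ0 n) (hδ1 n)

/-- weighted square integrability gives absolute convergence -/
theorem LInt_of_sq {D : ℝ → ℝ} (hD : Measurable D)
    (h : ∀ σ : ℝ, 0 < σ →
      ∫⁻ u in Ioi (0 : ℝ), ENNReal.ofReal ((D u * Real.exp (-(σ * u))) ^ 2) < ⊤) {w : ℝ}
    (hw : 0 < w) : LInt D w := by
  unfold LInt
  have h1 : IntegrableOn (fun u => (D u * Real.exp (-(w / 2 * u))) ^ 2) (Ioi 0) := by
    refine ⟨(by fun_prop : Measurable fun u => (D u * Real.exp (-(w / 2 * u))) ^ 2).aestronglyMeasurable,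
      ?_⟩
    rw [hasFiniteIntegral_iff_ofReal (Eventually.of_forall fun u => sq_nonneg _)]
    exact h (w / 2) (by positivity)
  have h2 : IntegrableOn (fun u : ℝ => Real.exp (-w * u)) (Ioi 0) := exp_neg_integrableOn_Ioi 0 hw
  refine Integrable.mono' (h1.add h2)
    (by fun_prop : Measurable fun u => D u * Real.exp (-(w * u))).aestronglyMeasurable
    (Eventually.of_forall fun u => ?_)
  show ‖D u * Real.exp (-(w * u))‖ ≤ (D u * Real.exp (-(w / 2 * u))) ^ 2 + Real.exp (-w * u)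
  have e1 : Real.exp (-(w * u)) = Real.exp (-(w / 2 * u)) * Real.exp (-(w / 2 * u)) := by
    rw [← Real.exp_add]; congr 1; ring
  have e2 : Real.exp (-w * u) = Real.exp (-(w * u)) := by congr 1; ring
  rw [Real.norm_eq_abs, abs_mul, abs_of_pos (Real.exp_pos _), e2, e1, mul_pow]
  have hE := Real.exp_pos (-(w / 2 * u))
  set e := Real.exp (-(w / 2 * u))
  have h3 : |D u| ^ 2 = D u ^ 2 := sq_abs _
  have h4 : |D u| * (e * e) = (|D u| * e) * e := by ring
  have h5 : D u ^ 2 * e ^ 2 = (|D u| * e) ^ 2 := by rw [mul_pow, h3]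
  rw [h4, h5]
  nlinarith [sq_nonneg (|D u| * e - e), sq_nonneg (|D u| * e), sq_nonneg e]

end Pool.Agent.W263.MS
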