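import Pool.Agent.W263.MS.Pl2

/-! Weighted square integrability, integrability and Plancherel's formula. -/

set_option autoImplicit false

namespace Pool.Agent.W263.MS

open MeasureTheory Filter Topology Set
open Pool.Agent.W263.BSD Pool.Agent.W263.EP
open scoped ENNReal FourierTransform

variable {h : ℝ → ℝ}

/-- finite weighted square integrals -/
def WSq (h : ℝ → ℝ) : Prop := ∀ σ : ℝ, 0 < σ →
  ∫⁻ u in Ioi (0 : ℝ), ENNReal.ofReal ((h u * Real.exp (-(σ * u))) ^ 2) < ⊤

theorem P_of_wsq (hm : Measurable h) (h0 : ∀ u, u ≤ 0 → h u = 0) (hw : WSq h) {σ : ℝ}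
    (hσ : 0 < σ) :
    Integrable (fun u : ℝ => (h u : ℂ) * Complex.exp (-(σ * u))) ∧
      MemLp (fun u : ℝ => (h u : ℂ) * Complex.exp (-(σ * u))) 2 := by
  have hmeas : AEStronglyMeasurable (fun u : ℝ => (h u : ℂ) * Complex.exp (-(σ * u))) volume :=
    Measurable.aestronglyMeasurable (by fun_prop)
  have hn : ∀ u : ℝ, ‖(h u : ℂ) * Complex.exp (-(σ * u))‖ = ‖h u * Real.exp (-(σ * u))‖ := by
    intro u
    rw [norm_mul, Complex.norm_real, Complex.norm_exp, norm_mul, Real.norm_eq_abs (Real.exp _),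
      abs_of_pos (Real.exp_pos _)]
    congr 2
    simp
  have hz : ∀ u : ℝ, u ∉ Ioi (0 : ℝ) → h u * Real.exp (-(σ * u)) = 0 := by
    intro u hu
    rw [h0 u (not_lt.mp hu), zero_mul]
  constructor
  · have h1 : IntegrableOn (fun u => h u * Real.exp (-(σ * u))) (Ioi 0) := LInt_of_sq hm hw hσ
    have h2 : Integrable (fun u => h u * Real.exp (-(σ * u))) := by
      rw [← integrable_indicator_iff measurableSet_Ioi] at h1
      refine h1.congr (Eventually.of_forall fun u => ?_)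
      by_cases hu : u ∈ Ioi (0 : ℝ)
      · rw [indicator_of_mem hu]
      · rw [indicator_of_notMem hu]
        exact (hz u hu).symm
    exact h2.mono hmeas (Eventually.of_forall fun u => (hn u).le)
  · rw [memLp_two_iff_integrable_sq_norm hmeas]
    have h1 : IntegrableOn (fun u => (h u * Real.exp (-(σ * u))) ^ 2) (Ioi 0) := by
      refine ⟨(by fun_prop : Measurable fun u =>
        (h u * Real.exp (-(σ * u))) ^ 2).aestronglyMeasurable, ?_⟩
      rw [hasFiniteIntegral_iff_ofReal (Eventually.of_forall fun u => sq_nonneg _)]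
      exact hw σ hσ
    rw [← integrable_indicator_iff measurableSet_Ioi] at h1
    refine h1.congr (Eventually.of_forall fun u => ?_)
    simp only []
    rw [hn u, Real.norm_eq_abs, sq_abs]
    by_cases hu : u ∈ Ioi (0 : ℝ)
    · rw [indicator_of_mem hu]
    · rw [indicator_of_notMem hu, hz u hu]
      norm_num

theorem wsq_of_poly {C0 : ℝ} {k : ℕ} (hb : ∀ u, 0 < u → |h u| ≤ C0 * (1 + u) ^ k) : WSq h := by
  intro σ hσ
  have hlo := (isLittleO_pow_exp_pos_mul_atTop (b := σ / 2) k (by positivity)).bound one_pos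
  -- a bound for the polynomial
  obtain ⟨K, hK⟩ : ∃ K : ℝ, ∀ u : ℝ, 0 < u → (1 + u) ^ k ≤ K * Real.exp (σ / 2 * u) := by
    obtain ⟨U, hU⟩ := eventually_atTop.mp hlo
    set U' := max U 1 with hU'
    refine ⟨Real.exp (σ / 2) * ((1 + U') ^ k + 1), fun u hu => ?_⟩
    have he1 : 1 ≤ Real.exp (σ / 2 * u) := Real.one_le_exp (by positivity)
    have he2 : 1 ≤ Real.exp (σ / 2) := Real.one_le_exp (by positivity)
    have hU1 : 1 ≤ U' := le_max_right _ _
    rcases le_or_gt (1 + u) (1 + U') with h1 | h1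
    · have h2 : (1 + u) ^ k ≤ (1 + U') ^ k := pow_le_pow_left₀ (by linarith) h1 k
      have h3 : 0 ≤ (1 + U') ^ k := by positivity
      calc (1 + u) ^ k ≤ 1 * ((1 + U') ^ k + 1) * 1 := by linarith
        _ ≤ Real.exp (σ / 2) * ((1 + U') ^ k + 1) * Real.exp (σ / 2 * u) := by gcongr
    · have h2 := hU (1 + u) (by
        have := le_max_left U 1
        linarith)
      rw [Real.norm_eq_abs, Real.norm_eq_abs, abs_of_pos (by positivity),
        abs_of_pos (Real.exp_pos _), one_mul] at h2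
      have h3 : Real.exp (σ / 2 * (1 + u)) = Real.exp (σ / 2) * Real.exp (σ / 2 * u) := by
        rw [← Real.exp_add]; congr 1; ring
      rw [h3] at h2
      have h4 : (1 : ℝ) ≤ (1 + U') ^ k + 1 := by
        have : 0 ≤ (1 + U') ^ k := by positivity
        linarith
      calc (1 + u) ^ k ≤ Real.exp (σ / 2) * 1 * Real.exp (σ / 2 * u) := by rw [mul_one]; exact h2
        _ ≤ _ := by gcongr
  have h2 : IntegrableOn (fun u : ℝ => (|C0| * |K|) ^ 2 * Real.exp (-σ * u)) (Ioi 0) :=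
    (exp_neg_integrableOn_Ioi 0 hσ).const_mul _
  have h3 := h2.lintegral_lt_top
  refine lt_of_le_of_lt (setLIntegral_mono' measurableSet_Ioi fun u hu => ?_) h3
  have hu0 : (0 : ℝ) < u := hu
  refine ENNReal.ofReal_le_ofReal ?_
  have h4 : |h u * Real.exp (-(σ * u))| ≤ |C0| * |K| * Real.exp (-(σ / 2 * u)) := by
    rw [abs_mul, abs_of_pos (Real.exp_pos _)]
    have h5 : |h u| ≤ |C0| * (|K| * Real.exp (σ / 2 * u)) := by
      refine (hb u hu0).trans ?_
      have h6 : C0 * (1 + u) ^ k ≤ |C0| * (1 + u) ^ k :=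
        mul_le_mul_of_nonneg_right (le_abs_self _) (by positivity)
      refine h6.trans (mul_le_mul_of_nonneg_left ?_ (abs_nonneg _))
      exact (hK u hu0).trans (mul_le_mul_of_nonneg_right (le_abs_self _) (Real.exp_pos _).le)
    calc |h u| * Real.exp (-(σ * u)) ≤
        |C0| * (|K| * Real.exp (σ / 2 * u)) * Real.exp (-(σ * u)) := by gcongr
      _ = |C0| * |K| * (Real.exp (σ / 2 * u) * Real.exp (-(σ * u))) := by ring
      _ = _ := by
        rw [← Real.exp_add]
        congr 2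
        ring
  calc (h u * Real.exp (-(σ * u))) ^ 2 = |h u * Real.exp (-(σ * u))| ^ 2 := (sq_abs _).symm
    _ ≤ (|C0| * |K| * Real.exp (-(σ / 2 * u))) ^ 2 := pow_le_pow_left₀ (abs_nonneg _) h4 2
    _ = _ := by
      rw [mul_pow, ← Real.exp_nat_mul]
      congr 2
      push_cast
      ring

theorem wsq_of_sq (h2 : ∫⁻ u in Ioi (0 : ℝ), ENNReal.ofReal (h u ^ 2) < ⊤) : WSq h := by
  intro σ hσ
  refine lt_of_le_of_lt (setLIntegral_mono' measurableSet_Ioi fun u hu => ?_) h2
  have hu0 : (0 : ℝ) < u := hu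
  refine ENNReal.ofReal_le_ofReal ?_
  rw [mul_pow]
  have h3 : Real.exp (-(σ * u)) ^ 2 ≤ 1 := by
    rw [← Real.exp_nat_mul]
    refine Real.exp_le_one_iff.mpr ?_
    have := mul_pos hσ hu0
    push_cast
    linarith
  nlinarith [sq_nonneg (h u)]

/-- change of variables `y = 2 π ξ`, equality -/
theorem lintegral_two_pi_eq {g : ℝ → ℝ≥0∞} (hg : Measurable g) :
    ∫⁻ y, g y = ENNReal.ofReal (2 * Real.pi) * ∫⁻ ξ : ℝ, g (2 * Real.pi * ξ) := by
  have hpi : (2 * Real.pi : ℝ) ≠ 0 := by positivity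
  have h1 : ∫⁻ ξ : ℝ, g (2 * Real.pi * ξ) = ∫⁻ y, g y ∂(Measure.map (fun x => 2 * Real.pi * x) volume) :=
    (lintegral_map hg (by fun_prop)).symm
  have h2 : Measure.map (fun x => 2 * Real.pi * x) (volume : Measure ℝ) =
      ENNReal.ofReal |(2 * Real.pi)⁻¹| • volume := Real.map_volume_mul_left hpi
  rw [h1, h2, lintegral_smul_measure, smul_eq_mul, ← mul_assoc, ← ENNReal.ofReal_mul (by positivity),
    abs_of_pos (by positivity), mul_inv_cancel₀ hpi, ENNReal.ofReal_one, one_mul]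

/-- Plancherel: the transform on a line is square integrable -/
theorem plancherel_line (hm : Measurable h) (h0 : ∀ u, u ≤ 0 → h u = 0)
    (h2 : ∫⁻ u in Ioi (0 : ℝ), ENNReal.ofReal (h u ^ 2) < ⊤) {σ : ℝ} (hσ : 0 < σ)
    (hc : Continuous fun y : ℝ => lapC h ((σ : ℂ) + y * Complex.I)) :
    ∫⁻ y : ℝ, ENNReal.ofReal (‖lapC h ((σ : ℂ) + y * Complex.I)‖ ^ 2) ≤
      ENNReal.ofReal (2 * Real.pi) * ∫⁻ u in Ioi (0 : ℝ), ENNReal.ofReal (h u ^ 2) := by
  obtain ⟨hPi, hP2⟩ := P_of_wsq hm h0 (wsq_of_sq h2) hσ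
  have hpl := Pool.Agent.Helper76.NormalHP.plancherel_lintegral _ hPi hP2
  have hmeas : Measurable fun y : ℝ => ENNReal.ofReal (‖lapC h ((σ : ℂ) + y * Complex.I)‖ ^ 2) :=
    ((hc.norm).pow 2).measurable.ennreal_ofReal
  rw [lintegral_two_pi_eq hmeas]
  refine mul_le_mul' le_rfl ?_
  calc ∫⁻ ξ : ℝ, ENNReal.ofReal (‖lapC h ((σ : ℂ) + (2 * Real.pi * ξ : ℝ) * Complex.I)‖ ^ 2) =
      ∫⁻ ξ : ℝ, ‖𝓕 (fun u : ℝ => (h u : ℂ) * Complex.exp (-(σ * u))) ξ‖ₑ ^ 2 := by
        refine lintegral_congr fun ξ => ?_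
        rw [fourier_P h0 σ ξ, ← ofReal_norm, ← ENNReal.ofReal_pow (norm_nonneg _)]
    _ = ∫⁻ u : ℝ, ‖(h u : ℂ) * Complex.exp (-(σ * u))‖ₑ ^ 2 := hpl
    _ = ∫⁻ u in Ioi (0 : ℝ), ‖(h u : ℂ) * Complex.exp (-(σ * u))‖ₑ ^ 2 := by
        rw [← lintegral_indicator measurableSet_Ioi]
        refine lintegral_congr fun u => ?_
        by_cases hu : u ∈ Ioi (0 : ℝ)
        · rw [indicator_of_mem hu]
        · rw [indicator_of_notMem hu, h0 u (not_lt.mp hu)]
          simp
    _ ≤ _ := by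
        refine setLIntegral_mono' measurableSet_Ioi fun u hu => ?_
        have hu0 : (0 : ℝ) < u := hu
        rw [← ofReal_norm, ← ENNReal.ofReal_pow (norm_nonneg _)]
        refine ENNReal.ofReal_le_ofReal ?_
        rw [norm_mul, Complex.norm_real, Complex.norm_exp, mul_pow, Real.norm_eq_abs, sq_abs]
        have e1 : (-((σ : ℂ) * u)).re = -(σ * u) := by simp
        rw [e1]
        have h3 : Real.exp (-(σ * u)) ^ 2 ≤ 1 := by
          rw [← Real.exp_nat_mul]
          refine Real.exp_le_one_iff.mpr ?_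
          have := mul_pos hσ hu0
          push_cast
          linarith
        nlinarith [sq_nonneg (h u)]

end Pool.Agent.W263.MS
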