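import Pool.Agent.W263.LG.GrowthL

/-! The complex transform of the remainder. -/

set_option autoImplicit false

namespace Pool.Agent.W263.MS

open MeasureTheory Filter Topology Set Classical
open Pool.Agent.W263.BSD Pool.Agent.W263.EP Pool.Agent.W263.MN Pool.Agent.W263.LG
open Pool.Agent.H341R2 (NormSys)

/-- transforms of the kernels in the half plane -/
theorem lapC_ml (k : ℕ) {w : ℂ} (hw : 0 < w.re) :
    w ^ (k + 1) * lapC (ml k) w = -Complex.log w := by
  have h1 : AnalyticOnNhd ℂ (fun w : ℂ => w ^ (k + 1) * lapC (ml k) w) {z : ℂ | 0 < z.re} := by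
    refine DifferentiableOn.analyticOnNhd (fun z hz => ?_) (isOpen_half _)
    exact ((differentiableAt_id.pow (k + 1)).mul
      (lapC_differentiableAt (ml_meas k) (fun w hw => (ml_lap k hw).1) hz)).differentiableWithinAt
  have h2 : AnalyticOnNhd ℂ (fun w : ℂ => -Complex.log w) {z : ℂ | 0 < z.re} := by
    refine DifferentiableOn.analyticOnNhd (fun z hz => ?_) (isOpen_half _)
    exact (differentiableAt_id.clog (Or.inl hz)).neg.differentiableWithinAt
  have h3 := h1.eqOn_of_preconnected_of_frequently_eq h2 (preconn_half _)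
    (show ((1 : ℝ) : ℂ) ∈ {z : ℂ | 0 < z.re} by
      show (0 : ℝ) < ((1 : ℝ) : ℂ).re
      rw [Complex.ofReal_re]; norm_num) ?_
  · exact h3 hw
  · refine (cast_tendsto 1).frequently (Eventually.frequently ?_)
    filter_upwards [self_mem_nhdsWithin] with w hw
    have hw1 : (1 : ℝ) < w := hw
    have hw0 : (0 : ℝ) < w := by linarith
    rw [lapC_ofReal, ← Complex.ofReal_log hw0.le]
    exact_mod_cast (ml_lap k hw0).2

theorem lapC_lin {f g k : ℝ → ℝ} (hf : Measurable f) (hg : Measurable g) (hk : Measurable k) {w : ℂ}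
    (h1 : LInt f w.re) (h2 : LInt g w.re) (h3 : LInt k w.re) (ρ L : ℝ) :
    lapC (fun u => -f u + ρ * g u - L * k u) w = -lapC f w + ρ * lapC g w - L * lapC k w := by
  have i1 := h1.complex hf
  have i2 := h2.complex hg
  have i3 := h3.complex hk
  unfold lapC
  have e : ∀ u : ℝ, ((-f u + ρ * g u - L * k u : ℝ) : ℂ) * Complex.exp (-(w * u)) =
      (-((f u : ℂ) * Complex.exp (-(w * u))) + (ρ : ℂ) * ((g u : ℂ) * Complex.exp (-(w * u)))) -
        (L : ℂ) * ((k u : ℂ) * Complex.exp (-(w * u))) := by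
    intro u
    push_cast
    ring
  simp_rw [e]
  rw [integral_sub, integral_add, integral_neg, integral_const_mul, integral_const_mul]
  · exact i1.neg
  · exact i2.const_mul _
  · exact i1.neg.add (i2.const_mul _)
  · exact i3.const_mul _

variable {S : NormSys} {bad : Set S.X} {tr : S.X → ℕ → ℝ} {ω : ℝ} {D : ℝ} {F G : ℂ → ℂ}
  {ρ L : ℝ} {n : ℤ}

/-- the analytic logarithm -/
noncomputable def Lam (S : NormSys) (bad : Set S.X) (tr : S.X → ℕ → ℝ) (ω : ℝ) (w : ℂ) : ℂ :=
  -(w ^ 2 * lapC (EP.ria (ap S (tn S bad tr ω)) 1) w)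

/-- the transform of the remainder of order one -/
theorem lapC_rem (hconv : ∀ w > 0, LInt (EP.ria (ap S (tn S bad tr ω)) 1) w)
    {w : ℂ} (hw : 0 < w.re) :
    w ^ 2 * lapC (rem (ap S (tn S bad tr ω)) ρ L 1) w =
      Lam S bad tr ω w - ρ * Complex.log w - L := by
  have e1 := lapC_lin (ria_meas ap_meas 1) (ml_meas 1) (pk_meas 1) (hconv _ hw)
    (ml_lap 1 hw).1 (pk_LInt 1 hw) ρ L
  have e2 : lapC (rem (ap S (tn S bad tr ω)) ρ L 1) w = _ := e1
  rw [e2]
  have e3 := lapC_ml 1 hw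
  have e4 := lapC_pk 1 hw
  unfold Lam
  have e5 : w ^ 2 * (-lapC (EP.ria (ap S (tn S bad tr ω)) 1) w + ρ * lapC (ml 1) w -
      L * lapC (pk 1) w) = -(w ^ 2 * lapC (EP.ria (ap S (tn S bad tr ω)) 1) w) +
      ρ * (w ^ (1 + 1) * lapC (ml 1) w) - L * (w ^ (1 + 1) * lapC (pk 1) w) := by ring
  rw [e5, e3, e4]
  ring

theorem exp_Lam (E : TData S (tn S bad tr ω) D) (hF : IsFull S bad tr ω F)
    (hconv : ∀ w > 0, LInt (EP.ria (ap S (tn S bad tr ω)) 1) w) {w : ℂ} (hw : 0 < w.re) :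
    Complex.exp (Lam S bad tr ω w) = F (((ω : ℂ) + 1) / 2 + w) := by
  have h1 := full_unique hF (FCz_isFull E 1 hconv) (s := ((ω : ℂ) + 1) / 2 + w) (by
    have e : (((ω : ℂ) + 1) / 2 + w).re = (ω + 1) / 2 + w.re := by
      rw [Complex.add_re, ← c_cast, Complex.ofReal_re]
    rw [e]; linarith)
  rw [h1]
  unfold FCz cont Lam
  rw [add_sub_cancel_left, zero_sub]

theorem Lam_deriv (E : TData S (tn S bad tr ω) D) (hF : IsFull S bad tr ω F)
    (hconv : ∀ w > 0, LInt (EP.ria (ap S (tn S bad tr ω)) 1) w) {w : ℂ} (hw : 0 < w.re) :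
    HasDerivAt (Lam S bad tr ω) (deriv (fun w => F (((ω : ℂ) + 1) / 2 + w)) w /
      F (((ω : ℂ) + 1) / 2 + w)) w := by
  have hd : DifferentiableAt ℂ (Lam S bad tr ω) w := by
    unfold Lam
    exact ((differentiableAt_id.pow 2).mul
      (lapC_differentiableAt (ria_meas ap_meas 1) hconv hw)).neg
  have h1 := hd.hasDerivAt.cexp
  have h2 : (fun w => F (((ω : ℂ) + 1) / 2 + w)) =ᶠ[𝓝 w]
      fun w => Complex.exp (Lam S bad tr ω w) := by
    filter_upwards [(isOpen_half 0).mem_nhds (show w ∈ {z : ℂ | 0 < z.re} from hw)] with z hz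
    exact (exp_Lam E hF hconv hz).symm
  have h3 : deriv (fun w => F (((ω : ℂ) + 1) / 2 + w)) w =
      Complex.exp (Lam S bad tr ω w) * deriv (Lam S bad tr ω) w := by
    rw [h2.deriv_eq]
    exact h1.deriv
  rw [h3, ← exp_Lam E hF hconv hw, mul_div_assoc, mul_comm, div_mul_cancel_of_imp]
  · exact hd.hasDerivAt
  · intro h
    exact absurd h (Complex.exp_ne_zero _)

theorem Lam_eq (E : TData S (tn S bad tr ω) D) {w : ℂ} (hw : 1 / 2 < w.re) :
    Lam S bad tr ω w = LL S (tn S bad tr ω) w := by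
  have hI := ap_half E 1
  have h1 : AnalyticOnNhd ℂ (Lam S bad tr ω) {z : ℂ | 1 / 2 < z.re} := by
    refine DifferentiableOn.analyticOnNhd (fun z hz => ?_) (isOpen_half _)
    have hz' : 1 / 2 < z.re := hz
    refine DifferentiableAt.differentiableWithinAt ?_
    unfold Lam
    exact ((differentiableAt_id.pow 2).mul
      (lapC_differentiableAt (ria_meas ap_meas 1) hI hz')).neg
  have h2 : AnalyticOnNhd ℂ (LL S (tn S bad tr ω)) {z : ℂ | 1 / 2 < z.re} := by
    refine DifferentiableOn.analyticOnNhd (fun z hz => ?_) (isOpen_half _)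
    exact (E.LL_diff hz).differentiableWithinAt
  have h3 := h1.eqOn_of_preconnected_of_frequently_eq h2 (preconn_half _)
    (show ((1 : ℝ) : ℂ) ∈ {z : ℂ | 1 / 2 < z.re} by
      show (1 : ℝ) / 2 < ((1 : ℝ) : ℂ).re
      rw [Complex.ofReal_re]; norm_num) ?_
  · exact h3 hw
  · refine (cast_tendsto 1).frequently (Eventually.frequently ?_)
    filter_upwards [self_mem_nhdsWithin] with w hw
    have hw1 : (1 : ℝ) < w := hw
    obtain ⟨_, h5⟩ := ria_lap (ap_meas (S := S) (t := tn S bad tr ω)) (show 0 < w by linarith)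
      (ap_LInt E (show 1 / 2 < w by linarith)) 1
    rw [LL_ap E (show 1 / 2 < w by linarith)]
    unfold Lam
    rw [lapC_ofReal, ← h5]
    push_cast
    ring

/-- the logarithm is bounded far to the right -/
theorem Lam_bdd (E : TData S (tn S bad tr ω) D) :
    ∃ K : ℝ, ∀ w : ℂ, w.re = 2 → ‖Lam S bad tr ω w‖ ≤ K := by
  have hsum := (prod_summable S (show -(1 / 2) - 2 < (-1 : ℝ) by norm_num) D 0)
  refine ⟨∑' p : S.X × ℕ, D * ((S.N p.1 : ℝ) ^ ((-(1 / 2) - 2 : ℝ)) *
    (3 / 4 : ℝ) ^ (p.2 - 0)), fun w hw => ?_⟩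
  rw [Lam_eq E (by rw [hw]; norm_num)]
  exact tsum_of_norm_bounded hsum.hasSum fun p => E.LL_le p (by norm_num) hw.ge

end Pool.Agent.W263.MS
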