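import Pool.Agent.W263.MS.Exc

/-! Transfer of the mean square conditions. -/

set_option autoImplicit false

namespace Pool.Agent.W263.MS

open MeasureTheory Filter Topology Set Classical
open Pool.Agent.W263.BSD Pool.Agent.W263.EP Pool.Agent.W263.MN Pool.Agent.W263.LG
open Pool.Agent.H341R2 (NormSys)
open scoped ENNReal

theorem sq_log_iff {f φ : ℝ → ℝ} (h : ∀ x, 1 < x → f x = φ (Real.log x)) :
    IntegrableOn (fun x => f x ^ 2 / x) (Ioi 2) ↔
      IntegrableOn (fun u => φ u ^ 2) (Ioi (Real.log 2)) := by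
  rw [← cov_int (φ := fun u => φ u ^ 2) (by norm_num : (0 : ℝ) < 2)]
  refine integrableOn_congr_fun (fun x hx => ?_) measurableSet_Ioi
  have hx2 : (2 : ℝ) < x := hx
  rw [h x (by linarith)]

theorem mean_log_iff {f φ : ℝ → ℝ} (h : ∀ x, 1 < x → f x = φ (Real.log x)) :
    Tendsto (fun X : ℝ => (Real.log X)⁻¹ * ∫ x in Ioc 2 X, |f x| / x) atTop (𝓝 0) ↔
      Tendsto (fun U : ℝ => U⁻¹ * ∫ u in Ioc (Real.log 2) U, |φ u|) atTop (𝓝 0) := by
  have e : ∀ X : ℝ, 2 ≤ X → ∫ x in Ioc 2 X, |f x| / x = ∫ u in Ioc (Real.log 2) (Real.log X),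
      |φ u| := by
    intro X hX
    rw [← cov_val (φ := fun u => |φ u|) (by norm_num : (0 : ℝ) < 2) hX]
    refine setIntegral_congr_fun measurableSet_Ioc fun x hx => ?_
    have hx2 : (2 : ℝ) < x := hx.1
    rw [h x (by linarith)]
  constructor
  · intro h1
    refine (h1.comp Real.tendsto_exp_atTop).congr' ?_
    filter_upwards [eventually_ge_atTop (Real.log 2)] with U hU
    have h2 : 2 ≤ Real.exp U := by
      rwa [Real.log_le_iff_le_exp (by norm_num)] at hU
    simp only [Function.comp]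
    rw [e _ h2, Real.log_exp]
  · intro h1
    refine (h1.comp Real.tendsto_log_atTop).congr' ?_
    filter_upwards [eventually_ge_atTop 2] with X hX
    simp only [Function.comp]
    rw [e _ hX]

theorem sq_memLp {φ : ℝ → ℝ} (hφ : Measurable φ) {s : Set ℝ} :
    IntegrableOn (fun u => φ u ^ 2) s ↔ MemLp φ 2 (volume.restrict s) :=
  (memLp_two_iff_integrable_sq hφ.aestronglyMeasurable).symm

variable {φ γ : ℝ → ℝ}

/-- the error term is square integrable -/
theorem err_sq (hφ : Measurable φ) {B C : ℝ} {a U0 : ℝ} (ha : 0 < a) (hU : a ≤ U0)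
    (h1 : ∀ u, a < u → u ≤ U0 → |φ u| ≤ B) (h2 : ∀ u, U0 < u → |φ u| ≤ C / u) :
    IntegrableOn (fun u => φ u ^ 2) (Ioi a) := by
  rw [← Ioc_union_Ioi_eq_Ioi hU]
  refine IntegrableOn.union ?_ ?_
  · refine Integrable.mono' (g := fun _ => B ^ 2)
      ((continuousOn_const.integrableOn_compact isCompact_Icc).mono_set Ioc_subset_Icc_self)
      (hφ.pow_const 2).aestronglyMeasurable ?_
    refine (ae_restrict_iff' measurableSet_Ioc).mpr (Eventually.of_forall fun u hu => ?_)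
    rw [norm_pow, Real.norm_eq_abs]
    exact pow_le_pow_left₀ (abs_nonneg _) (h1 u hu.1 hu.2) 2
  · have hU0 : 0 < U0 := by linarith
    have h3 : IntegrableOn (fun u : ℝ => C ^ 2 * u ^ (-2 : ℝ)) (Ioi U0) :=
      (integrableOn_Ioi_rpow_of_lt (by norm_num) hU0).const_mul _
    refine Integrable.mono' h3 (hφ.pow_const 2).aestronglyMeasurable ?_
    refine (ae_restrict_iff' measurableSet_Ioi).mpr (Eventually.of_forall fun u hu => ?_)
    have hu' : U0 < u := hu
    have hu0 : 0 < u := by linarith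
    rw [norm_pow, Real.norm_eq_abs]
    refine (pow_le_pow_left₀ (abs_nonneg _) (h2 u hu') 2).trans (le_of_eq ?_)
    rw [Real.rpow_neg hu0.le, div_pow, div_eq_mul_inv]
    norm_cast

theorem transfer_sq (hφ : Measurable φ) (hγ : Measurable γ) {a : ℝ}
    (he : IntegrableOn (fun u => (φ u + γ u) ^ 2) (Ioi a))
    (h : IntegrableOn (fun u => φ u ^ 2) (Ioi a)) : IntegrableOn (fun u => γ u ^ 2) (Ioi a) := by
  have h1 := (sq_memLp (hφ.add hγ)).mp he
  have h2 := (sq_memLp hφ).mp h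
  rw [sq_memLp hγ]
  have h3 := h1.sub h2
  rwa [show (φ + γ) - φ = γ by funext u; simp] at h3

theorem transfer_mean {a : ℝ}
    (hφ : ∀ U, IntegrableOn φ (Ioc a U)) (hγ : ∀ U, IntegrableOn γ (Ioc a U))
    (he : Tendsto (fun U : ℝ => U⁻¹ * ∫ u in Ioc a U, |φ u + γ u|) atTop (𝓝 0))
    (h : Tendsto (fun U : ℝ => U⁻¹ * ∫ u in Ioc a U, |φ u|) atTop (𝓝 0)) :
    Tendsto (fun U : ℝ => U⁻¹ * ∫ u in Ioc a U, |γ u|) atTop (𝓝 0) := by
  have h1 := he.add h
  rw [add_zero] at h1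
  refine squeeze_zero' ?_ ?_ h1
  · filter_upwards [eventually_gt_atTop 0] with U hU
    exact mul_nonneg (inv_nonneg.mpr hU.le) (integral_nonneg fun u => abs_nonneg _)
  · filter_upwards [eventually_gt_atTop 0] with U hU
    have hs : IntegrableOn (fun u => |φ u + γ u|) (Ioc a U) := ((hφ U).add (hγ U)).abs
    have hs' : IntegrableOn (fun u => |φ u|) (Ioc a U) := (hφ U).abs
    rw [← mul_add, ← integral_add hs hs']
    refine mul_le_mul_of_nonneg_left ?_ (inv_nonneg.mpr hU.le)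
    refine integral_mono (hγ U).abs (hs.add hs') fun u => ?_
    show |γ u| ≤ |φ u + γ u| + |φ u|
    have := abs_sub (φ u + γ u) (φ u)
    rwa [add_sub_cancel_left] at this

/-- **Transfer.** -/
theorem transfer (hφ : Measurable φ) (hγ : Measurable γ) {a : ℝ} (ha : 0 < a)
    (hφb : ∀ U, ∃ B, ∀ u, a < u → u ≤ U → |φ u| ≤ B)
    (hγb : ∀ U, ∃ B, ∀ u, a < u → u ≤ U → |γ u| ≤ B)
    {C : ℝ} (h : ∀ᶠ u : ℝ in atTop, |φ u + γ u| ≤ C / u) :
    (IntegrableOn (fun u => φ u ^ 2) (Ioi a) ↔ IntegrableOn (fun u => γ u ^ 2) (Ioi a)) ∧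
    (Tendsto (fun U : ℝ => U⁻¹ * ∫ u in Ioc a U, |φ u|) atTop (𝓝 0) ↔
      Tendsto (fun U : ℝ => U⁻¹ * ∫ u in Ioc a U, |γ u|) atTop (𝓝 0)) ∧
    ∀ l : Filter ℝ, l ≤ atTop → (Tendsto φ l (𝓝 0) ↔ Tendsto γ l (𝓝 0)) := by
  have hint : ∀ {ψ : ℝ → ℝ}, Measurable ψ → (∀ U, ∃ B, ∀ u, a < u → u ≤ U → |ψ u| ≤ B) →
      ∀ U, IntegrableOn ψ (Ioc a U) := by
    intro ψ hψ hb U
    obtain ⟨B, hB⟩ := hb U
    refine Integrable.mono' (g := fun _ => B)
      ((continuousOn_const.integrableOn_compact isCompact_Icc).mono_set Ioc_subset_Icc_self)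
      hψ.aestronglyMeasurable ?_
    exact (ae_restrict_iff' measurableSet_Ioc).mpr (Eventually.of_forall fun u hu => by
      rw [Real.norm_eq_abs]; exact hB u hu.1 hu.2)
  obtain ⟨U1, hU1⟩ := eventually_atTop.mp h
  obtain ⟨B1, hB1⟩ := hφb (max a U1)
  obtain ⟨B2, hB2⟩ := hγb (max a U1)
  have he : IntegrableOn (fun u => (φ u + γ u) ^ 2) (Ioi a) :=
    err_sq (φ := fun u => φ u + γ u) (hφ.add hγ) ha (le_max_left a U1) (B := B1 + B2)
      (fun u h1 h2 => (abs_add_le _ _).trans (add_le_add (hB1 u h1 h2) (hB2 u h1 h2)))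
      (fun u hu => hU1 u ((le_max_right _ _).trans hu.le))
  have he' : IntegrableOn (fun u => (γ u + φ u) ^ 2) (Ioi a) := by
    refine he.congr_fun (fun u _ => ?_) measurableSet_Ioi
    simp only []
    rw [add_comm]
  have hm := mean_of_sq (φ := fun u => φ u + γ u)
    (fun U => (hint hφ hφb U).add (hint hγ hγb U)) he
  have hm' : Tendsto (fun U : ℝ => U⁻¹ * ∫ u in Ioc a U, |γ u + φ u|) atTop (𝓝 0) := by
    simpa only [add_comm] using hm
  refine ⟨⟨transfer_sq hφ hγ he, transfer_sq hγ hφ he'⟩,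
    ⟨transfer_mean (hint hφ hφb) (hint hγ hγb) hm, transfer_mean (hint hγ hγb) (hint hφ hφb) hm'⟩,
    fun l hl => ?_⟩
  have h0 : Tendsto (fun u => φ u + γ u) l (𝓝 0) := by
    refine squeeze_zero_norm' (a := fun u : ℝ => C / u) (hl h) ?_
    exact (tendsto_id.const_div_atTop C).mono_left hl
  constructor
  · intro h1
    have := h0.sub h1
    rw [sub_zero] at this
    refine this.congr fun u => ?_
    ring
  · intro h1
    have := h0.sub h1
    rw [sub_zero] at this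
    refine this.congr fun u => ?_
    ring

end Pool.Agent.W263.MS
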